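import Mathlib

set_option autoImplicit false

namespace Pool.Agent.Lib.MP_279640_co

/-- Number of edges of `G` with one end in `S` and the other end outside `S`. -/
noncomputable def cutSize {n : ℕ} (G : SimpleGraph (Fin n)) (S : Finset (Fin n)) : ℕ :=
  {p : Fin n × Fin n | p.1 ∈ S ∧ p.2 ∉ S ∧ G.Adj p.1 p.2}.ncard

/-- `b(G)`: the largest number of edges across a bisection `(S, Sᶜ)`, `|S| ≤ |Sᶜ| ≤ |S| + 1`. -/
noncomputable def maxBis {n : ℕ} (G : SimpleGraph (Fin n)) : ℕ :=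
  sSup {k | ∃ S : Finset (Fin n), S.card ≤ Sᶜ.card ∧ Sᶜ.card ≤ S.card + 1 ∧ k = cutSize G S}

/-- `b(m,n)`: the least value of `b(G)` over the graphs `G` with `n` vertices and `m` edges. -/
noncomputable def bis (m n : ℕ) : ℕ :=
  sInf {k | ∃ G : SimpleGraph (Fin n), G.edgeSet.ncard = m ∧ k = maxBis G}

end Pool.Agent.Lib.MP_279640_co
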