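import Mathlib

section

section

set_option autoImplicit false
set_option linter.unusedSectionVars false
open scoped Classical
open Finset

namespace Pool.Agent.Lib.MP_279640_co

variable {V : Type} [Fintype V]

/-- Real adjacency indicator. -/
noncomputable def A (G : SimpleGraph V) (u v : V) : ℝ := if G.Adj u v then 1 else 0

/-- The adjacency bilinear form. -/
noncomputable def B (G : SimpleGraph V) : LinearMap.BilinForm ℝ (V → ℝ) :=
  Matrix.toBilin' (Matrix.of (A G))

lemma B_apply (G : SimpleGraph V) (x y : V → ℝ) :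
    B G x y = ∑ u, ∑ v, x u * A G u v * y v := by
  simp [B, Matrix.toBilin'_apply]

lemma A_comm (G : SimpleGraph V) (u v : V) : A G u v = A G v u := by
  simp [A, G.adj_comm]

lemma A_self (G : SimpleGraph V) (u : V) : A G u u = 0 := by
  simp [A]

lemma A_nonneg (G : SimpleGraph V) (u v : V) : 0 ≤ A G u v := by
  unfold A; split_ifs <;> norm_num

lemma A_le_one (G : SimpleGraph V) (u v : V) : A G u v ≤ 1 := by
  unfold A; split_ifs <;> norm_num

lemma A_cases (G : SimpleGraph V) (u v : V) : A G u v = 0 ∨ A G u v = 1 := by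
  unfold A; split_ifs <;> simp

lemma B_comm (G : SimpleGraph V) (x y : V → ℝ) : B G x y = B G y x := by
  rw [B_apply, B_apply, Finset.sum_comm]
  refine Finset.sum_congr rfl fun u _ => Finset.sum_congr rfl fun v _ => ?_
  rw [A_comm]; ring

/-- Indicator vector of a vertex. -/
noncomputable def e (i : V) : V → ℝ := Pi.single i 1

lemma e_apply (i j : V) : e i j = if j = i then 1 else 0 := by
  simp [e, Pi.single_apply]

lemma B_e_e (G : SimpleGraph V) (i j : V) : B G (e i) (e j) = A G i j := by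
  simp [B, e]

lemma B_e_right (G : SimpleGraph V) (x : V → ℝ) (j : V) :
    B G x (e j) = ∑ u, x u * A G u j := by
  rw [B_apply]
  refine Finset.sum_congr rfl fun u _ => ?_
  simp [e_apply]

lemma B_add_add (G : SimpleGraph V) (x y : V → ℝ) :
    B G (x + y) (x + y) = B G x x + 2 * B G x y + B G y y := by
  simp only [map_add, LinearMap.add_apply]
  rw [B_comm G y x]; ring

/-- Values of a partial assignment. -/
def PA (x : V → ℝ) : Prop := ∀ v, x v = -1 ∨ x v = 0 ∨ x v = 1

/-- A full assignment extending `x` on a set `U` of unassigned vertices. -/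
lemma complete (G : SimpleGraph V) : ∀ (k : ℕ) (U : Finset V), U.card = k → ∀ x : V → ℝ,
    (∀ v ∈ U, x v = 0) → ∃ y : V → ℝ, (∀ v, v ∉ U → y v = x v) ∧
      (∀ v ∈ U, y v = -1 ∨ y v = 1) ∧ |∑ v ∈ U, y v| ≤ 1 ∧ B G y y ≤ B G x x := by
  intro k
  induction k using Nat.strong_induction_on with
  | _ k ih =>
    intro U hU x hx
    rcases Nat.lt_or_ge U.card 2 with h2 | h2
    · rcases Nat.lt_or_ge U.card 1 with h1 | h1
      · have hU0 : U = ∅ := Finset.card_eq_zero.mp (by omega)
        subst hU0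
        exact ⟨x, fun v _ => rfl, by simp, by simp, le_refl _⟩
      · obtain ⟨i, hi⟩ := Finset.card_eq_one.mp (show U.card = 1 by omega)
        subst hi
        -- choose the sign
        obtain ⟨s, hs, hs'⟩ : ∃ s : ℝ, (s = -1 ∨ s = 1) ∧ s * B G x (e i) ≤ 0 := by
          rcases le_total 0 (B G x (e i)) with h | h
          · exact ⟨-1, Or.inl rfl, by linarith⟩
          · exact ⟨1, Or.inr rfl, by linarith⟩
        refine ⟨x + s • e i, ?_, ?_, ?_, ?_⟩
        · intro v hv
          have : v ≠ i := by simpa using hv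
          simp [e_apply, this]
        · intro v hv
          have hvi : v = i := by simpa using hv
          subst hvi
          have h0 := hx v (by simp)
          simp [e_apply, h0, hs]
        · have h0 := hx i (by simp)
          simp only [Finset.sum_singleton, Pi.add_apply, Pi.smul_apply, e_apply, if_true,
            smul_eq_mul, mul_one, h0, zero_add]
          rcases hs with hs | hs <;> simp [hs]
        · rw [B_add_add]
          simp only [map_smul, LinearMap.smul_apply, smul_eq_mul, B_e_e, A_self]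
          nlinarith
    · obtain ⟨i, hi, j, hj, hij⟩ := Finset.one_lt_card.mp (show 1 < U.card by omega)
      obtain ⟨s, hs, hs'⟩ : ∃ s : ℝ, (s = -1 ∨ s = 1) ∧ s * (B G x (e i) - B G x (e j)) ≤ 0 := by
        rcases le_total 0 (B G x (e i) - B G x (e j)) with h | h
        · exact ⟨-1, Or.inl rfl, by linarith⟩
        · exact ⟨1, Or.inr rfl, by linarith⟩
      let x' := x + s • (e i - e j)
      have hBx' : B G x' x' ≤ B G x x := by
        simp only [x']
        rw [B_add_add]
        simp only [map_smul, LinearMap.smul_apply, smul_eq_mul, map_sub, LinearMap.sub_apply,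
          B_e_e, A_self]
        have hA := A_nonneg G i j
        have hA' : A G j i = A G i j := A_comm G j i
        rw [hA']
        have hs2 : s * s = 1 := by rcases hs with hs | hs <;> rw [hs] <;> norm_num
        nlinarith
      have hcard : ((U.erase i).erase j).card < k := by
        have h1 : (U.erase i).card = U.card - 1 := Finset.card_erase_of_mem hi
        have h3 : ((U.erase i).erase j).card ≤ (U.erase i).card := Finset.card_erase_le
        omega
      obtain ⟨y, hy1, hy2, hy3, hy4⟩ := ih _ hcard ((U.erase i).erase j) rfl x' (by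
        intro v hv
        have hvj : v ≠ j := Finset.ne_of_mem_erase hv
        have hvi : v ≠ i := Finset.ne_of_mem_erase (Finset.mem_of_mem_erase hv)
        have hvU : v ∈ U := Finset.mem_of_mem_erase (Finset.mem_of_mem_erase hv)
        simp [x', e_apply, hvi, hvj, hx v hvU])
      have hyi : y i = s := by
        rw [hy1 i (by simp)]
        simp [x', e_apply, hij, hx i hi]
      have hyj : y j = -s := by
        rw [hy1 j (by simp)]
        simp [x', e_apply, hij.symm, hx j hj]
      refine ⟨y, ?_, ?_, ?_, le_trans hy4 hBx'⟩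
      · intro v hv
        have hvi : v ≠ i := fun h => hv (h ▸ hi)
        have hvj : v ≠ j := fun h => hv (h ▸ hj)
        rw [hy1 v (fun h => hv (Finset.mem_of_mem_erase (Finset.mem_of_mem_erase h)))]
        simp [x', e_apply, hvi, hvj]
      · intro v hv
        by_cases hvi : v = i
        · subst hvi; rw [hyi]; exact hs
        · by_cases hvj : v = j
          · subst hvj; rw [hyj]
            rcases hs with hs | hs <;> rw [hs] <;> simp
          · exact hy2 v (by simp [hvi, hvj, hv])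
      · have hsum : ∑ v ∈ U, y v = ∑ v ∈ (U.erase i).erase j, y v := by
          rw [← Finset.add_sum_erase U y hi,
            ← Finset.add_sum_erase (U.erase i) y (Finset.mem_erase.mpr ⟨hij.symm, hj⟩), hyi, hyj]
          ring
        rw [hsum]; exact hy3

/-- `Sur G d`: every balanced partial assignment has quadratic form at least `-d`. -/
def Sur (G : SimpleGraph V) (d : ℝ) : Prop :=
  ∀ x : V → ℝ, PA x → ∑ v, x v = 0 → -(B G x x) ≤ d

/-- `Bal G d`: every near-balanced sign vector has quadratic form at least `-d`. -/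
def Bal (G : SimpleGraph V) (d : ℝ) : Prop :=
  ∀ y : V → ℝ, (∀ v, y v = -1 ∨ y v = 1) → |∑ v, y v| ≤ 1 → -(B G y y) ≤ d

lemma sur_of_bal {G : SimpleGraph V} {d : ℝ} (h : Bal G d) : Sur G d := by
  intro x hx hsum
  obtain ⟨y, hy1, hy2, hy3, hy4⟩ := complete G _ (Finset.univ.filter (fun v => x v = 0)) rfl x
    (by simp)
  have hval : ∀ v, y v = -1 ∨ y v = 1 := by
    intro v
    by_cases hv : x v = 0
    · exact hy2 v (by simp [hv])
    · rw [hy1 v (by simp [hv])]
      rcases hx v with h | h | h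
      · exact Or.inl h
      · exact absurd h hv
      · exact Or.inr h
  have hsum' : ∑ v, y v = ∑ v ∈ Finset.univ.filter (fun v => x v = 0), y v := by
    rw [← Finset.sum_filter_add_sum_filter_not Finset.univ (fun v => x v = 0) y]
    have h1 : ∑ v ∈ Finset.univ.filter (fun v => ¬ x v = 0), y v
        = ∑ v ∈ Finset.univ.filter (fun v => ¬ x v = 0), x v := by
      refine Finset.sum_congr rfl fun v hv => hy1 v ?_
      simp only [Finset.mem_filter, Finset.mem_univ, true_and] at hv ⊢
      exact hv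
    have h2 : ∑ v ∈ Finset.univ.filter (fun v => ¬ x v = 0), x v = ∑ v, x v := by
      rw [← Finset.sum_filter_add_sum_filter_not Finset.univ (fun v => x v = 0) x]
      have : ∑ v ∈ Finset.univ.filter (fun v => x v = 0), x v = 0 :=
        Finset.sum_eq_zero (by simp)
      rw [this, zero_add]
    rw [h1, h2, hsum, add_zero]
  have := h y hval (by rw [hsum']; exact hy3)
  linarith

/-- Greedy matching: pairs of adjacent vertices receive opposite signs. -/
lemma greedy (G : SimpleGraph V) : ∀ (k : ℕ) (U : Finset V), U.card = k → ∀ x : V → ℝ,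
    (∀ v ∈ U, x v = 0) → ∃ (l : ℕ) (S : Finset V), S ⊆ U ∧ S.card = 2 * l ∧
      (∀ u ∈ U, ∀ v ∈ U, u ∉ S → v ∉ S → ¬ G.Adj u v) ∧
      ∃ y : V → ℝ, (∀ v, v ∉ S → y v = x v) ∧
      (∀ v ∈ S, y v = -1 ∨ y v = 1) ∧ ∑ v ∈ S, y v = 0 ∧ B G y y ≤ B G x x - 2 * l := by
  intro k
  induction k using Nat.strong_induction_on with
  | _ k ih =>
    intro U hU x hx
    by_cases hedge : ∃ i ∈ U, ∃ j ∈ U, G.Adj i j
    · obtain ⟨i, hi, j, hj, hadj⟩ := hedge
      have hij : i ≠ j := G.ne_of_adj hadj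
      obtain ⟨s, hs, hs'⟩ : ∃ s : ℝ, (s = -1 ∨ s = 1) ∧ s * (B G x (e i) - B G x (e j)) ≤ 0 := by
        rcases le_total 0 (B G x (e i) - B G x (e j)) with h | h
        · exact ⟨-1, Or.inl rfl, by linarith⟩
        · exact ⟨1, Or.inr rfl, by linarith⟩
      let x' := x + s • (e i - e j)
      have hBx' : B G x' x' ≤ B G x x - 2 := by
        simp only [x']
        rw [B_add_add]
        simp only [map_smul, LinearMap.smul_apply, smul_eq_mul, map_sub, LinearMap.sub_apply,
          B_e_e, A_self]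
        have hA : A G i j = 1 := by simp [A, hadj]
        have hA' : A G j i = 1 := by rw [A_comm]; exact hA
        rw [hA, hA']
        have hs2 : s * s = 1 := by rcases hs with hs | hs <;> rw [hs] <;> norm_num
        nlinarith
      have hcard1 : ((U.erase i).erase j).card < k := by
        have h1 : (U.erase i).card = U.card - 1 := Finset.card_erase_of_mem hi
        have h3 : ((U.erase i).erase j).card ≤ (U.erase i).card := Finset.card_erase_le
        have h4 : 0 < U.card := Finset.card_pos.mpr ⟨i, hi⟩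
        omega
      obtain ⟨l, S, hSU, hScard, hind, y, hy1, hy2, hy3, hy4⟩ :=
        ih _ hcard1 ((U.erase i).erase j) rfl x' (by
        intro v hv
        have hvj : v ≠ j := Finset.ne_of_mem_erase hv
        have hvi : v ≠ i := Finset.ne_of_mem_erase (Finset.mem_of_mem_erase hv)
        have hvU : v ∈ U := Finset.mem_of_mem_erase (Finset.mem_of_mem_erase hv)
        simp [x', e_apply, hvi, hvj, hx v hvU])
      have hiS : i ∉ S := fun h => by
        have := hSU h; simp at this
      have hjS : j ∉ S := fun h => by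
        have := hSU h; simp at this
      have hyi : y i = s := by
        rw [hy1 i hiS]
        simp [x', e_apply, hij, hx i hi]
      have hyj : y j = -s := by
        rw [hy1 j hjS]
        simp [x', e_apply, hij.symm, hx j hj]
      have hinot : i ∉ insert j S := by simp [hij, hiS]
      refine ⟨l + 1, insert i (insert j S), ?_, ?_, ?_, y, ?_, ?_, ?_, ?_⟩
      · intro v hv
        simp only [Finset.mem_insert] at hv
        rcases hv with rfl | rfl | hv
        · exact hi
        · exact hj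
        · exact Finset.mem_of_mem_erase (Finset.mem_of_mem_erase (hSU hv))
      · rw [Finset.card_insert_of_notMem hinot, Finset.card_insert_of_notMem hjS, hScard]
        ring
      · intro u hu v hv huS hvS
        simp only [Finset.mem_insert, not_or] at huS hvS
        exact hind u (by simp [huS.1, huS.2.1, hu]) v (by simp [hvS.1, hvS.2.1, hv])
          huS.2.2 hvS.2.2
      · intro v hv
        simp only [Finset.mem_insert, not_or] at hv
        rw [hy1 v hv.2.2]
        simp [x', e_apply, hv.1, hv.2.1]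
      · intro v hv
        simp only [Finset.mem_insert] at hv
        rcases hv with rfl | rfl | hv
        · rw [hyi]; exact hs
        · rw [hyj]
          rcases hs with hs | hs <;> rw [hs] <;> simp
        · exact hy2 v hv
      · rw [Finset.sum_insert hinot, Finset.sum_insert hjS, hy3, hyi, hyj]; ring
      · push_cast
        linarith
    · push Not at hedge
      exact ⟨0, ∅, by simp, by simp, fun u hu v hv _ _ => hedge u hu v hv, x, by simp, by simp,
        by simp, by simp⟩

/-- The matching bound. -/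
lemma matching_bound {G : SimpleGraph V} {d : ℝ} (h : Sur G d) :
    ∃ S : Finset V, (S.card : ℝ) ≤ d ∧ ∀ u, u ∉ S → ∀ v, v ∉ S → ¬ G.Adj u v := by
  obtain ⟨l, S, _, hScard, hind, y, hy1, hy2, hy3, hy4⟩ :=
    greedy G _ Finset.univ rfl 0 (by simp)
  refine ⟨S, ?_, fun u hu v hv => hind u (by simp) v (by simp) hu hv⟩
  have hPA : PA y := by
    intro v
    by_cases hv : v ∈ S
    · rcases hy2 v hv with h | h
      · exact Or.inl h
      · exact Or.inr (Or.inr h)
    · rw [hy1 v hv]; simp
  have hsum : ∑ v, y v = 0 := by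
    rw [← hy3]
    symm
    apply Finset.sum_subset (Finset.subset_univ S)
    intro v _ hv
    rw [hy1 v hv]; rfl
  have := h y hPA hsum
  rw [hScard]
  push_cast
  have h0 : B G (0 : V → ℝ) (0 : V → ℝ) = 0 := by simp
  rw [h0] at hy4
  linarith

end Pool.Agent.Lib.MP_279640_co
end

section

set_option autoImplicit false
set_option linter.unusedSectionVars false
open scoped Classical
open Finset

namespace Pool.Agent.Lib.MP_279640_co

variable {ι : Type}

/-- Sign vector attached to a subset. -/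
noncomputable def sg (T : Finset ι) (s : ι) : ℝ := if s ∈ T then 1 else -1

lemma sg_cases (T : Finset ι) (s : ι) : sg T s = -1 ∨ sg T s = 1 := by
  unfold sg; split_ifs <;> simp

/-- Signed sum. -/
noncomputable def L (S T : Finset ι) (b : ι → ℝ) : ℝ := ∑ s ∈ S, sg T s * b s

lemma L_insert_notMem {S T : Finset ι} {a : ι} (ha : a ∉ S) (hT : T ⊆ S) (b : ι → ℝ) :
    L (insert a S) T b = L S T b - b a := by
  unfold L
  rw [Finset.sum_insert ha]
  have haT : a ∉ T := fun h => ha (hT h)
  have : sg T a = -1 := by simp [sg, haT]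
  rw [this]; ring

lemma L_insert_insert {S T : Finset ι} {a : ι} (ha : a ∉ S) (b : ι → ℝ) :
    L (insert a S) (insert a T) b = L S T b + b a := by
  unfold L
  rw [Finset.sum_insert ha]
  have h1 : sg (insert a T) a = 1 := by simp [sg]
  have h2 : ∑ s ∈ S, sg (insert a T) s * b s = ∑ s ∈ S, sg T s * b s := by
    refine Finset.sum_congr rfl fun s hs => ?_
    have hne : s ≠ a := fun h => ha (h ▸ hs)
    simp [sg, hne]
  rw [h1, h2]; ring

lemma step {S : Finset ι} {a : ι} (ha : a ∉ S) (b : ι → ℝ) (f : ℝ → ℝ) :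
    ∑ T ∈ (insert a S).powerset, f (L (insert a S) T b) =
      ∑ T ∈ S.powerset, (f (L S T b - b a) + f (L S T b + b a)) := by
  rw [Finset.sum_powerset_insert ha, ← Finset.sum_add_distrib]
  refine Finset.sum_congr rfl fun T hT => ?_
  rw [L_insert_notMem ha (Finset.mem_powerset.mp hT), L_insert_insert ha]

lemma moment2 (S : Finset ι) (b : ι → ℝ) :
    ∑ T ∈ S.powerset, (L S T b) ^ 2 = 2 ^ S.card * ∑ s ∈ S, b s ^ 2 := by
  induction S using Finset.induction_on with
  | empty => simp [L]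
  | insert a S ha ih =>
    rw [step ha b (fun t => t ^ 2), Finset.card_insert_of_notMem ha, Finset.sum_insert ha]
    have : ∑ T ∈ S.powerset, ((L S T b - b a) ^ 2 + (L S T b + b a) ^ 2)
        = 2 * ∑ T ∈ S.powerset, (L S T b) ^ 2 + 2 * (2 ^ S.card) * b a ^ 2 := by
      rw [Finset.mul_sum]
      have h : (2 : ℝ) * 2 ^ S.card * b a ^ 2 = ∑ T ∈ S.powerset, 2 * b a ^ 2 := by
        rw [Finset.sum_const, Finset.card_powerset, nsmul_eq_mul]; push_cast; ring
      rw [h, ← Finset.sum_add_distrib]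
      refine Finset.sum_congr rfl fun T _ => by ring
    rw [this, ih]; ring

lemma moment4 (S : Finset ι) (b : ι → ℝ) :
    ∑ T ∈ S.powerset, (L S T b) ^ 4 ≤ 3 * 2 ^ S.card * (∑ s ∈ S, b s ^ 2) ^ 2 := by
  induction S using Finset.induction_on with
  | empty => simp [L]
  | insert a S ha ih =>
    rw [step ha b (fun t => t ^ 4), Finset.card_insert_of_notMem ha, Finset.sum_insert ha]
    have : ∑ T ∈ S.powerset, ((L S T b - b a) ^ 4 + (L S T b + b a) ^ 4)
        = 2 * ∑ T ∈ S.powerset, (L S T b) ^ 4 + 12 * b a ^ 2 * ∑ T ∈ S.powerset, (L S T b) ^ 2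
          + 2 * (2 ^ S.card) * b a ^ 4 := by
      rw [Finset.mul_sum, Finset.mul_sum]
      have h : (2 : ℝ) * 2 ^ S.card * b a ^ 4 = ∑ T ∈ S.powerset, 2 * b a ^ 4 := by
        rw [Finset.sum_const, Finset.card_powerset, nsmul_eq_mul]; push_cast; ring
      rw [h, ← Finset.sum_add_distrib, ← Finset.sum_add_distrib]
      refine Finset.sum_congr rfl fun T _ => by ring
    rw [this, moment2]
    set q := ∑ s ∈ S, b s ^ 2 with hq
    have hp : (0 : ℝ) < 2 ^ S.card := by positivity
    have h4 : 0 ≤ (2 : ℝ) ^ S.card * b a ^ 4 := by positivity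
    have e1 : (3 : ℝ) * 2 ^ (S.card + 1) * (b a ^ 2 + q) ^ 2
        = 2 * (3 * 2 ^ S.card * q ^ 2) + 12 * b a ^ 2 * (2 ^ S.card * q)
          + 6 * (2 ^ S.card * b a ^ 4) := by ring
    rw [e1]
    nlinarith [ih, h4]

/-- Khinchine inequality with constant `5/9`. -/
lemma khinchine (S : Finset ι) (b : ι → ℝ) :
    (5 / 9 : ℝ) * 2 ^ S.card * Real.sqrt (∑ s ∈ S, b s ^ 2) ≤ ∑ T ∈ S.powerset, |L S T b| := by
  set q := ∑ s ∈ S, b s ^ 2 with hq
  have hq0 : 0 ≤ q := Finset.sum_nonneg fun s _ => sq_nonneg _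
  rcases hq0.eq_or_lt with h0 | hpos
  · rw [← h0]; simp only [Real.sqrt_zero, mul_zero]
    exact Finset.sum_nonneg fun T _ => abs_nonneg _
  set r := Real.sqrt q with hr
  have hr0 : 0 < r := Real.sqrt_pos.mpr hpos
  have hr2 : r ^ 2 = q := Real.sq_sqrt hq0
  -- pointwise inequality
  have hpt : ∀ t : ℝ, t ^ 2 / r - 4 / 27 * t ^ 4 / r ^ 3 ≤ |t| := by
    intro t
    have ht2 : t ^ 2 = |t| ^ 2 := (sq_abs t).symm
    have ht4 : t ^ 4 = |t| ^ 4 := by
      calc t ^ 4 = (t ^ 2) ^ 2 := by ring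
        _ = (|t| ^ 2) ^ 2 := by rw [ht2]
        _ = |t| ^ 4 := by ring
    rw [ht2, ht4]
    set u := |t| with hu
    have hu0 : 0 ≤ u := abs_nonneg t
    rw [div_sub_div _ _ hr0.ne' (by positivity), div_le_iff₀ (by positivity)]
    have key : 0 ≤ u * (r * (4 * u ^ 3 - 27 * r ^ 2 * u + 27 * r ^ 3)) := by
      have h1 : 4 * u ^ 3 - 27 * r ^ 2 * u + 27 * r ^ 3 = (2 * u - 3 * r) ^ 2 * (u + 3 * r) := by
        ring
      rw [h1]; positivity
    nlinarith [key]
  calc (5 / 9 : ℝ) * 2 ^ S.card * r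
      = (2 ^ S.card * q) / r - 4 / 27 * (3 * 2 ^ S.card * q ^ 2) / r ^ 3 := by
        rw [← hr2]; field_simp; ring
    _ ≤ (∑ T ∈ S.powerset, (L S T b) ^ 2) / r
          - 4 / 27 * (∑ T ∈ S.powerset, (L S T b) ^ 4) / r ^ 3 := by
        have h4 := moment4 S b
        have h2 := moment2 S b
        rw [h2]
        have : 4 / 27 * (∑ T ∈ S.powerset, (L S T b) ^ 4) / r ^ 3 ≤
            4 / 27 * (3 * 2 ^ S.card * q ^ 2) / r ^ 3 := by
          apply div_le_div_of_nonneg_right _ (by positivity)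
          exact mul_le_mul_of_nonneg_left h4 (by norm_num)
        linarith
    _ = ∑ T ∈ S.powerset, ((L S T b) ^ 2 / r - 4 / 27 * (L S T b) ^ 4 / r ^ 3) := by
        rw [Finset.sum_sub_distrib, Finset.sum_div, Finset.mul_sum, Finset.sum_div]
    _ ≤ _ := Finset.sum_le_sum fun T _ => hpt _

variable {V : Type} [Fintype V]

/-- Signed vector sum. -/
noncomputable def Z (S T : Finset ι) (h : ι → V → ℝ) : V → ℝ := ∑ s ∈ S, sg T s • h s

lemma Z_insert_notMem {S T : Finset ι} {a : ι} (ha : a ∉ S) (hT : T ⊆ S) (h : ι → V → ℝ) :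
    Z (insert a S) T h = Z S T h - h a := by
  unfold Z
  rw [Finset.sum_insert ha]
  have haT : a ∉ T := fun h => ha (hT h)
  have : sg T a = -1 := by simp [sg, haT]
  rw [this, neg_one_smul]; ring

lemma Z_insert_insert {S T : Finset ι} {a : ι} (ha : a ∉ S) (h : ι → V → ℝ) :
    Z (insert a S) (insert a T) h = Z S T h + h a := by
  unfold Z
  rw [Finset.sum_insert ha]
  have h1 : sg (insert a T) a = 1 := by simp [sg]
  have h2 : ∑ s ∈ S, sg (insert a T) s • h s = ∑ s ∈ S, sg T s • h s := by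
    refine Finset.sum_congr rfl fun s hs => ?_
    have hne : s ≠ a := fun h => ha (h ▸ hs)
    simp [sg, hne]
  rw [h1, h2, one_smul]; ring

/-- Expectation of the form of a random signed sum. -/
lemma moment_form (G : SimpleGraph V) (S : Finset ι) (h : ι → V → ℝ) :
    ∑ T ∈ S.powerset, B G (Z S T h) (Z S T h) = 2 ^ S.card * ∑ s ∈ S, B G (h s) (h s) := by
  induction S using Finset.induction_on with
  | empty => simp [Z]
  | insert a S ha ih =>
    rw [Finset.sum_powerset_insert ha, ← Finset.sum_add_distrib,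
      Finset.card_insert_of_notMem ha, Finset.sum_insert ha]
    have : ∑ T ∈ S.powerset, (B G (Z (insert a S) T h) (Z (insert a S) T h)
          + B G (Z (insert a S) (insert a T) h) (Z (insert a S) (insert a T) h))
        = 2 * ∑ T ∈ S.powerset, B G (Z S T h) (Z S T h) + 2 * (2 ^ S.card) * B G (h a) (h a) := by
      rw [Finset.mul_sum]
      have h0 : (2 : ℝ) * 2 ^ S.card * B G (h a) (h a)
          = ∑ T ∈ S.powerset, 2 * B G (h a) (h a) := by
        rw [Finset.sum_const, Finset.card_powerset, nsmul_eq_mul]; push_cast; ring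
      rw [h0, ← Finset.sum_add_distrib]
      refine Finset.sum_congr rfl fun T hT => ?_
      rw [Z_insert_notMem ha (Finset.mem_powerset.mp hT), Z_insert_insert ha]
      simp only [map_sub, map_add, LinearMap.sub_apply, LinearMap.add_apply]
      ring
    rw [this, ih]; ring

lemma B_Z_left (G : SimpleGraph V) (S T : Finset ι) (h : ι → V → ℝ) (y : V → ℝ) :
    B G (Z S T h) y = L S T (fun s => B G (h s) y) := by
  unfold Z L
  simp [map_sum, LinearMap.sum_apply, map_smul]

end Pool.Agent.Lib.MP_279640_co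
end
end

section

section

set_option autoImplicit false
set_option linter.unusedSectionVars false
open scoped Classical
open Finset

namespace Pool.Agent.Lib.MP_279640_co

variable {V : Type} [Fintype V]

/-- Push a coefficient vector along an enumeration of vertices. -/
noncomputable def push {J : Type} [Fintype J] (Φ : J → V) (c : J → ℝ) : V → ℝ :=
  ∑ j, c j • e (Φ j)

lemma push_apply {J : Type} [Fintype J] (Φ : J → V) (c : J → ℝ) (v : V) :
    push Φ c v = ∑ j, if Φ j = v then c j else 0 := by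
  unfold push
  rw [Finset.sum_apply]
  refine Finset.sum_congr rfl fun j _ => ?_
  simp only [Pi.smul_apply, e_apply, smul_eq_mul, mul_ite, mul_one, mul_zero]
  by_cases h : Φ j = v
  · simp [h]
  · have h' : ¬ v = Φ j := fun h'' => h h''.symm
    simp [h, h']

lemma push_apply_self {J : Type} [Fintype J] {Φ : J → V} (hΦ : Function.Injective Φ) (c : J → ℝ)
    (j : J) : push Φ c (Φ j) = c j := by
  rw [push_apply]
  rw [Finset.sum_eq_single j]
  · simp
  · intro k _ hk
    have : Φ k ≠ Φ j := fun h => hk (hΦ h)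
    simp [this]
  · simp

lemma push_apply_of_ne {J : Type} [Fintype J] {Φ : J → V} (c : J → ℝ)
    (v : V) (h : ∀ j, Φ j ≠ v) : push Φ c v = 0 := by
  rw [push_apply]
  exact Finset.sum_eq_zero fun j _ => by simp [h j]

lemma push_PA {J : Type} [Fintype J] {Φ : J → V} (hΦ : Function.Injective Φ) {c : J → ℝ}
    (hc : ∀ j, c j = -1 ∨ c j = 0 ∨ c j = 1) : PA (push Φ c) := by
  intro v
  by_cases h : ∃ j, Φ j = v
  · obtain ⟨j, rfl⟩ := h
    rw [push_apply_self hΦ]; exact hc j
  · push Not at h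
    rw [push_apply_of_ne c v h]; simp

lemma push_sum {J : Type} [Fintype J] (Φ : J → V) (c : J → ℝ) :
    ∑ v, push Φ c v = ∑ j, c j := by
  simp only [push_apply]
  rw [Finset.sum_comm]
  refine Finset.sum_congr rfl fun j _ => ?_
  simp

lemma B_push_right {J : Type} [Fintype J] (G : SimpleGraph V) (Φ : J → V) (c : J → ℝ)
    (x : V → ℝ) : B G x (push Φ c) = ∑ j, c j * B G x (e (Φ j)) := by
  unfold push
  simp [map_sum, map_smul]

lemma B_push_left {J : Type} [Fintype J] (G : SimpleGraph V) (Φ : J → V) (c : J → ℝ)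
    (x : V → ℝ) : B G (push Φ c) x = ∑ j, c j * B G (e (Φ j)) x := by
  rw [B_comm, B_push_right]
  refine Finset.sum_congr rfl fun j _ => by rw [B_comm]

/-- Sign function with values in `-1, 0, 1`. -/
noncomputable def sgn (r : ℝ) : ℝ := if r < 0 then -1 else if 0 < r then 1 else 0

lemma sgn_cases (r : ℝ) : sgn r = -1 ∨ sgn r = 0 ∨ sgn r = 1 := by
  unfold sgn; split_ifs <;> simp

lemma sgn_neg (r : ℝ) : sgn (-r) = - sgn r := by
  unfold sgn
  rcases lt_trichotomy r 0 with h | h | h
  · have h1 : ¬ (-r < 0) := by linarith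
    have h2 : 0 < -r := by linarith
    simp [h, h1]
  · subst h; simp
  · have h1 : -r < 0 := by linarith
    have h2 : ¬ (r < 0) := by linarith
    simp [h, h2]

lemma sgn_mul_self (r : ℝ) : sgn r * r = |r| := by
  unfold sgn
  rcases lt_trichotomy r 0 with h | h | h
  · simp [h, abs_of_neg h]
  · subst h; simp
  · have h2 : ¬ (r < 0) := by linarith
    simp [h, h2, abs_of_pos h]

/-- Squared distance of the neighbourhoods of `f a` and `f b` inside the range of `g`. -/
noncomputable def gap {ι κ : Type} [Fintype ι] (G : SimpleGraph V) (g : ι → V) (f : κ → V)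
    (a b : κ) : ℝ := ∑ s, (A G (g s) (f a) - A G (g s) (f b)) ^ 2

lemma fine {G : SimpleGraph V} {d : ℝ} (hS : Sur G d) {ι κ : Type} [Fintype ι] [Fintype κ]
    (g h : ι → V) (f : κ → V) (hinj : Function.Injective (Sum.elim g (Sum.elim h f)))
    (hind1 : ∀ a b, ¬ G.Adj (f a) (f b)) (hind2 : ∀ s a, ¬ G.Adj (h s) (f a))
    (τ : κ → κ) (hτ : ∀ a, τ (τ a) = a) :
    (5 / 9 : ℝ) * ∑ a, Real.sqrt (gap G g f a (τ a)) ≤ d := by
  have hτb : Function.Bijective τ := (Function.Involutive.bijective hτ)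
  let hv : ι → V → ℝ := fun s => e (g s) - e (h s)
  let z : Finset ι → V → ℝ := fun T => Z Finset.univ T hv
  let F : Finset ι → κ → ℝ := fun T a => B G (z T) (e (f a))
  -- the main inequality for each sign pattern
  have main : ∀ T : Finset ι, -(B G (z T) (z T)) + ∑ a, |F T a - F T (τ a)| ≤ d := by
    intro T
    let ω : κ → ℝ := fun a => sgn (F T (τ a) - F T a)
    let w : V → ℝ := push f ω
    have hx : push (Sum.elim g (Sum.elim h f)) (Sum.elim (sg T) (Sum.elim (fun s => - sg T s) ω))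
        = z T + w := by
      unfold push
      simp only [Fintype.sum_sum_type, Sum.elim_inl, Sum.elim_inr, z, Z, hv, w, push]
      rw [← add_assoc, ← Finset.sum_add_distrib]
      congr 1
      refine Finset.sum_congr rfl fun s _ => ?_
      rw [neg_smul, smul_sub]; ring
    have hωτ : ∀ a, ω (τ a) = - ω a := by
      intro a
      simp only [ω]
      rw [hτ a, ← sgn_neg]
      congr 1; ring
    have hsumω : ∑ a, ω a = 0 := by
      have h1 : ∑ a, ω (τ a) = ∑ a, ω a := Function.Bijective.sum_comp hτb ω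
      have h2 : ∑ a, ω (τ a) = - ∑ a, ω a := by
        rw [← Finset.sum_neg_distrib]
        exact Finset.sum_congr rfl fun a _ => hωτ a
      linarith
    have hPA : PA (z T + w) := by
      rw [← hx]
      apply push_PA hinj
      intro j
      rcases j with s | s | a
      · rcases sg_cases T s with h' | h' <;> simp [h']
      · rcases sg_cases T s with h' | h' <;> simp [h']
      · simpa using sgn_cases _
    have hsum : ∑ v, (z T + w) v = 0 := by
      rw [← hx, push_sum]
      simp [Fintype.sum_sum_type, hsumω]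
    have hle := hS _ hPA hsum
    rw [B_add_add] at hle
    have hww : B G w w = 0 := by
      simp only [w]
      rw [B_push_right]
      apply Finset.sum_eq_zero
      intro b _
      rw [B_push_left]
      have : ∑ a, ω a * B G (e (f a)) (e (f b)) = 0 := by
        apply Finset.sum_eq_zero
        intro a _
        rw [B_e_e]
        simp [A, hind1 a b]
      rw [this, mul_zero]
    have hzw : B G (z T) w = -(1 / 2) * ∑ a, |F T a - F T (τ a)| := by
      simp only [w]
      rw [B_push_right]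
      have h1 : ∑ a, ω a * B G (z T) (e (f a)) = ∑ a, ω a * F T a := rfl
      have h2 : ∑ a, ω a * F T a = ∑ a, -(ω a * F T (τ a)) := by
        rw [← Function.Bijective.sum_comp hτb (fun a => ω a * F T a)]
        refine Finset.sum_congr rfl fun a _ => ?_
        rw [hωτ a]; ring
      have h3 : ∀ a, ω a * (F T a - F T (τ a)) = -|F T a - F T (τ a)| := by
        intro a
        simp only [ω]
        have h4 : F T (τ a) - F T a = -(F T a - F T (τ a)) := by ring
        rw [h4, sgn_neg]
        have h5 := sgn_mul_self (F T a - F T (τ a))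
        linarith
      have h6 : 2 * ∑ a, ω a * F T a = -∑ a, |F T a - F T (τ a)| := by
        have : 2 * ∑ a, ω a * F T a = ∑ a, ω a * F T a + ∑ a, -(ω a * F T (τ a)) := by
          rw [← h2]; ring
        rw [this, ← Finset.sum_add_distrib, ← Finset.sum_neg_distrib]
        refine Finset.sum_congr rfl fun a _ => ?_
        rw [← h3 a]; ring
      rw [h1]; linarith
    rw [hww, hzw] at hle
    linarith
  -- average
  have havg : ∑ T ∈ (Finset.univ : Finset ι).powerset,
      (-(B G (z T) (z T)) + ∑ a, |F T a - F T (τ a)|) ≤ 2 ^ (Fintype.card ι) * d := by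
    calc _ ≤ ∑ T ∈ (Finset.univ : Finset ι).powerset, d :=
          Finset.sum_le_sum fun T _ => main T
      _ = _ := by
          rw [Finset.sum_const, Finset.card_powerset, Finset.card_univ, nsmul_eq_mul]; push_cast; rfl
  rw [Finset.sum_add_distrib, Finset.sum_neg_distrib] at havg
  have hform : ∑ T ∈ (Finset.univ : Finset ι).powerset, B G (z T) (z T) ≤ 0 := by
    simp only [z]
    rw [moment_form]
    have : ∑ s : ι, B G (hv s) (hv s) ≤ 0 := by
      apply Finset.sum_nonpos
      intro s _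
      simp only [hv, map_sub, LinearMap.sub_apply, B_e_e, A_self]
      have h1 := A_nonneg G (g s) (h s)
      have h2 := A_nonneg G (h s) (g s)
      linarith
    have hp : (0 : ℝ) ≤ 2 ^ (Finset.univ : Finset ι).card := by positivity
    exact mul_nonpos_of_nonneg_of_nonpos hp this
  have habs : ∀ a, (5 / 9 : ℝ) * 2 ^ (Fintype.card ι) * Real.sqrt (gap G g f a (τ a)) ≤
      ∑ T ∈ (Finset.univ : Finset ι).powerset, |F T a - F T (τ a)| := by
    intro a
    have h1 : ∀ T, F T a - F T (τ a)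
        = L Finset.univ T (fun s => A G (g s) (f a) - A G (g s) (f (τ a))) := by
      intro T
      simp only [F, z]
      rw [B_Z_left, B_Z_left]
      unfold L
      rw [← Finset.sum_sub_distrib]
      refine Finset.sum_congr rfl fun s _ => ?_
      simp only [hv, map_sub, LinearMap.sub_apply, B_e_e]
      have h2 : A G (h s) (f a) = 0 := by simp [A, hind2 s a]
      have h3 : A G (h s) (f (τ a)) = 0 := by simp [A, hind2 s (τ a)]
      rw [h2, h3]; ring
    simp only [h1]
    have := khinchine (Finset.univ : Finset ι)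
      (fun s => A G (g s) (f a) - A G (g s) (f (τ a)))
    rw [Finset.card_univ] at this
    exact this
  have hswap : ∑ T ∈ (Finset.univ : Finset ι).powerset, ∑ a, |F T a - F T (τ a)|
      = ∑ a, ∑ T ∈ (Finset.univ : Finset ι).powerset, |F T a - F T (τ a)| := Finset.sum_comm
  rw [hswap] at havg
  have h7 : ∑ a, (5 / 9 : ℝ) * 2 ^ (Fintype.card ι) * Real.sqrt (gap G g f a (τ a)) ≤
      2 ^ (Fintype.card ι) * d := by
    calc _ ≤ ∑ a, ∑ T ∈ (Finset.univ : Finset ι).powerset, |F T a - F T (τ a)| :=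
          Finset.sum_le_sum fun a _ => habs a
      _ ≤ _ := by linarith
  rw [← Finset.mul_sum] at h7
  have hp : (0 : ℝ) < 2 ^ (Fintype.card ι) := by positivity
  have h8 : 2 ^ (Fintype.card ι) * ((5 / 9 : ℝ) * ∑ a, Real.sqrt (gap G g f a (τ a)))
      ≤ 2 ^ (Fintype.card ι) * d := by
    calc _ = (5 / 9 : ℝ) * 2 ^ (Fintype.card ι) * ∑ a, Real.sqrt (gap G g f a (τ a)) := by ring
      _ ≤ _ := h7
  exact le_of_mul_le_mul_left h8 hp

/-- Some vertex of the independent set has, on average, a neighbourhood very close to the others. -/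
lemma hub {G : SimpleGraph V} {d : ℝ} (hS : Sur G d) {ι κ : Type} [Fintype ι] [Fintype κ]
    [AddCommGroup κ]
    (g h : ι → V) (f : κ → V) (hinj : Function.Injective (Sum.elim g (Sum.elim h f)))
    (hind1 : ∀ a b, ¬ G.Adj (f a) (f b)) (hind2 : ∀ s a, ¬ G.Adj (h s) (f a)) :
    ∃ a : κ, ∑ b, Real.sqrt (gap G g f a b) ≤ 9 / 5 * d := by
  by_contra hcon
  push Not at hcon
  have h1 : ∀ s : κ, ∑ a, Real.sqrt (gap G g f a (s - a)) ≤ 9 / 5 * d := by
    intro s
    have := fine hS g h f hinj hind1 hind2 (fun a => s - a) (fun a => by abel)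
    linarith
  have h2 : ∑ s : κ, ∑ a, Real.sqrt (gap G g f a (s - a)) = ∑ a, ∑ b, Real.sqrt (gap G g f a b) := by
    rw [Finset.sum_comm]
    refine Finset.sum_congr rfl fun a _ => ?_
    exact (Equiv.subRight a).sum_comp (fun b => Real.sqrt (gap G g f a b))
  have h3 : ∑ s : κ, ∑ a, Real.sqrt (gap G g f a (s - a)) ≤ ∑ s : κ, 9 / 5 * d :=
    Finset.sum_le_sum fun s _ => h1 s
  have h4 : ∑ s : κ, 9 / 5 * d < ∑ a, ∑ b, Real.sqrt (gap G g f a b) := by
    apply Finset.sum_lt_sum_of_nonempty Finset.univ_nonempty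
    intro a _
    exact hcon a
  rw [← h2] at h4
  exact absurd h3 (not_le.mpr h4)

/-- Two disjoint sets of the same size, the second independent. -/
lemma coarse {G : SimpleGraph V} {d : ℝ} (hS : Sur G d) (X Y : Finset V) (hd : Disjoint X Y)
    (hc : X.card = Y.card) (hind : ∀ u ∈ Y, ∀ v ∈ Y, ¬ G.Adj u v) :
    2 * ∑ u ∈ X, ∑ v ∈ Y, A G u v - ∑ u ∈ X, ∑ v ∈ X, A G u v ≤ d := by
  let x : V → ℝ := (∑ u ∈ X, e u) - ∑ v ∈ Y, e v
  have hval : ∀ v, x v = (if v ∈ X then 1 else 0) - (if v ∈ Y then 1 else 0) := by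
    intro v
    simp only [x, Pi.sub_apply, Finset.sum_apply, e_apply]
    congr 1 <;> simp
  have hPA : PA x := by
    intro v
    rw [hval]
    by_cases h1 : v ∈ X <;> by_cases h2 : v ∈ Y
    · exact absurd h2 (Finset.disjoint_left.mp hd h1)
    · simp [h1, h2]
    · simp [h1, h2]
    · simp [h1, h2]
  have hsum : ∑ v, x v = 0 := by
    simp only [hval, Finset.sum_sub_distrib]
    simp [hc]
  have hle := hS x hPA hsum
  have hB : B G x x = ∑ u ∈ X, ∑ v ∈ X, A G u v - 2 * ∑ u ∈ X, ∑ v ∈ Y, A G u v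
      + ∑ u ∈ Y, ∑ v ∈ Y, A G u v := by
    simp only [x, map_sub, LinearMap.sub_apply, map_sum, LinearMap.sum_apply, B_e_e,
      Finset.sum_sub_distrib]
    have h1 : ∑ x ∈ Y, ∑ x_1 ∈ X, A G x_1 x = ∑ u ∈ X, ∑ v ∈ Y, A G u v := Finset.sum_comm
    have h2 : ∑ x ∈ X, ∑ x_1 ∈ Y, A G x_1 x = ∑ u ∈ X, ∑ v ∈ Y, A G u v := by
      refine Finset.sum_congr rfl fun u _ => Finset.sum_congr rfl fun v _ => A_comm G _ _
    have h3 : ∑ x ∈ X, ∑ x_1 ∈ X, A G x_1 x = ∑ u ∈ X, ∑ v ∈ X, A G u v := Finset.sum_comm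
    have h4 : ∑ x ∈ Y, ∑ x_1 ∈ Y, A G x_1 x = ∑ u ∈ Y, ∑ v ∈ Y, A G u v := Finset.sum_comm
    rw [h1, h2, h3, h4]; ring
  have hYY : ∑ u ∈ Y, ∑ v ∈ Y, A G u v = 0 := by
    apply Finset.sum_eq_zero; intro u hu
    apply Finset.sum_eq_zero; intro v hv
    simp [A, hind u hu v hv]
  rw [hB, hYY] at hle
  linarith

end Pool.Agent.Lib.MP_279640_co
end

section

set_option autoImplicit false
set_option linter.unusedSectionVars false
open scoped Classical
open Finset

namespace Pool.Agent.Lib.MP_279640_co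

/-- Averaging over subsets of prescribed size. -/
lemma exists_sub {α : Type} (f : α → ℝ) : ∀ (k : ℕ) (T : Finset α), T.card = k → ∀ t ≤ T.card,
    ∃ T0 ⊆ T, T0.card = t ∧ (t : ℝ) * ∑ a ∈ T, f a ≤ (T.card : ℝ) * ∑ a ∈ T0, f a := by
  intro k
  induction k with
  | zero =>
    intro T hT t ht
    have hT0 : T = ∅ := Finset.card_eq_zero.mp hT
    subst hT0
    have : t = 0 := by simpa using ht
    subst this
    exact ⟨∅, by simp, by simp, by simp⟩
  | succ k ih =>
    intro T hT t ht
    rcases Nat.lt_or_ge t T.card with hlt | hge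
    · have hne : T.Nonempty := Finset.card_pos.mp (by omega)
      obtain ⟨a, haT, hmin⟩ := Finset.exists_min_image T f hne
      have hc : (T.erase a).card = k := by rw [Finset.card_erase_of_mem haT]; omega
      obtain ⟨T0, hT0, hcard, hle⟩ := ih (T.erase a) hc t (by omega)
      refine ⟨T0, hT0.trans (Finset.erase_subset a T), hcard, ?_⟩
      have hsum : ∑ x ∈ T, f x = ∑ x ∈ T.erase a, f x + f a :=
        (Finset.sum_erase_add T f haT).symm
      have hmin' : (k : ℝ) * f a ≤ ∑ x ∈ T.erase a, f x := by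
        have h1 : ∑ x ∈ T.erase a, f a ≤ ∑ x ∈ T.erase a, f x :=
          Finset.sum_le_sum fun x hx => hmin x (Finset.mem_of_mem_erase hx)
        rw [Finset.sum_const, hc, nsmul_eq_mul] at h1
        exact h1
      rw [hc] at hle
      rw [hT, hsum]
      rcases Nat.eq_zero_or_pos k with hk | hk
      · subst hk
        have ht0 : t = 0 := by omega
        subst ht0
        have hT00 : T0 = ∅ := Finset.card_eq_zero.mp hcard
        subst hT00
        simp
      · have hkr : (0 : ℝ) < k := by exact_mod_cast hk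
        have ht0 : (0 : ℝ) ≤ t := by positivity
        have h2 : (k : ℝ) * ((t : ℝ) * (∑ x ∈ T.erase a, f x + f a)) ≤
            (k : ℝ) * (((k + 1 : ℕ) : ℝ) * ∑ x ∈ T0, f x) := by
          push_cast
          have h3 : (t : ℝ) * ((k : ℝ) * f a) ≤ (t : ℝ) * ∑ x ∈ T.erase a, f x :=
            mul_le_mul_of_nonneg_left hmin' ht0
          have h4 := mul_le_mul_of_nonneg_left hle (by positivity : (0 : ℝ) ≤ (k : ℝ) + 1)
          nlinarith
        exact le_of_mul_le_mul_left h2 hkr
    · have : t = T.card := le_antisymm ht hge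
      exact ⟨T, Finset.Subset.refl T, this.symm, by rw [this]⟩

variable {V : Type} [Fintype V]

lemma A_sq (G : SimpleGraph V) (u v w : V) :
    |A G u v - A G u w| = (A G u v - A G u w) ^ 2 := by
  rcases A_cases G u v with h | h <;> rcases A_cases G u w with h' | h' <;> rw [h, h'] <;> norm_num

lemma sum_A_le (G : SimpleGraph V) (X Y : Finset V) :
    ∑ u ∈ X, ∑ v ∈ Y, A G u v ≤ (X.card : ℝ) * Y.card := by
  calc ∑ u ∈ X, ∑ v ∈ Y, A G u v ≤ ∑ u ∈ X, ∑ v ∈ Y, (1 : ℝ) :=
        Finset.sum_le_sum fun u _ => Finset.sum_le_sum fun v _ => A_le_one G u v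
    _ = _ := by simp

lemma sum_A_nonneg (G : SimpleGraph V) (X Y : Finset V) :
    0 ≤ ∑ u ∈ X, ∑ v ∈ Y, A G u v :=
  Finset.sum_nonneg fun u _ => Finset.sum_nonneg fun v _ => A_nonneg G u v

/-- The hub step in terms of finite sets: `S0`, `I0`, `I1` disjoint, `|S0| = |I0|`,
`I1` independent, no edges between `I0` and `I1`. -/
lemma hub_sets {G : SimpleGraph V} {d : ℝ} (hS : Sur G d) (S0 I0 I1 : Finset V)
    (h01 : Disjoint S0 I0) (h02 : Disjoint S0 I1) (h12 : Disjoint I0 I1)
    (hcard : S0.card = I0.card) (hpos : 0 < I1.card)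
    (hind1 : ∀ u ∈ I1, ∀ v ∈ I1, ¬ G.Adj u v) (hind2 : ∀ u ∈ I0, ∀ v ∈ I1, ¬ G.Adj u v)
    (hSd : (S0.card : ℝ) ≤ d) :
    ∃ (X : Finset V) (γ : ℝ), X ⊆ S0 ∧ 0 ≤ γ ∧ γ ≤ Real.sqrt d * (9 / 5 * d) ∧
      ∑ u ∈ S0, ∑ v ∈ I1, A G u v ≤ (X.card : ℝ) * I1.card + γ ∧
      (X.card : ℝ) * I1.card - γ ≤ ∑ u ∈ X, ∑ v ∈ I1, A G u v := by
  -- enumerations
  let eS : S0 ≃ Fin S0.card := S0.equivFin
  let eI : I0 ≃ Fin S0.card := I0.equivFinOfCardEq hcard.symm
  have : NeZero I1.card := ⟨hpos.ne'⟩
  have hck : Fintype.card I1 = Fintype.card (ZMod I1.card) := by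
    rw [ZMod.card, Fintype.card_coe]
  let eK : I1 ≃ ZMod I1.card := Fintype.equivOfCardEq hck
  let g : Fin S0.card → V := fun i => (eS.symm i).1
  let h : Fin S0.card → V := fun i => (eI.symm i).1
  let f : ZMod I1.card → V := fun i => (eK.symm i).1
  have hg : ∀ i, g i ∈ S0 := fun i => (eS.symm i).2
  have hh : ∀ i, h i ∈ I0 := fun i => (eI.symm i).2
  have hf : ∀ i, f i ∈ I1 := fun i => (eK.symm i).2
  have hginj : Function.Injective g := fun i j hij => eS.symm.injective (Subtype.ext hij)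
  have hhinj : Function.Injective h := fun i j hij => eI.symm.injective (Subtype.ext hij)
  have hfinj : Function.Injective f := fun i j hij => eK.symm.injective (Subtype.ext hij)
  have hinj : Function.Injective (Sum.elim g (Sum.elim h f)) := by
    intro a b hab
    rcases a with a | a | a <;> rcases b with b | b | b <;>
      simp only [Sum.elim_inl, Sum.elim_inr] at hab
    · rw [hginj hab]
    · exact absurd (hab ▸ hh b) (Finset.disjoint_left.mp h01 (hg a))
    · exact absurd (hab ▸ hf b) (Finset.disjoint_left.mp h02 (hg a))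
    · exact absurd (hab ▸ hh a) (Finset.disjoint_left.mp h01 (hg b))
    · rw [hhinj hab]
    · exact absurd (hab ▸ hf b) (Finset.disjoint_left.mp h12 (hh a))
    · exact absurd (hab ▸ hf a) (Finset.disjoint_left.mp h02 (hg b))
    · exact absurd (hab ▸ hf a) (Finset.disjoint_left.mp h12 (hh b))
    · rw [hfinj hab]
  obtain ⟨a, ha⟩ := hub hS g h f hinj (fun a b => hind1 _ (hf a) _ (hf b))
    (fun s a => hind2 _ (hh s) _ (hf a))
  -- sums over enumerations
  have sumg : ∀ F : V → ℝ, ∑ i, F (g i) = ∑ v ∈ S0, F v := by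
    intro F
    rw [← Finset.sum_coe_sort S0 F]
    exact eS.symm.sum_comp (fun v : S0 => F v)
  have sumf : ∀ F : V → ℝ, ∑ i, F (f i) = ∑ v ∈ I1, F v := by
    intro F
    rw [← Finset.sum_coe_sort I1 F]
    exact eK.symm.sum_comp (fun v : I1 => F v)
  let γ := ∑ b, gap G g f a b
  have hgap0 : ∀ b, 0 ≤ gap G g f a b := fun b => Finset.sum_nonneg fun s _ => sq_nonneg _
  have hgapd : ∀ b, gap G g f a b ≤ d := by
    intro b
    refine le_trans ?_ hSd
    unfold gap
    calc ∑ s, (A G (g s) (f a) - A G (g s) (f b)) ^ 2 ≤ ∑ s : Fin S0.card, (1 : ℝ) := by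
          apply Finset.sum_le_sum
          intro s _
          rcases A_cases G (g s) (f a) with h' | h' <;>
            rcases A_cases G (g s) (f b) with h'' | h'' <;> rw [h', h''] <;> norm_num
      _ = S0.card := by simp
  have hd0 : 0 ≤ d := le_trans (by positivity) hSd
  have hγ : γ ≤ Real.sqrt d * (9 / 5 * d) := by
    calc γ = ∑ b, Real.sqrt (gap G g f a b) * Real.sqrt (gap G g f a b) := by
          refine Finset.sum_congr rfl fun b _ => ?_
          rw [Real.mul_self_sqrt (hgap0 b)]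
      _ ≤ ∑ b, Real.sqrt d * Real.sqrt (gap G g f a b) := by
          apply Finset.sum_le_sum
          intro b _
          exact mul_le_mul_of_nonneg_right (Real.sqrt_le_sqrt (hgapd b)) (Real.sqrt_nonneg _)
      _ = Real.sqrt d * ∑ b, Real.sqrt (gap G g f a b) := by rw [Finset.mul_sum]
      _ ≤ _ := mul_le_mul_of_nonneg_left ha (Real.sqrt_nonneg _)
  let X : Finset V := S0.filter (fun u => G.Adj u (f a))
  have hXsub : X ⊆ S0 := Finset.filter_subset _ _
  have hXcard : (X.card : ℝ) = ∑ u ∈ S0, A G u (f a) := by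
    simp only [X, A]
    rw [Finset.card_filter]
    push_cast
    rfl
  have hdiff : ∀ b, ∑ u ∈ S0, (A G u (f a) - A G u (f b)) ^ 2 = gap G g f a b := by
    intro b
    unfold gap
    exact (sumg (fun u => (A G u (f a) - A G u (f b)) ^ 2)).symm
  refine ⟨X, γ, hXsub, Finset.sum_nonneg fun b _ => hgap0 b, hγ, ?_, ?_⟩
  · -- upper estimate
    rw [Finset.sum_comm, ← sumf (fun v => ∑ u ∈ S0, A G u v)]
    calc ∑ b, ∑ u ∈ S0, A G u (f b) ≤ ∑ b : ZMod I1.card, ((X.card : ℝ) + gap G g f a b) := by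
          apply Finset.sum_le_sum
          intro b _
          rw [← hdiff b, hXcard, ← Finset.sum_add_distrib]
          apply Finset.sum_le_sum
          intro u _
          have h1 := A_sq G u (f a) (f b)
          have h2 := neg_abs_le (A G u (f a) - A G u (f b))
          rw [h1] at h2
          linarith
      _ = (X.card : ℝ) * I1.card + γ := by
          rw [Finset.sum_add_distrib]
          simp [ZMod.card, mul_comm, γ]
  · -- lower estimate
    have hsw : ∑ u ∈ X, ∑ v ∈ I1, A G u v = ∑ b, ∑ u ∈ X, A G u (f b) := by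
      rw [Finset.sum_comm, sumf (fun v => ∑ u ∈ X, A G u v)]
    rw [hsw]
    have : (X.card : ℝ) * I1.card - γ = ∑ b : ZMod I1.card, ((X.card : ℝ) - gap G g f a b) := by
      rw [Finset.sum_sub_distrib]
      simp [ZMod.card, mul_comm, γ]
    rw [this]
    apply Finset.sum_le_sum
    intro b _
    have h1 : ∑ u ∈ X, (A G u (f a) - A G u (f b)) ^ 2 ≤ gap G g f a b := by
      rw [← hdiff b]
      exact Finset.sum_le_sum_of_subset_of_nonneg hXsub fun u _ _ => sq_nonneg _
    have h2 : (X.card : ℝ) = ∑ u ∈ X, A G u (f a) := by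
      rw [Finset.card_eq_sum_ones]
      push_cast
      refine Finset.sum_congr rfl fun u hu => ?_
      have : G.Adj u (f a) := (Finset.mem_filter.mp hu).2
      simp [A, this]
    rw [h2]
    have h3 : ∑ u ∈ X, A G u (f a) - ∑ u ∈ X, (A G u (f a) - A G u (f b)) ^ 2
        ≤ ∑ u ∈ X, A G u (f b) := by
      rw [← Finset.sum_sub_distrib]
      apply Finset.sum_le_sum
      intro u _
      have h4 := A_sq G u (f a) (f b)
      have h5 := le_abs_self (A G u (f a) - A G u (f b))
      rw [h4] at h5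
      linarith
    linarith

lemma ar1 {η q : ℝ} (hη0 : 0 < η) (hη1 : η ≤ 1) (hq0 : 0 < q) (h1 : 1 ≤ q) :
    η ^ 2 * q ≤ η * q ^ 2 := by
  have h2 : η * q ≤ 1 * (q * q) := by
    have : η * q ≤ 1 * q := mul_le_mul_of_nonneg_right hη1 hq0.le
    nlinarith
  have h3 : η * (η * q) ≤ η * (q * q) := mul_le_mul_of_nonneg_left (by linarith) hη0.le
  calc η ^ 2 * q = η * (η * q) := by ring
    _ ≤ η * (q * q) := h3
    _ = η * q ^ 2 := by ring

lemma ar2 {η m e SS : ℝ} (hη0 : 0 < η) (hη1 : η ≤ 1) (hm : 0 < m)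
    (h : SS + 2 * e = 2 * m) (hSS : SS ≤ (1 - η) ^ 2 * (2 * m)) : η * m ≤ e := by
  have h1 : 0 ≤ η * (1 - η) * m := mul_nonneg (mul_nonneg hη0.le (by linarith)) hm.le
  have h2 : (1 - η) ^ 2 * (2 * m) = 2 * m - 2 * (η * m) - 2 * (η * (1 - η) * m) := by ring
  linarith

lemma ar3 {η q I : ℝ} (hq0 : 0 < q)
    (h : η * q ^ 4 ≤ (142 / 100 * q ^ 2) * I) (hI : 0 ≤ I) : η * q ^ 2 / 2 ≤ I := by
  have hq2 : 0 < q ^ 2 := by positivity
  have h3 : q ^ 2 * (η * q ^ 2) ≤ q ^ 2 * (142 / 100 * I) := by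
    calc q ^ 2 * (η * q ^ 2) = η * q ^ 4 := by ring
      _ ≤ (142 / 100 * q ^ 2) * I := h
      _ = q ^ 2 * (142 / 100 * I) := by ring
  have h4 := le_of_mul_le_mul_left h3 hq2
  linarith

lemma ar4 {d q : ℝ} (hq0 : 0 < q) (hd0 : 0 ≤ d) (h1 : d ≤ 142 / 100 * q ^ 2) :
    Real.sqrt d * (9 / 5 * d) ≤ 4 * q ^ 3 := by
  have h2 : Real.sqrt d ≤ 12 / 10 * q := by
    rw [show (12 / 10 * q : ℝ) = Real.sqrt ((12 / 10 * q) ^ 2) from
      (Real.sqrt_sq (by positivity)).symm]
    apply Real.sqrt_le_sqrt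
    nlinarith [pow_pos hq0 2]
  calc Real.sqrt d * (9 / 5 * d) ≤ (12 / 10 * q) * (9 / 5 * (142 / 100 * q ^ 2)) := by
        apply mul_le_mul h2 (by linarith) (by linarith) (by positivity)
    _ = (12 / 10 * (9 / 5) * (142 / 100)) * q ^ 3 := by ring
    _ ≤ 4 * q ^ 3 := by
        apply mul_le_mul_of_nonneg_right (by norm_num) (by positivity)

lemma ar5 {η q : ℝ} (hq0 : 0 < q) (hqη : 384 ≤ η ^ 2 * q) :
    4 * q ^ 3 ≤ η ^ 2 * q ^ 4 / 96 := by
  have : 384 * q ^ 3 ≤ (η ^ 2 * q) * q ^ 3 :=
    mul_le_mul_of_nonneg_right hqη (by positivity)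
  calc 4 * q ^ 3 = (384 * q ^ 3) / 96 := by ring
    _ ≤ ((η ^ 2 * q) * q ^ 3) / 96 := by linarith
    _ = η ^ 2 * q ^ 4 / 96 := by ring

lemma ar6 {η m e1 e' i S s0 eSI : ℝ} (hm0 : 0 < m) (hη0 : 0 < η)
    (hS0 : 0 < S) (hi : 0 < i)
    (h1 : s0 * eSI ≤ S * e1) (h2 : (i - s0) * e1 ≤ i * e') (h4 : 2 * s0 ≤ i)
    (he1 : 0 ≤ e1) (he' : 0 ≤ e') (heSI : η * m ≤ eSI) (hub : eSI ≤ S * i)
    (hS2 : S ^ 2 ≤ 2 * m) (hη1 : η ≤ 1)
    (hcase : s0 = S ∨ i ≤ 3 * s0) : η ^ 2 * m / 12 ≤ e' := by
  have heSI0 : 0 < eSI := lt_of_lt_of_le (by positivity) heSI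
  have h5 : e1 ≤ 2 * e' := by
    have h6 : i / 2 * e1 ≤ i * e' :=
      le_trans (mul_le_mul_of_nonneg_right (by linarith) he1) h2
    have h7 : i * e1 ≤ i * (2 * e') := by linarith
    exact le_of_mul_le_mul_left h7 hi
  have h8 : s0 * eSI ≤ S * (2 * e') := le_trans h1 (mul_le_mul_of_nonneg_left h5 hS0.le)
  rcases hcase with hc | hc
  · rw [hc] at h8
    have h9 := le_of_mul_le_mul_left h8 hS0
    have h10 : η * (η * m) ≤ 1 * (η * m) := mul_le_mul_of_nonneg_right hη1 (by positivity)
    have h11 : η ^ 2 * m = η * (η * m) := by ring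
    have h12 : 0 < η * m := by positivity
    linarith
  · have h10 : i * eSI ≤ 6 * (S * e') := by
      have : i * eSI ≤ 3 * s0 * eSI := mul_le_mul_of_nonneg_right hc heSI0.le
      linarith
    have h11 : eSI * eSI ≤ 6 * S ^ 2 * e' := by
      calc eSI * eSI ≤ (S * i) * eSI := mul_le_mul_of_nonneg_right hub heSI0.le
        _ = S * (i * eSI) := by ring
        _ ≤ S * (6 * (S * e')) := mul_le_mul_of_nonneg_left h10 hS0.le
        _ = _ := by ring
    have h13 : (η * m) ^ 2 ≤ 12 * m * e' := by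
      calc (η * m) ^ 2 ≤ eSI ^ 2 := pow_le_pow_left₀ (by positivity) heSI 2
        _ = eSI * eSI := by ring
        _ ≤ 6 * S ^ 2 * e' := h11
        _ ≤ 6 * (2 * m) * e' := by
            apply mul_le_mul_of_nonneg_right _ he'
            linarith
        _ = _ := by ring
    have h14 : m * (η ^ 2 * m / 12) ≤ m * e' := by
      calc m * (η ^ 2 * m / 12) = (η * m) ^ 2 / 12 := by ring
        _ ≤ 12 * m * e' / 12 := by linarith
        _ = m * e' := by ring
    exact le_of_mul_le_mul_left h14 hm0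

lemma ar7 {η q a κ : ℝ} (hη0 : 0 < η) (hq0 : 0 < q) (ha0 : 0 ≤ a)
    (haκ : η ^ 2 * q ^ 4 / 24 ≤ a * κ) (hκn : κ ≤ η ^ 2 / 50 * q ^ 3) : 50 / 24 * q ≤ a := by
  have h1 : η ^ 2 * q ^ 4 / 24 ≤ a * (η ^ 2 / 50 * q ^ 3) :=
    le_trans haκ (mul_le_mul_of_nonneg_left hκn ha0)
  have h2 : (η ^ 2 / 50 * q ^ 3) * (50 / 24 * q) ≤ (η ^ 2 / 50 * q ^ 3) * a := by
    calc (η ^ 2 / 50 * q ^ 3) * (50 / 24 * q) = η ^ 2 * q ^ 4 / 24 := by ring
      _ ≤ _ := by linarith
  exact le_of_mul_le_mul_left h2 (by positivity)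

/-- The core lower bound. -/
theorem lower_core {G : SimpleGraph V} {d : ℝ} (hS : Sur G d) (η q m : ℝ) (hη0 : 0 < η)
    (hη1 : η ≤ 1) (hm : m = q ^ 4) (hedge : ∑ u, ∑ v, A G u v = 2 * m)
    (hq : 384 / η ^ 2 ≤ q) (hn : (Fintype.card V : ℝ) ≤ η ^ 2 / 50 * q ^ 3) :
    (1 - η) * Real.sqrt (2 * m) ≤ d := by
  by_contra hcon
  push Not at hcon
  have hη2 : 0 < η ^ 2 := by positivity
  have hη21 : η ^ 2 ≤ 1 := pow_le_one₀ hη0.le hη1
  have hqη : 384 ≤ η ^ 2 * q := by
    rw [div_le_iff₀ hη2] at hq; linarith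
  have hq384 : 384 ≤ q := by
    refine le_trans ?_ hq
    rw [le_div_iff₀ hη2]; linarith
  have hq0 : 0 < q := by linarith
  have hm0 : 0 < m := by rw [hm]; positivity
  set r := Real.sqrt (2 * m) with hr
  have hr0 : 0 < r := Real.sqrt_pos.mpr (by linarith)
  have hr2 : r ^ 2 = 2 * m := Real.sq_sqrt (by linarith)
  have hrq : r ≤ 142 / 100 * q ^ 2 := by
    rw [hr, Real.sqrt_le_iff]
    refine ⟨by positivity, ?_⟩
    rw [hm]
    have : (142 / 100 * q ^ 2) ^ 2 = (142 / 100) ^ 2 * q ^ 4 := by ring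
    rw [this]
    exact mul_le_mul_of_nonneg_right (by norm_num) (by positivity)
  obtain ⟨S, hSd, hind⟩ := matching_bound hS
  have hd0 : 0 ≤ d := le_trans (by positivity) hSd
  have hdr : d < r := by
    refine lt_of_lt_of_le hcon ?_
    have := mul_nonneg hη0.le hr0.le
    linarith
  -- edges between S and its complement
  set I : Finset V := Sᶜ with hI
  have hIind : ∀ u ∈ I, ∀ v ∈ I, ¬ G.Adj u v := by
    intro u hu v hv
    exact hind u (by simpa [hI] using hu) v (by simpa [hI] using hv)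
  set eSI := ∑ u ∈ S, ∑ v ∈ I, A G u v with heSI
  have hsplit : ∑ u, ∑ v, A G u v = ∑ u ∈ S, ∑ v ∈ S, A G u v + 2 * eSI := by
    have h1 : ∀ F : V → ℝ, ∑ v, F v = ∑ v ∈ S, F v + ∑ v ∈ I, F v := fun F =>
      (Finset.sum_add_sum_compl S F).symm
    rw [h1 (fun u => ∑ v, A G u v)]
    have h2 : ∑ u ∈ S, ∑ v, A G u v = ∑ u ∈ S, ∑ v ∈ S, A G u v + eSI := by
      rw [heSI, ← Finset.sum_add_distrib]
      exact Finset.sum_congr rfl fun u _ => h1 _
    have h3 : ∑ u ∈ I, ∑ v, A G u v = eSI + ∑ u ∈ I, ∑ v ∈ I, A G u v := by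
      have : ∑ u ∈ I, ∑ v, A G u v = ∑ u ∈ I, ∑ v ∈ S, A G u v + ∑ u ∈ I, ∑ v ∈ I, A G u v := by
        rw [← Finset.sum_add_distrib]
        exact Finset.sum_congr rfl fun u _ => h1 _
      rw [this, heSI, Finset.sum_comm]
      congr 1
      refine Finset.sum_congr rfl fun u _ => Finset.sum_congr rfl fun v _ => A_comm G _ _
    have h4 : ∑ u ∈ I, ∑ v ∈ I, A G u v = 0 := by
      apply Finset.sum_eq_zero; intro u hu
      apply Finset.sum_eq_zero; intro v hv
      simp [A, hIind u hu v hv]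
    rw [h2, h3, h4]; ring
  have hSS : ∑ u ∈ S, ∑ v ∈ S, A G u v ≤ (1 - η) ^ 2 * (2 * m) := by
    refine le_trans (sum_A_le G S S) ?_
    have h1 : (S.card : ℝ) ≤ (1 - η) * r := by linarith
    calc (S.card : ℝ) * S.card ≤ ((1 - η) * r) * ((1 - η) * r) := by
          apply mul_le_mul h1 h1 (by positivity)
          exact le_trans (by positivity) h1
      _ = (1 - η) ^ 2 * (2 * m) := by rw [← hr2]; ring
  have heSI_lb : η * m ≤ eSI := ar2 hη0 hη1 hm0 (by rw [← hsplit]; exact hedge) hSS
  have heSI_pos : 0 < eSI := lt_of_lt_of_le (by positivity) heSI_lb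
  have heSI_ub : eSI ≤ (S.card : ℝ) * I.card := sum_A_le G S I
  have hScard : 0 < S.card := by
    rcases Nat.eq_zero_or_pos S.card with h | h
    · rw [h] at heSI_ub; simp at heSI_ub; linarith
    · exact h
  have hScard' : (0 : ℝ) < S.card := by exact_mod_cast hScard
  have hSr : (S.card : ℝ) ≤ r := by linarith
  -- size of I
  have hI_lb : η * q ^ 2 / 2 ≤ (I.card : ℝ) := by
    have h1 : η * m ≤ r * I.card := by
      calc η * m ≤ (S.card : ℝ) * I.card := le_trans heSI_lb heSI_ub
        _ ≤ r * I.card := mul_le_mul_of_nonneg_right hSr (by positivity)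
    have h2 : η * q ^ 4 ≤ (142 / 100 * q ^ 2) * I.card := by
      rw [← hm]
      exact le_trans h1 (mul_le_mul_of_nonneg_right hrq (by positivity))
    exact ar3 hq0 h2 (by positivity)
  have hηq : η ^ 2 * q ≤ η * q ^ 2 := ar1 hη0 hη1 hq0 (by linarith)
  have hI2' : (2 : ℝ) ≤ I.card := by linarith
  have hI2 : 2 ≤ I.card := by exact_mod_cast hI2'
  -- choose S0
  set s0 := min S.card (I.card / 2) with hs0
  have hs0S : s0 ≤ S.card := min_le_left _ _
  have hs0I : s0 ≤ I.card / 2 := min_le_right _ _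
  have hs0I' : 2 * s0 ≤ I.card := by omega
  have hs0le : s0 ≤ I.card := by omega
  obtain ⟨S0, hS0sub, hS0card, hS0sum⟩ :=
    exists_sub (fun u => ∑ v ∈ I, A G u v) _ S rfl s0 hs0S
  obtain ⟨I1, hI1sub, hI1card, hI1sum⟩ :=
    exists_sub (fun v => ∑ u ∈ S0, A G u v) _ I rfl (I.card - s0) (Nat.sub_le _ _)
  set I0 : Finset V := I \ I1 with hI0
  have hI0card : I0.card = s0 := by
    rw [hI0, Finset.card_sdiff_of_subset hI1sub, hI1card]; omega
  have hdSI : Disjoint S I := by rw [hI]; exact disjoint_compl_right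
  have h01 : Disjoint S0 I0 := by
    apply Finset.disjoint_of_subset_left hS0sub
    exact Finset.disjoint_of_subset_right Finset.sdiff_subset hdSI
  have h02 : Disjoint S0 I1 :=
    Finset.disjoint_of_subset_left hS0sub (Finset.disjoint_of_subset_right hI1sub hdSI)
  have h12 : Disjoint I0 I1 := by rw [hI0]; exact Finset.sdiff_disjoint
  have hI1pos : 0 < I1.card := by omega
  have hle01 : S0.card ≤ I1.card := by omega
  obtain ⟨X, γ, hXsub, hγ0, hγ, hup, hlow⟩ := hub_sets hS S0 I0 I1 h01 h02 h12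
    (by rw [hS0card, hI0card]) hI1pos
    (fun u hu v hv => hIind u (hI1sub hu) v (hI1sub hv))
    (fun u hu v hv => hIind u (Finset.sdiff_subset hu) v (hI1sub hv))
    (by
      refine le_trans ?_ hSd
      have : S0.card ≤ S.card := by rw [hS0card]; exact hs0S
      exact_mod_cast this)
  -- bound gamma
  have hγq : γ ≤ 4 * q ^ 3 := le_trans hγ (ar4 hq0 hd0 (by linarith))
  -- lower bound for the number of edges between S0 and I1
  set e' := ∑ u ∈ S0, ∑ v ∈ I1, A G u v with he'
  have he'_lb : η ^ 2 * m / 12 ≤ e' := by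
    have h1 : (s0 : ℝ) * eSI ≤ (S.card : ℝ) * ∑ u ∈ S0, ∑ v ∈ I, A G u v := hS0sum
    have h2 : ((I.card - s0 : ℕ) : ℝ) * ∑ u ∈ S0, ∑ v ∈ I, A G u v ≤ (I.card : ℝ) * e' := by
      have h3 := hI1sum
      rw [Finset.sum_comm (s := I), Finset.sum_comm (s := I1)] at h3
      exact h3
    have h3 : ((I.card - s0 : ℕ) : ℝ) = (I.card : ℝ) - s0 := by
      rw [Nat.cast_sub hs0le]
    rw [h3] at h2
    have hIpos : (0 : ℝ) < I.card := by linarith
    have h4 : (2 : ℝ) * s0 ≤ I.card := by exact_mod_cast hs0I'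
    have h12' : (S.card : ℝ) ^ 2 ≤ 2 * m := by
      rw [← hr2]; exact pow_le_pow_left₀ hScard'.le hSr 2
    refine ar6 hm0 hη0 hScard' hIpos h1 h2 h4 (sum_A_nonneg G S0 I)
      (sum_A_nonneg G S0 I1) heSI_lb heSI_ub h12' hη1 ?_
    rcases le_total S.card (I.card / 2) with hc | hc
    · left
      have : s0 = S.card := min_eq_left hc
      rw [this]
    · right
      have hs : s0 = I.card / 2 := min_eq_right hc
      have : I.card ≤ 3 * s0 := by omega
      exact_mod_cast this
  -- the hub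
  set a : ℝ := (X.card : ℝ) with ha
  set κ : ℝ := (I1.card : ℝ) with hκ
  have hκpos : 0 < κ := by rw [hκ]; exact_mod_cast hI1pos
  have ha0 : 0 ≤ a := by rw [ha]; positivity
  have h96 : 4 * q ^ 3 ≤ η ^ 2 * q ^ 4 / 96 := ar5 hq0 hqη
  have hpos4 : 0 < η ^ 2 * q ^ 4 := by positivity
  have haκ : η ^ 2 * q ^ 4 / 24 ≤ a * κ := by
    have h1 : η ^ 2 * q ^ 4 / 12 ≤ a * κ + γ := by rw [← hm]; exact le_trans he'_lb hup
    linarith
  have hγκ : γ ≤ a * κ / 4 := by linarith
  -- choose Y
  have hXle : X.card ≤ I1.card := le_trans (Finset.card_le_card hXsub) hle01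
  obtain ⟨Y, hYsub, hYcard, hYsum⟩ :=
    exists_sub (fun v => ∑ u ∈ X, A G u v) _ I1 rfl X.card hXle
  have hXY : Disjoint X Y :=
    Finset.disjoint_of_subset_left hXsub (Finset.disjoint_of_subset_right hYsub h02)
  have hco := coarse hS X Y hXY hYcard.symm
    (fun u hu v hv => hIind u (hI1sub (hYsub hu)) v (hI1sub (hYsub hv)))
  have hXX : ∑ u ∈ X, ∑ v ∈ X, A G u v ≤ a * a := sum_A_le G X X
  have hYsum' : a * ∑ u ∈ X, ∑ v ∈ I1, A G u v ≤ κ * ∑ u ∈ X, ∑ v ∈ Y, A G u v := by
    have h3 := hYsum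
    rw [Finset.sum_comm (s := I1), Finset.sum_comm (s := Y)] at h3
    exact h3
  have hXYe : 3 / 4 * (a * a) ≤ ∑ u ∈ X, ∑ v ∈ Y, A G u v := by
    have h1 : a * (3 / 4 * (a * κ)) ≤ a * ∑ u ∈ X, ∑ v ∈ I1, A G u v := by
      apply mul_le_mul_of_nonneg_left _ ha0
      linarith
    have h2 : κ * (3 / 4 * (a * a)) ≤ κ * ∑ u ∈ X, ∑ v ∈ Y, A G u v := by
      calc κ * (3 / 4 * (a * a)) = a * (3 / 4 * (a * κ)) := by ring
        _ ≤ _ := le_trans h1 hYsum'
    exact le_of_mul_le_mul_left h2 hκpos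
  have hda : a * a / 2 ≤ d := by linarith
  -- lower bound for a
  have hκn : κ ≤ η ^ 2 / 50 * q ^ 3 := by
    refine le_trans ?_ hn
    rw [hκ]; exact_mod_cast Finset.card_le_univ I1
  have ha_lb : 50 / 24 * q ≤ a := ar7 hη0 hq0 ha0 haκ hκn
  have h50 : (50 / 24 * q) * (50 / 24 * q) ≤ a * a :=
    mul_le_mul ha_lb ha_lb (by positivity) ha0
  have h51 : (50 / 24 * q) * (50 / 24 * q) = 2500 / 576 * q ^ 2 := by ring
  have h52 : 0 < q ^ 2 := by positivity
  linarith

end Pool.Agent.Lib.MP_279640_co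
end
end
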