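import Mathlib
import Pool.Agent.Lib.MP_279640_co.Defs
import Pool.Agent.Lib.MP_279640_co.Lower

set_option autoImplicit false
set_option linter.unusedSectionVars false
open scoped Classical
open Finset

namespace Pool.Agent.Lib.MP_279640_co

variable {n : ℕ}

lemma sum_A_eq (G : SimpleGraph (Fin n)) : ∑ u, ∑ v, A G u v = 2 * (G.edgeSet.ncard : ℝ) := by
  have h1 : ∀ u, ∑ v, A G u v = (G.degree u : ℝ) := by
    intro u
    unfold A
    rw [← G.card_neighborFinset_eq_degree, Finset.sum_boole]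
    congr 2
    ext v; simp
  simp only [h1]
  have h2 := G.sum_degrees_eq_twice_card_edges
  have h3 : G.edgeFinset.card = G.edgeSet.ncard := by
    rw [Set.ncard_eq_toFinset_card']
    rfl
  rw [← h3]
  exact_mod_cast h2

lemma bddAbove_cuts (G : SimpleGraph (Fin n)) :
    BddAbove {k | ∃ S : Finset (Fin n), S.card ≤ Sᶜ.card ∧ Sᶜ.card ≤ S.card + 1 ∧
      k = cutSize G S} := by
  apply Set.Finite.bddAbove
  apply (Set.finite_range (fun S : Finset (Fin n) => cutSize G S)).subset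
  rintro k ⟨S, _, _, rfl⟩
  exact ⟨S, rfl⟩

lemma le_maxBis (G : SimpleGraph (Fin n)) (S : Finset (Fin n)) (h1 : S.card ≤ Sᶜ.card)
    (h2 : Sᶜ.card ≤ S.card + 1) : cutSize G S ≤ maxBis G :=
  le_csSup (bddAbove_cuts G) ⟨S, h1, h2, rfl⟩

lemma exists_bisection (n : ℕ) :
    ∃ S : Finset (Fin n), S.card ≤ Sᶜ.card ∧ Sᶜ.card ≤ S.card + 1 := by
  obtain ⟨S, _, hS⟩ := Finset.exists_subset_card_eq
    (s := (Finset.univ : Finset (Fin n))) (n := n / 2) (by simp; omega)
  refine ⟨S, ?_, ?_⟩ <;> rw [Finset.card_compl, Fintype.card_fin, hS] <;> omega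

lemma maxBis_le (G : SimpleGraph (Fin n)) (k : ℕ)
    (h : ∀ S : Finset (Fin n), S.card ≤ Sᶜ.card → Sᶜ.card ≤ S.card + 1 → cutSize G S ≤ k) :
    maxBis G ≤ k := by
  obtain ⟨S, h1, h2⟩ := exists_bisection n
  have hne : {k | ∃ S : Finset (Fin n), S.card ≤ Sᶜ.card ∧ Sᶜ.card ≤ S.card + 1 ∧
      k = cutSize G S}.Nonempty := ⟨cutSize G S, S, h1, h2, rfl⟩
  apply csSup_le hne
  rintro _ ⟨S, h1, h2, rfl⟩
  exact h S h1 h2

lemma cutSize_eq (G : SimpleGraph (Fin n)) (S : Finset (Fin n)) :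
    (cutSize G S : ℝ) = ∑ u ∈ S, ∑ v ∈ Sᶜ, A G u v := by
  unfold cutSize
  rw [Set.ncard_eq_toFinset_card']
  have : ({p : Fin n × Fin n | p.1 ∈ S ∧ p.2 ∉ S ∧ G.Adj p.1 p.2}.toFinset)
      = (S ×ˢ Sᶜ).filter (fun p => G.Adj p.1 p.2) := by
    ext p
    simp only [Set.mem_toFinset, Set.mem_ofPred_eq, Finset.mem_filter, Finset.mem_product,
      Finset.mem_compl]
    tauto
  rw [this, Finset.card_filter]
  push_cast
  rw [Finset.sum_product]
  rfl

/-- The cut of the sign vector `y` in terms of the adjacency form. -/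
lemma four_cut (G : SimpleGraph (Fin n)) (y : Fin n → ℝ) (S : Finset (Fin n)) (σ : ℝ)
    (hσ : σ * σ = 1) (hy : ∀ v, y v = if v ∈ S then σ else -σ) :
    4 * (cutSize G S : ℝ) = 2 * (G.edgeSet.ncard : ℝ) - B G y y := by
  rw [← sum_A_eq, B_apply, cutSize_eq]
  have h0 : ∑ u, ∑ v, A G u v - ∑ u, ∑ v, y u * A G u v * y v
      = ∑ u, ∑ v, A G u v * (1 - y u * y v) := by
    rw [← Finset.sum_sub_distrib]
    refine Finset.sum_congr rfl fun u _ => ?_
    rw [← Finset.sum_sub_distrib]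
    refine Finset.sum_congr rfl fun v _ => by ring
  rw [h0]
  have h1 : ∀ F : Fin n → ℝ, ∑ v, F v = ∑ v ∈ S, F v + ∑ v ∈ Sᶜ, F v := fun F =>
    (Finset.sum_add_sum_compl S F).symm
  rw [h1]
  have h2 : ∑ u ∈ S, ∑ v, A G u v * (1 - y u * y v) = 2 * ∑ u ∈ S, ∑ v ∈ Sᶜ, A G u v := by
    rw [Finset.mul_sum]
    refine Finset.sum_congr rfl fun u hu => ?_
    rw [h1, Finset.mul_sum]
    have : ∑ v ∈ S, A G u v * (1 - y u * y v) = 0 := by
      apply Finset.sum_eq_zero
      intro v hv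
      rw [hy u, hy v, if_pos hu, if_pos hv, hσ]; ring
    rw [this, zero_add]
    refine Finset.sum_congr rfl fun v hv => ?_
    rw [hy u, hy v, if_pos hu, if_neg (Finset.mem_compl.mp hv)]
    have : σ * -σ = -1 := by rw [mul_neg, hσ]
    rw [this]; ring
  have h3 : ∑ u ∈ Sᶜ, ∑ v, A G u v * (1 - y u * y v) = 2 * ∑ u ∈ S, ∑ v ∈ Sᶜ, A G u v := by
    rw [Finset.sum_comm (s := S), Finset.mul_sum]
    refine Finset.sum_congr rfl fun u hu => ?_
    have hu' := Finset.mem_compl.mp hu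
    rw [h1, Finset.mul_sum]
    have : ∑ v ∈ Sᶜ, A G u v * (1 - y u * y v) = 0 := by
      apply Finset.sum_eq_zero
      intro v hv
      rw [hy u, hy v, if_neg hu', if_neg (Finset.mem_compl.mp hv)]
      have : -σ * -σ = 1 := by rw [neg_mul_neg, hσ]
      rw [this]; ring
    rw [this, add_zero]
    refine Finset.sum_congr rfl fun v hv => ?_
    rw [hy u, hy v, if_neg hu', if_pos hv, A_comm]
    have : -σ * σ = -1 := by rw [neg_mul, hσ]
    rw [this]; ring
  rw [h2, h3]; ring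

lemma bal_maxBis (G : SimpleGraph (Fin n)) :
    Bal G (4 * (maxBis G : ℝ) - 2 * (G.edgeSet.ncard : ℝ)) := by
  intro y hy hsum
  -- choose the side
  have key : ∀ σ : ℝ, σ = 1 ∨ σ = -1 → σ * ∑ v, y v ≤ 0 →
      -(B G y y) ≤ 4 * (maxBis G : ℝ) - 2 * (G.edgeSet.ncard : ℝ) := by
    intro σ hσ hs
    let S : Finset (Fin n) := Finset.univ.filter (fun v => y v = σ)
    have hσ2 : σ * σ = 1 := by rcases hσ with h | h <;> rw [h] <;> norm_num
    have hval : ∀ v, y v = if v ∈ S then σ else -σ := by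
      intro v
      by_cases hv : y v = σ
      · simp [S, hv]
      · have : v ∉ S := by simp [S, hv]
        rw [if_neg this]
        rcases hy v with h | h <;> rcases hσ with h' | h' <;> rw [h'] at hv ⊢ <;> rw [h] at hv ⊢
        · exact absurd rfl hv
        · exact absurd rfl hv
        · norm_num
    have hsumS : ∑ v, y v = σ * ((S.card : ℝ) - (Sᶜ.card : ℝ)) := by
      rw [← Finset.sum_add_sum_compl S]
      have h1 : ∑ v ∈ S, y v = S.card * σ := by
        rw [Finset.sum_congr rfl (fun v hv => by rw [hval v, if_pos hv] : ∀ v ∈ S, y v = σ)]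
        simp
      have h2 : ∑ v ∈ Sᶜ, y v = Sᶜ.card * (-σ) := by
        rw [Finset.sum_congr rfl (fun v hv => by
          rw [hval v, if_neg (Finset.mem_compl.mp hv)] : ∀ v ∈ Sᶜ, y v = -σ)]
        simp
      rw [h1, h2]; ring
    have hc1 : (S.card : ℝ) ≤ Sᶜ.card := by
      rw [hsumS, ← mul_assoc, hσ2, one_mul] at hs
      linarith
    have hc2 : (Sᶜ.card : ℝ) ≤ S.card + 1 := by
      rw [hsumS, abs_mul] at hsum
      have : |σ| = 1 := by rcases hσ with h | h <;> rw [h] <;> norm_num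
      rw [this, one_mul] at hsum
      have := (abs_le.mp hsum).1
      linarith
    have h1 : S.card ≤ Sᶜ.card := by exact_mod_cast hc1
    have h2 : Sᶜ.card ≤ S.card + 1 := by exact_mod_cast hc2
    have h3 := le_maxBis G S h1 h2
    have h4 := four_cut G y S σ hσ2 hval
    have h5 : (cutSize G S : ℝ) ≤ maxBis G := by exact_mod_cast h3
    linarith
  rcases le_total (∑ v, y v) 0 with h | h
  · exact key 1 (Or.inl rfl) (by linarith)
  · exact key (-1) (Or.inr rfl) (by linarith)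

/-- Lower bound for `b(G)`. -/
lemma maxBis_lower (G : SimpleGraph (Fin n)) (η q : ℝ) (hη0 : 0 < η) (hη1 : η ≤ 1)
    (hm : (G.edgeSet.ncard : ℝ) = q ^ 4) (hq : 384 / η ^ 2 ≤ q)
    (hn : (n : ℝ) ≤ η ^ 2 / 50 * q ^ 3) :
    (G.edgeSet.ncard : ℝ) / 2 + (1 - η) * Real.sqrt (2 * (G.edgeSet.ncard : ℝ)) / 4
      ≤ maxBis G := by
  have h := lower_core (sur_of_bal (bal_maxBis G)) η q (G.edgeSet.ncard : ℝ) hη0 hη1 hm
    (sum_A_eq G) hq (by simpa using hn)
  linarith

/-- There is a graph with the given numbers of vertices and edges. -/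
lemma exists_graph (m n : ℕ) (h : m ≤ n.choose 2) :
    ∃ G : SimpleGraph (Fin n), G.edgeSet.ncard = m := by
  have h1 : m ≤ (⊤ : SimpleGraph (Fin n)).edgeFinset.card := by
    rw [SimpleGraph.card_edgeFinset_top_eq_card_choose_two, Fintype.card_fin]; exact h
  obtain ⟨T, hT, hTc⟩ := Finset.exists_subset_card_eq h1
  refine ⟨SimpleGraph.fromEdgeSet (T : Set (Sym2 (Fin n))), ?_⟩
  rw [SimpleGraph.edgeSet_fromEdgeSet]
  have : (T : Set (Sym2 (Fin n))) \ Sym2.diagSet = T := by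
    ext x
    simp only [Set.mem_sdiff, Finset.mem_coe, and_iff_left_iff_imp]
    intro hx
    have := hT hx
    rw [SimpleGraph.mem_edgeFinset] at this
    exact SimpleGraph.not_isDiag_of_mem_edgeSet _ this
  rw [this, Set.ncard_coe_finset, hTc]

lemma exists_bis (m n : ℕ) (h : m ≤ n.choose 2) :
    ∃ G : SimpleGraph (Fin n), G.edgeSet.ncard = m ∧ bis m n = maxBis G := by
  obtain ⟨G, hG⟩ := exists_graph m n h
  have hne : {k | ∃ G : SimpleGraph (Fin n), G.edgeSet.ncard = m ∧ k = maxBis G}.Nonempty :=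
    ⟨_, G, hG, rfl⟩
  obtain ⟨G', h1, h2⟩ := Nat.sInf_mem hne
  exact ⟨G', h1, h2⟩

lemma bis_le {m n : ℕ} (G : SimpleGraph (Fin n)) (hG : G.edgeSet.ncard = m) :
    bis m n ≤ maxBis G := Nat.sInf_le ⟨G, hG, rfl⟩

end Pool.Agent.Lib.MP_279640_co
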