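import Mathlib
import Pool.Agent.Lib.MP_279640_co.Bridge

set_option autoImplicit false
set_option linter.unusedSectionVars false
open scoped Classical
open Finset

namespace Pool.Agent.Lib.MP_279640_co

/-- A clique on the first `k` of `n` vertices. -/
def clq (n k : ℕ) : SimpleGraph (Fin n) where
  Adj u v := u ≠ v ∧ u.val < k ∧ v.val < k
  symm := ⟨fun _ _ h => ⟨h.1.symm, h.2.2, h.2.1⟩⟩
  loopless := ⟨fun _ h => h.1 rfl⟩

lemma card_lt (n k : ℕ) (hk : k ≤ n) :
    (Finset.univ.filter (fun u : Fin n => u.val < k)).card = k := by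
  have : (Finset.univ.filter (fun u : Fin n => u.val < k))
      = (Finset.univ : Finset (Fin k)).map (Fin.castLEEmb hk) := by
    ext u
    simp only [Finset.mem_filter, Finset.mem_univ, true_and, Finset.mem_map]
    constructor
    · intro hu
      exact ⟨⟨u.val, hu⟩, by ext; simp⟩
    · rintro ⟨a, rfl⟩
      simp
  rw [this, Finset.card_map, Finset.card_univ, Fintype.card_fin]

lemma clq_edges (n k : ℕ) (hk : k ≤ n) : (clq n k).edgeSet.ncard = k.choose 2 := by
  have h := sum_A_eq (clq n k)
  set K := Finset.univ.filter (fun u : Fin n => u.val < k) with hK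
  have hKc : K.card = k := card_lt n k hk
  have h1 : ∑ u, ∑ v, A (clq n k) u v = (k : ℝ) * k - k := by
    have h2 : ∀ u v, A (clq n k) u v
        = (if u ∈ K then 1 else 0) * (if v ∈ K then 1 else 0)
          - (if u ∈ K then (if v = u then 1 else 0) else 0) := by
      intro u v
      unfold A
      simp only [clq, hK, Finset.mem_filter, Finset.mem_univ, true_and]
      by_cases hu : u.val < k <;> by_cases hv : v.val < k <;> by_cases huv : u = v
      · subst huv; simp [hu]
      · have : ¬ v = u := fun h => huv h.symm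
        simp [hu, hv, huv, this]
      · subst huv; exact absurd hu hv
      · have : ¬ v = u := fun h => huv h.symm
        simp [hu, hv, this]
      · subst huv; exact absurd hv hu
      · simp [hu]
      · simp [hu]
      · simp [hu]
    simp only [h2, Finset.sum_sub_distrib]
    have h3 : ∑ u : Fin n, ∑ v : Fin n, ((if u ∈ K then (1 : ℝ) else 0) * (if v ∈ K then 1 else 0))
        = (k : ℝ) * k := by
      rw [← Finset.sum_mul_sum]
      simp [hKc]
    have h4 : ∑ u : Fin n, ∑ v : Fin n, (if u ∈ K then (if v = u then (1 : ℝ) else 0) else 0)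
        = k := by
      have : ∀ u : Fin n, ∑ v : Fin n, (if u ∈ K then (if v = u then (1 : ℝ) else 0) else 0)
          = if u ∈ K then 1 else 0 := by
        intro u
        by_cases hu : u ∈ K <;> simp [hu]
      simp only [this]
      simp [hKc]
    rw [h3, h4]
  rw [h1] at h
  have h5 : ((k.choose 2 : ℕ) : ℝ) = (k : ℝ) * (k - 1) / 2 := Nat.cast_choose_two ℝ k
  have : ((clq n k).edgeSet.ncard : ℝ) = (k.choose 2 : ℕ) := by rw [h5]; linarith
  exact_mod_cast this

lemma clq_cut (n k : ℕ) (hk : k ≤ n) (S : Finset (Fin n)) :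
    (cutSize (clq n k) S : ℝ) ≤ (k : ℝ) ^ 2 / 4 := by
  rw [cutSize_eq]
  set K := Finset.univ.filter (fun u : Fin n => u.val < k) with hK
  have hKc : K.card = k := card_lt n k hk
  have h1 : ∑ u ∈ S, ∑ v ∈ Sᶜ, A (clq n k) u v ≤ ((S ∩ K).card : ℝ) * ((Sᶜ ∩ K).card : ℝ) := by
    have h2 : ∀ u v, A (clq n k) u v ≤ (if u ∈ K then 1 else 0) * (if v ∈ K then 1 else 0) := by
      intro u v
      unfold A
      simp only [clq, hK, Finset.mem_filter, Finset.mem_univ, true_and]
      by_cases hu : u.val < k <;> by_cases hv : v.val < k <;> simp [hu, hv]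
      split_ifs <;> norm_num
    calc ∑ u ∈ S, ∑ v ∈ Sᶜ, A (clq n k) u v
        ≤ ∑ u ∈ S, ∑ v ∈ Sᶜ, ((if u ∈ K then (1 : ℝ) else 0) * (if v ∈ K then 1 else 0)) :=
          Finset.sum_le_sum fun u _ => Finset.sum_le_sum fun v _ => h2 u v
      _ = _ := by
          rw [← Finset.sum_mul_sum]
          simp
  have h3 : ((S ∩ K).card : ℝ) + ((Sᶜ ∩ K).card : ℝ) = k := by
    have : (S ∩ K).card + (Sᶜ ∩ K).card = K.card := by
      rw [← Finset.card_union_of_disjoint]
      · congr 1
        ext v; simp only [Finset.mem_union, Finset.mem_inter, Finset.mem_compl]; tauto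
      · rw [Finset.disjoint_left]
        intro v hv hv'
        simp only [Finset.mem_inter, Finset.mem_compl] at hv hv'
        exact hv'.1 hv.1
    rw [hKc] at this
    exact_mod_cast this
  nlinarith [sq_nonneg (((S ∩ K).card : ℝ) - ((Sᶜ ∩ K).card : ℝ))]

lemma bis_clique_le (n k : ℕ) (hk : k ≤ n) :
    (bis (k.choose 2) n : ℝ) ≤ (k : ℝ) ^ 2 / 4 := by
  have h1 := bis_le (clq n k) (clq_edges n k hk)
  have h2 : (maxBis (clq n k) : ℝ) ≤ (k : ℝ) ^ 2 / 4 := by
    have h3 : maxBis (clq n k) ≤ ⌊(k : ℝ) ^ 2 / 4⌋₊ := by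
      apply maxBis_le
      intro S _ _
      exact Nat.le_floor (clq_cut n k hk S)
    exact le_trans (by exact_mod_cast h3) (Nat.floor_le (by positivity))
  exact le_trans (by exact_mod_cast h1) h2

end Pool.Agent.Lib.MP_279640_co
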