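import Mathlib

set_option autoImplicit false

namespace Pool.Agent.Lib.MP_279640_co

/-- The Edwards value. -/
noncomputable def E (r : ℝ) : ℝ := r / 2 + Real.sqrt (r / 8 + 1 / 64) - 1 / 8

/-- Number of edges of the join of a complete graph on `a` vertices with `n - a` isolated
vertices: the number of pairs meeting a set of `a` of the `n` vertices. -/
def hubEdges (n a : ℕ) : ℕ := a * (n - a) + a.choose 2

end Pool.Agent.Lib.MP_279640_co
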