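import Mathlib
import Pool.Agent.Lib.MP_279640_co.Lower

section

set_option autoImplicit false
set_option linter.unusedSectionVars false
open scoped Classical
open Finset

namespace Pool.Agent.Lib.MP_279640_co

variable {V : Type} [Fintype V]

/-- Indicator vector of a finite set. -/
noncomputable def ind (X : Finset V) : V → ℝ := ∑ u ∈ X, e u

lemma ind_apply (X : Finset V) (v : V) : ind X v = if v ∈ X then 1 else 0 := by
  simp [ind, Finset.sum_apply, e_apply]

lemma B_ind_ind (G : SimpleGraph V) (X Y : Finset V) :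
    B G (ind X) (ind Y) = ∑ u ∈ X, ∑ v ∈ Y, A G u v := by
  simp only [ind, map_sum, LinearMap.sum_apply, B_e_e]
  rw [Finset.sum_comm]

lemma B_ind_self_of_indep (G : SimpleGraph V) (X : Finset V)
    (h : ∀ u ∈ X, ∀ v ∈ X, ¬ G.Adj u v) : B G (ind X) (ind X) = 0 := by
  rw [B_ind_ind]
  apply Finset.sum_eq_zero; intro u hu
  apply Finset.sum_eq_zero; intro v hv
  simp [A, h u hu v hv]

/-- If the vertices are properly coloured with colours in `ZMod k`, some sign vector has form at
most `-(2e)/k`. -/
lemma cut_of_coloring (G : SimpleGraph V) (k : ℕ) [NeZero k] (c : V → ZMod k)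
    (hc : ∀ u v, G.Adj u v → c u ≠ c v) :
    ∃ x : V → ℝ, (∀ v, x v = -1 ∨ x v = 1) ∧
      (∑ u, ∑ v, A G u v) / k ≤ -(B G x x) := by
  let cl : ZMod k → Finset V := fun i => Finset.univ.filter (fun v => c v = i)
  let w : ZMod k → ZMod k → ℝ := fun i j => B G (ind (cl i)) (ind (cl j))
  have hcl : ∀ i v, v ∈ cl i ↔ c v = i := by intro i v; simp [cl]
  have hwii : ∀ i, w i i = 0 := by
    intro i
    apply B_ind_self_of_indep
    intro u hu v hv hadj
    rw [hcl] at hu hv
    exact hc u v hadj (by rw [hu, hv])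
  have hwtot : ∑ i, ∑ j, w i j = ∑ u, ∑ v, A G u v := by
    simp only [w, B_ind_ind]
    have h1 : ∀ F : V → ℝ, ∑ i, ∑ u ∈ cl i, F u = ∑ u, F u := by
      intro F
      simp only [cl]
      exact Finset.sum_fiberwise Finset.univ c F
    have h2 : ∀ i, ∑ j, ∑ u ∈ cl i, ∑ v ∈ cl j, A G u v = ∑ u ∈ cl i, ∑ v, A G u v := by
      intro i
      rw [Finset.sum_comm]
      exact Finset.sum_congr rfl fun u _ => h1 _
    simp only [h2]
    exact h1 _
  -- choose the reflection
  have hex : ∃ s : ZMod k, (∑ u, ∑ v, A G u v) / k ≤ ∑ i, w i (s - i) := by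
    by_contra hcon
    push Not at hcon
    have h1 : ∑ s : ZMod k, ∑ i, w i (s - i) = ∑ i, ∑ j, w i j := by
      rw [Finset.sum_comm]
      refine Finset.sum_congr rfl fun i _ => ?_
      exact (Equiv.subRight i).sum_comp (fun j => w i j)
    have h2 : ∑ s : ZMod k, ∑ i, w i (s - i) < ∑ s : ZMod k, (∑ u, ∑ v, A G u v) / k := by
      apply Finset.sum_lt_sum_of_nonempty Finset.univ_nonempty
      intro s _
      exact hcon s
    rw [h1, hwtot, Finset.sum_const, Finset.card_univ, ZMod.card, nsmul_eq_mul] at h2
    have hk : (k : ℝ) ≠ 0 := by exact_mod_cast NeZero.ne k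
    rw [mul_div_cancel₀ _ hk] at h2
    exact lt_irrefl _ h2
  obtain ⟨s, hs⟩ := hex
  -- vectors of the pairs
  let hv : ZMod k → V → ℝ := fun i =>
    if i = s - i then ind (cl i)
    else if i.val < (s - i).val then ind (cl i) - ind (cl (s - i)) else 0
  have hself : ∀ i : ZMod k, s - (s - i) = i := fun i => by ring
  have hform : ∑ i, B G (hv i) (hv i) = -∑ i, w i (s - i) := by
    have h1 : ∀ i, B G (hv i) (hv i) =
        (if i = s - i then 0 else if i.val < (s - i).val then -(2 * w i (s - i)) else 0) := by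
      intro i
      simp only [hv]
      by_cases h1 : i = s - i
      · rw [if_pos h1, if_pos h1]; exact hwii i
      · rw [if_neg h1, if_neg h1]
        by_cases h2 : i.val < (s - i).val
        · rw [if_pos h2, if_pos h2]
          simp only [map_sub, LinearMap.sub_apply]
          have h3 : B G (ind (cl i)) (ind (cl i)) = 0 := hwii i
          have h4 : B G (ind (cl (s - i))) (ind (cl (s - i))) = 0 := hwii (s - i)
          have h5 : B G (ind (cl (s - i))) (ind (cl i)) = B G (ind (cl i)) (ind (cl (s - i))) :=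
            B_comm G _ _
          rw [h3, h4, h5]; ring
        · rw [if_neg h2, if_neg h2]; simp
    have h2 : ∑ i, w i (s - i) = ∑ i, (if i = s - i then 0 else
        if i.val < (s - i).val then w i (s - i) else 0) + ∑ i, (if i = s - i then 0 else
        if i.val < (s - i).val then 0 else w i (s - i)) := by
      rw [← Finset.sum_add_distrib]
      refine Finset.sum_congr rfl fun i _ => ?_
      by_cases h1 : i = s - i
      · simp only [if_pos h1]
        rw [← h1]; rw [hwii]; ring
      · simp only [if_neg h1]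
        by_cases h2 : i.val < (s - i).val
        · simp [h2]
        · simp [h2]
    have h3 : ∑ i, (if i = s - i then 0 else if i.val < (s - i).val then 0 else w i (s - i))
        = ∑ i, (if i = s - i then 0 else if i.val < (s - i).val then w i (s - i) else 0) := by
      rw [← (Equiv.subLeft s).sum_comp (fun i => if i = s - i then (0 : ℝ) else
        if i.val < (s - i).val then w i (s - i) else 0)]
      refine Finset.sum_congr rfl fun i _ => ?_
      simp only [Equiv.subLeft_apply, hself]
      by_cases h1 : i = s - i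
      · have h1' : s - i = i := h1.symm
        simp [h1']
      · have h1' : ¬ (s - i = i) := fun h => h1 h.symm
        simp only [if_neg h1, if_neg h1']
        have hne : i.val ≠ (s - i).val := fun h => h1 (ZMod.val_injective k h)
        by_cases h2 : i.val < (s - i).val
        · have : ¬ ((s - i).val < i.val) := by omega
          rw [if_pos h2, if_neg this]
        · have : (s - i).val < i.val := by omega
          rw [if_neg h2, if_pos this]
          exact B_comm G _ _
    rw [h2, h3]
    simp only [h1]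
    rw [← Finset.sum_add_distrib, ← Finset.sum_neg_distrib]
    refine Finset.sum_congr rfl fun i _ => ?_
    split_ifs <;> ring
  -- average over signs
  have havg := moment_form G (Finset.univ : Finset (ZMod k)) hv
  rw [hform] at havg
  have hT : ∃ T ∈ (Finset.univ : Finset (ZMod k)).powerset,
      B G (Z Finset.univ T hv) (Z Finset.univ T hv) ≤ -∑ i, w i (s - i) := by
    by_contra hcon
    push Not at hcon
    have h1 : ∑ T ∈ (Finset.univ : Finset (ZMod k)).powerset, (-∑ i, w i (s - i)) <
        ∑ T ∈ (Finset.univ : Finset (ZMod k)).powerset,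
          B G (Z Finset.univ T hv) (Z Finset.univ T hv) := by
      apply Finset.sum_lt_sum_of_nonempty
      · exact ⟨∅, by simp⟩
      · exact hcon
    rw [havg, Finset.sum_const, Finset.card_powerset, nsmul_eq_mul] at h1
    push_cast at h1
    exact lt_irrefl _ h1
  obtain ⟨T, _, hT⟩ := hT
  refine ⟨Z Finset.univ T hv, ?_, by linarith⟩
  intro v
  -- value at v
  have hval : Z Finset.univ T hv v = ∑ i, sg T i * hv i v := by
    simp [Z, Finset.sum_apply]
  have hind : ∀ i, ind (cl i) v = if c v = i then 1 else 0 := by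
    intro i; rw [ind_apply]; simp [hcl]
  by_cases h1 : c v = s - c v
  · have : ∑ i, sg T i * hv i v = sg T (c v) := by
      rw [Finset.sum_eq_single (c v)]
      · simp only [hv]
        rw [if_pos h1, hind]; simp
      · intro i _ hi
        simp only [hv]
        have hi' : ¬ (c v = i) := fun h => hi h.symm
        have hi2 : ¬ (c v = s - i) := by
          intro h
          apply hi
          have : i = s - c v := by rw [h]; ring
          rw [this, ← h1]
        split_ifs
        · rw [hind, if_neg hi']; ring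
        · rw [Pi.sub_apply, hind, hind, if_neg hi', if_neg hi2]; ring
        · simp
      · simp
    rw [hval, this]; exact sg_cases T _
  · by_cases h2 : (c v).val < (s - c v).val
    · have : ∑ i, sg T i * hv i v = sg T (c v) := by
        rw [Finset.sum_eq_single (c v)]
        · simp only [hv]
          have h3 : ¬ (c v = s - c v) := h1
          rw [if_neg h3, if_pos h2, Pi.sub_apply, hind, hind, if_neg h3]; simp
        · intro i _ hi
          simp only [hv]
          have hi' : ¬ (c v = i) := fun h => hi h.symm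
          by_cases h3 : i = s - i
          · rw [if_pos h3, hind, if_neg hi']; ring
          · rw [if_neg h3]
            by_cases h4 : i.val < (s - i).val
            · rw [if_pos h4, Pi.sub_apply, hind, hind, if_neg hi']
              have hi2 : ¬ (c v = s - i) := by
                intro h
                have h5 : i = s - c v := by rw [h]; ring
                rw [h5, hself] at h4
                omega
              rw [if_neg hi2]; ring
            · rw [if_neg h4]; simp
        · simp
      rw [hval, this]; exact sg_cases T _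
    · have hne : (c v).val ≠ (s - c v).val := fun h => h1 (ZMod.val_injective k h)
      have h2' : (s - c v).val < (c v).val := by omega
      have : ∑ i, sg T i * hv i v = -sg T (s - c v) := by
        rw [Finset.sum_eq_single (s - c v)]
        · simp only [hv]
          rw [hself]
          have h3 : ¬ (s - c v = c v) := fun h => h1 h.symm
          rw [if_neg h3, if_pos h2', Pi.sub_apply, hind, hind, if_neg h1]; simp
        · intro i _ hi
          simp only [hv]
          have hi2 : ¬ (c v = s - i) := by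
            intro h
            apply hi
            rw [h]; ring
          by_cases h3 : i = s - i
          · rw [if_pos h3, hind]
            have : ¬ (c v = i) := by rw [h3]; exact hi2
            rw [if_neg this]; ring
          · rw [if_neg h3]
            by_cases h4 : i.val < (s - i).val
            · rw [if_pos h4, Pi.sub_apply, hind, hind, if_neg hi2]
              have hi' : ¬ (c v = i) := by
                intro h
                rw [← h] at h4
                omega
              rw [if_neg hi']; ring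
            · rw [if_neg h4]; simp
        · simp
      rw [hval, this]
      rcases sg_cases T (s - c v) with h | h <;> rw [h] <;> norm_num

/-- A colouring with few colours: with `k` colours and `k (k-1) ≤ 2 e`. -/
lemma exists_coloring (G : SimpleGraph V) [Nonempty V] :
    ∃ (k : ℕ) (_ : NeZero k) (c : V → ZMod k), (∀ u v, G.Adj u v → c u ≠ c v) ∧
      (k : ℝ) * (k - 1) ≤ ∑ u, ∑ v, A G u v := by
  -- proper colourings with minimal image
  let P : ℕ → Prop := fun k => ∃ c : V → V, (∀ u v, G.Adj u v → c u ≠ c v) ∧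
    (Finset.univ.image c).card = k
  have hex : ∃ k, P k := ⟨_, id, fun u v h => G.ne_of_adj h, rfl⟩
  obtain ⟨c, hc, hcard⟩ := Nat.find_spec hex
  set k := Nat.find hex with hk
  have hmin : ∀ c' : V → V, (∀ u v, G.Adj u v → c' u ≠ c' v) →
      k ≤ (Finset.univ.image c').card := fun c' hc' => Nat.find_min' hex ⟨c', hc', rfl⟩
  set I := Finset.univ.image c with hI
  have hkpos : 0 < k := by
    rw [← hcard, Finset.card_pos]
    exact Finset.univ_nonempty.image c
  have hNZ : NeZero k := ⟨hkpos.ne'⟩
  -- adjacent classes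
  have hadj : ∀ i ∈ I, ∀ j ∈ I, i ≠ j → ∃ u v, c u = i ∧ c v = j ∧ G.Adj u v := by
    intro i hi j hj hij
    by_contra hcon
    push Not at hcon
    let c' : V → V := fun v => if c v = j then i else c v
    have hc' : ∀ u v, G.Adj u v → c' u ≠ c' v := by
      intro u v huv
      simp only [c']
      by_cases h1 : c u = j <;> by_cases h2 : c v = j
      · exact absurd (h1.trans h2.symm) (hc u v huv)
      · rw [if_pos h1, if_neg h2]
        intro h
        exact hcon v u h.symm h1 huv.symm
      · rw [if_neg h1, if_pos h2]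
        intro h
        exact hcon u v h h2 huv
      · rw [if_neg h1, if_neg h2]; exact hc u v huv
    have h1 := hmin c' hc'
    have h2 : Finset.univ.image c' ⊆ I.erase j := by
      intro x hx
      rw [Finset.mem_image] at hx
      obtain ⟨v, _, rfl⟩ := hx
      simp only [c']
      by_cases h : c v = j
      · rw [if_pos h]
        exact Finset.mem_erase.mpr ⟨hij, hi⟩
      · rw [if_neg h]
        exact Finset.mem_erase.mpr ⟨h, Finset.mem_image_of_mem c (Finset.mem_univ v)⟩
    have h3 := Finset.card_le_card h2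
    rw [Finset.card_erase_of_mem hj, hcard] at h3
    omega
  -- transport to ZMod k
  have hce : Fintype.card I = Fintype.card (ZMod k) := by
    rw [ZMod.card, Fintype.card_coe, hcard]
  let φ : I ≃ ZMod k := Fintype.equivOfCardEq hce
  have hmem : ∀ v, c v ∈ I := fun v => Finset.mem_image_of_mem c (Finset.mem_univ v)
  refine ⟨k, hNZ, fun v => φ ⟨c v, hmem v⟩, ?_, ?_⟩
  · intro u v huv h
    have h1 := φ.injective h
    simp only [Subtype.mk.injEq] at h1
    exact hc u v huv h1
  · -- counting
    have h1 : ∑ u, ∑ v, A G u v = ∑ i ∈ I, ∑ j ∈ I,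
        ∑ u ∈ Finset.univ.filter (fun u => c u = i), ∑ v ∈ Finset.univ.filter (fun v => c v = j),
          A G u v := by
      have h2 : ∀ F : V → ℝ, ∑ i ∈ I, ∑ u ∈ Finset.univ.filter (fun u => c u = i), F u
          = ∑ u, F u := fun F => Finset.sum_fiberwise_of_maps_to (fun u _ => hmem u) F
      rw [← h2 (fun u => ∑ v, A G u v)]
      refine Finset.sum_congr rfl fun i _ => ?_
      rw [Finset.sum_comm (s := I)]
      exact Finset.sum_congr rfl fun u _ => (h2 _).symm
    rw [h1]
    have h3 : ∀ i ∈ I, ∀ j ∈ I, (if i ≠ j then (1 : ℝ) else 0) ≤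
        ∑ u ∈ Finset.univ.filter (fun u => c u = i), ∑ v ∈ Finset.univ.filter (fun v => c v = j),
          A G u v := by
      intro i hi j hj
      by_cases hij : i = j
      · simp only [hij, ne_eq, not_true_eq_false, if_false]
        exact Finset.sum_nonneg fun u _ => Finset.sum_nonneg fun v _ => A_nonneg G u v
      · simp only [ne_eq, hij, not_false_eq_true, if_true]
        obtain ⟨u, v, hu, hv, huv⟩ := hadj i hi j hj hij
        have h4 : (1 : ℝ) = A G u v := by simp [A, huv]
        rw [h4]
        have h5 : A G u v ≤ ∑ v ∈ Finset.univ.filter (fun v => c v = j), A G u v :=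
          Finset.single_le_sum (f := fun v => A G u v) (fun v _ => A_nonneg G u v) (by simp [hv])
        refine le_trans h5 ?_
        exact Finset.single_le_sum
          (f := fun u => ∑ v ∈ Finset.univ.filter (fun v => c v = j), A G u v)
          (fun u _ => Finset.sum_nonneg fun v _ => A_nonneg G u v) (by simp [hu])
    calc (k : ℝ) * (k - 1) = ∑ i ∈ I, ∑ j ∈ I, (if i ≠ j then (1 : ℝ) else 0) := by
          have h4 : ∀ i ∈ I, ∑ j ∈ I, (if i ≠ j then (1 : ℝ) else 0) = (k : ℝ) - 1 := by
            intro i hi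
            rw [Finset.sum_boole]
            have : (I.filter (fun j => i ≠ j)) = I.erase i := by
              ext j; simp only [Finset.mem_filter, Finset.mem_erase]; tauto
            rw [this, Finset.card_erase_of_mem hi, hcard, Nat.cast_sub (by omega)]
            simp
          rw [Finset.sum_congr rfl h4, Finset.sum_const, hcard, nsmul_eq_mul]
      _ ≤ _ := Finset.sum_le_sum fun i hi => Finset.sum_le_sum fun j hj => h3 i hi j hj

/-- Edwards' bound: with `2 e = ∑ A`, some sign vector has form at most `-(√(8e+1) - 1)/2`. -/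
theorem edwards (G : SimpleGraph V) (m : ℝ) (hm : ∑ u, ∑ v, A G u v = 2 * m) :
    ∃ x : V → ℝ, (∀ v, x v = -1 ∨ x v = 1) ∧ (Real.sqrt (8 * m + 1) - 1) / 2 ≤ -(B G x x) := by
  have hm0 : 0 ≤ m := by
    have : 0 ≤ ∑ u, ∑ v, A G u v :=
      Finset.sum_nonneg fun u _ => Finset.sum_nonneg fun v _ => A_nonneg G u v
    linarith
  rcases isEmpty_or_nonempty V with hV | hV
  · refine ⟨fun _ => 1, fun v => (hV.false v).elim, ?_⟩
    have h1 : ∑ u, ∑ v, A G u v = 0 := by
      apply Finset.sum_eq_zero; intro u; exact (hV.false u).elim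
    have h2 : m = 0 := by linarith
    rw [B_apply, h2]; simp
  · obtain ⟨k, hNZ, c, hc, hk⟩ := exists_coloring G
    obtain ⟨x, hx, hB⟩ := cut_of_coloring G k c hc
    refine ⟨x, hx, le_trans ?_ hB⟩
    rw [hm] at hk ⊢
    have hkpos : (0 : ℝ) < k := by exact_mod_cast Nat.pos_of_ne_zero (NeZero.ne k)
    rw [le_div_iff₀ hkpos]
    set r := Real.sqrt (8 * m + 1) with hr
    have hr2 : r ^ 2 = 8 * m + 1 := Real.sq_sqrt (by linarith)
    have hr1 : 1 ≤ r := by
      rw [hr, Real.one_le_sqrt]; linarith
    -- k ≤ (1 + r)/2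
    have hkr : (k : ℝ) ≤ (1 + r) / 2 := by
      by_contra hcon
      push Not at hcon
      nlinarith
    have : (r - 1) / 2 * k ≤ (r - 1) / 2 * ((1 + r) / 2) :=
      mul_le_mul_of_nonneg_left hkr (by linarith)
    calc (r - 1) / 2 * k ≤ (r - 1) / 2 * ((1 + r) / 2) := this
      _ = (r ^ 2 - 1) / 4 := by ring
      _ = 2 * m := by rw [hr2]; ring

end Pool.Agent.Lib.MP_279640_co
end

section

set_option autoImplicit false
set_option linter.unusedSectionVars false
open scoped Classical
open Finset

namespace Pool.Agent.Lib.MP_279640_co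

variable {V : Type} [Fintype V]

/-- Sums of signs have a prescribed parity. -/
lemma sign_sum (U : Finset V) (y : V → ℝ) (hy : ∀ v ∈ U, y v = -1 ∨ y v = 1) :
    ∃ p : ℕ, p ≤ U.card ∧ ∑ v ∈ U, y v = (U.card : ℝ) - 2 * p := by
  refine ⟨(U.filter (fun v => y v = -1)).card, Finset.card_filter_le _ _, ?_⟩
  have h1 : ∀ v ∈ U, y v = 1 - 2 * (if y v = -1 then 1 else 0) := by
    intro v hv
    rcases hy v hv with h | h
    · rw [if_pos h, h]; norm_num
    · have : ¬ (y v = -1) := by rw [h]; norm_num
      rw [if_neg this, h]; norm_num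
  rw [Finset.sum_congr rfl h1, Finset.sum_sub_distrib, ← Finset.mul_sum, Finset.sum_boole]
  simp

/-- Partial assignments with sum `-1` on an odd number of vertices. -/
lemma odd_sur {G : SimpleGraph V} {d : ℝ} (h : Bal G d) (hodd : Odd (Fintype.card V))
    (x : V → ℝ) (hx : PA x) (hsum : ∑ v, x v = -1) : -(B G x x) ≤ d := by
  obtain ⟨y, hy1, hy2, hy3, hy4⟩ := complete G _ (Finset.univ.filter (fun v => x v = 0)) rfl x
    (by simp)
  have hval : ∀ v, y v = -1 ∨ y v = 1 := by
    intro v
    by_cases hv : x v = 0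
    · exact hy2 v (by simp [hv])
    · rw [hy1 v (by simp [hv])]
      rcases hx v with h | h | h
      · exact Or.inl h
      · exact absurd h hv
      · exact Or.inr h
  have hsum' : ∑ v, y v = -1 + ∑ v ∈ Finset.univ.filter (fun v => x v = 0), y v := by
    rw [← Finset.sum_filter_add_sum_filter_not Finset.univ (fun v => x v = 0) y]
    have h1 : ∑ v ∈ Finset.univ.filter (fun v => ¬ x v = 0), y v
        = ∑ v ∈ Finset.univ.filter (fun v => ¬ x v = 0), x v := by
      refine Finset.sum_congr rfl fun v hv => hy1 v ?_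
      simp only [Finset.mem_filter, Finset.mem_univ, true_and] at hv ⊢
      exact hv
    have h2 : ∑ v ∈ Finset.univ.filter (fun v => ¬ x v = 0), x v = ∑ v, x v := by
      rw [← Finset.sum_filter_add_sum_filter_not Finset.univ (fun v => x v = 0) x]
      have : ∑ v ∈ Finset.univ.filter (fun v => x v = 0), x v = 0 :=
        Finset.sum_eq_zero (by simp)
      rw [this, zero_add]
    rw [h1, h2, hsum]; ring
  -- parity
  obtain ⟨p, _, hp⟩ := sign_sum Finset.univ y (fun v _ => hval v)
  obtain ⟨l, hl⟩ := hodd
  set s := ∑ v ∈ Finset.univ.filter (fun v => x v = 0), y v with hs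
  have h1 : s = 2 * (((l : ℤ) + 1 - (p : ℤ) : ℤ) : ℝ) := by
    rw [hsum', Finset.card_univ, hl] at hp
    push_cast at hp ⊢
    linarith
  have h2 : ((l : ℤ) + 1 - (p : ℤ) : ℤ) = 0 := by
    rw [h1, abs_le] at hy3
    have h3 : (-1 : ℝ) < (((l : ℤ) + 1 - (p : ℤ) : ℤ) : ℝ) := by linarith [hy3.1]
    have h4 : (((l : ℤ) + 1 - (p : ℤ) : ℤ) : ℝ) < 1 := by linarith [hy3.2]
    have h3' : (-1 : ℤ) < (l : ℤ) + 1 - (p : ℤ) := by exact_mod_cast h3
    have h4' : (l : ℤ) + 1 - (p : ℤ) < 1 := by exact_mod_cast h4
    omega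
  have h3 : s = 0 := by rw [h1, h2]; simp
  have := h y hval (by rw [hsum', h3]; norm_num)
  linarith

/-- Most vertices of the independent set have exactly the same neighbourhood. -/
lemma hub_exact {G : SimpleGraph V} {d : ℝ} (hS : Sur G d) (S I0 I1 : Finset V)
    (h01 : Disjoint S I0) (h02 : Disjoint S I1) (h12 : Disjoint I0 I1)
    (hcard : S.card = I0.card) (hpos : 0 < I1.card)
    (hind1 : ∀ u ∈ I1, ∀ v ∈ I1, ¬ G.Adj u v) (hind2 : ∀ u ∈ I0, ∀ v ∈ I1, ¬ G.Adj u v) :
    ∃ X J : Finset V, X ⊆ S ∧ J ⊆ I1 ∧ (∀ j ∈ J, ∀ u ∈ S, (G.Adj u j ↔ u ∈ X)) ∧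
      (I1.card : ℝ) - J.card ≤ 9 / 5 * d := by
  let eS : S ≃ Fin S.card := S.equivFin
  let eI : I0 ≃ Fin S.card := I0.equivFinOfCardEq hcard.symm
  have : NeZero I1.card := ⟨hpos.ne'⟩
  have hck : Fintype.card I1 = Fintype.card (ZMod I1.card) := by
    rw [ZMod.card, Fintype.card_coe]
  let eK : I1 ≃ ZMod I1.card := Fintype.equivOfCardEq hck
  let g : Fin S.card → V := fun i => (eS.symm i).1
  let h : Fin S.card → V := fun i => (eI.symm i).1
  let f : ZMod I1.card → V := fun i => (eK.symm i).1
  have hg : ∀ i, g i ∈ S := fun i => (eS.symm i).2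
  have hh : ∀ i, h i ∈ I0 := fun i => (eI.symm i).2
  have hf : ∀ i, f i ∈ I1 := fun i => (eK.symm i).2
  have hginj : Function.Injective g := fun i j hij => eS.symm.injective (Subtype.ext hij)
  have hhinj : Function.Injective h := fun i j hij => eI.symm.injective (Subtype.ext hij)
  have hfinj : Function.Injective f := fun i j hij => eK.symm.injective (Subtype.ext hij)
  have hinj : Function.Injective (Sum.elim g (Sum.elim h f)) := by
    intro a b hab
    rcases a with a | a | a <;> rcases b with b | b | b <;>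
      simp only [Sum.elim_inl, Sum.elim_inr] at hab
    · rw [hginj hab]
    · exact absurd (hab ▸ hh b) (Finset.disjoint_left.mp h01 (hg a))
    · exact absurd (hab ▸ hf b) (Finset.disjoint_left.mp h02 (hg a))
    · exact absurd (hab ▸ hh a) (Finset.disjoint_left.mp h01 (hg b))
    · rw [hhinj hab]
    · exact absurd (hab ▸ hf b) (Finset.disjoint_left.mp h12 (hh a))
    · exact absurd (hab ▸ hf a) (Finset.disjoint_left.mp h02 (hg b))
    · exact absurd (hab ▸ hf a) (Finset.disjoint_left.mp h12 (hh b))
    · rw [hfinj hab]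
  obtain ⟨a, ha⟩ := hub hS g h f hinj (fun a b => hind1 _ (hf a) _ (hf b))
    (fun s a => hind2 _ (hh s) _ (hf a))
  let X : Finset V := S.filter (fun u => G.Adj u (f a))
  let J : Finset V := I1.filter (fun j => ∀ u ∈ S, (G.Adj u j ↔ u ∈ X))
  refine ⟨X, J, Finset.filter_subset _ _, Finset.filter_subset _ _, ?_, ?_⟩
  · intro j hj
    exact (Finset.mem_filter.mp hj).2
  · -- count the exceptions
    have hsumf : ∑ b, (if f b ∈ J then (0 : ℝ) else 1) = (I1.card : ℝ) - J.card := by
      have h1 : ∑ b, (if f b ∈ J then (0 : ℝ) else 1) = ∑ v ∈ I1, (if v ∈ J then (0 : ℝ) else 1) := by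
        rw [← Finset.sum_coe_sort I1 (fun v => if v ∈ J then (0 : ℝ) else 1)]
        exact eK.symm.sum_comp (fun v : I1 => if (v : V) ∈ J then (0 : ℝ) else 1)
      rw [h1]
      have h2 : ∀ v ∈ I1, (if v ∈ J then (0 : ℝ) else 1) = 1 - (if v ∈ J then (1 : ℝ) else 0) := by
        intro v _; split_ifs <;> norm_num
      rw [Finset.sum_congr rfl h2, Finset.sum_sub_distrib, Finset.sum_boole]
      have h3 : I1.filter (fun v => v ∈ J) = J := by
        ext v; simp only [Finset.mem_filter]
        exact ⟨fun h => h.2, fun h => ⟨(Finset.mem_filter.mp h).1, h⟩⟩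
      rw [h3]; simp
    rw [← hsumf]
    refine le_trans (Finset.sum_le_sum fun b _ => ?_) ha
    by_cases hb : f b ∈ J
    · rw [if_pos hb]; exact Real.sqrt_nonneg _
    · rw [if_neg hb, Real.one_le_sqrt]
      -- some coordinate differs
      have : ∃ u ∈ S, ¬ (G.Adj u (f b) ↔ u ∈ X) := by
        by_contra hcon
        push Not at hcon
        exact hb (Finset.mem_filter.mpr ⟨hf b, hcon⟩)
      obtain ⟨u, huS, hu⟩ := this
      obtain ⟨i, hi⟩ : ∃ i, g i = u := ⟨eS ⟨u, huS⟩, by simp [g]⟩
      have hterm : (1 : ℝ) ≤ (A G (g i) (f a) - A G (g i) (f b)) ^ 2 := by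
        rw [hi]
        have hX : u ∈ X ↔ G.Adj u (f a) := by
          simp only [X, Finset.mem_filter]
          exact ⟨fun h => h.2, fun h => ⟨huS, h⟩⟩
        rw [hX] at hu
        unfold A
        by_cases h1 : G.Adj u (f a) <;> by_cases h2 : G.Adj u (f b)
        · exact absurd (iff_of_true h2 h1) hu
        · simp [h1, h2]
        · simp [h1, h2]
        · exact absurd (iff_of_false h2 h1) hu
      refine le_trans hterm ?_
      exact Finset.single_le_sum (f := fun s => (A G (g s) (f a) - A G (g s) (f b)) ^ 2)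
        (fun s _ => sq_nonneg _) (Finset.mem_univ i)

lemma B_e_left (G : SimpleGraph V) (i : V) (y : V → ℝ) : B G (e i) y = ∑ v, A G i v * y v := by
  rw [B_comm, B_e_right]
  refine Finset.sum_congr rfl fun v _ => by rw [A_comm]; ring

/-- The structural inequality. -/
lemma struct_ineq {G : SimpleGraph V} {d : ℝ} (hbal : Bal G d) (X J : Finset V)
    (hXJ : Disjoint X J) (hJ : ∀ j ∈ J, ∀ u, (G.Adj u j ↔ u ∈ X)) (σ : ℤ)
    (hσ : σ = 0 ∨ (σ = -1 ∧ Odd (Fintype.card V)))
    (hbig : Fintype.card V + 1 ≤ 2 * J.card)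
    (y : V → ℝ) (hyW : ∀ v, v ∉ X → v ∉ J → y v = -1 ∨ y v = 1)
    (hy0 : ∀ v, v ∈ X ∨ v ∈ J → y v = 0) :
    -(∑ u ∈ X, ∑ v ∈ X, A G u v) + 2 * (X.card : ℝ) ^ 2 - 2 * X.card * (σ : ℝ)
      + 2 * ∑ v ∈ (X ∪ J)ᶜ, y v * ((X.card : ℝ) - ∑ u ∈ X, A G u v) - B G y y ≤ d := by
  set W : Finset V := (X ∪ J)ᶜ with hW
  have hmemW : ∀ v, v ∈ W ↔ v ∉ X ∧ v ∉ J := by
    intro v; rw [hW, Finset.mem_compl, Finset.mem_union]; tauto
  obtain ⟨p, hpW, hp⟩ := sign_sum W y (fun v hv => hyW v ((hmemW v).mp hv).1 ((hmemW v).mp hv).2)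
  have hcards : X.card + J.card + W.card = Fintype.card V := by
    rw [hW, Finset.card_compl, Finset.card_union_of_disjoint hXJ]
    have : X.card + J.card ≤ Fintype.card V := by
      rw [← Finset.card_union_of_disjoint hXJ]; exact Finset.card_le_univ _
    omega
  -- the required sum on J
  set t : ℤ := σ - X.card - (W.card - 2 * p) with ht
  have htJ : t.natAbs ≤ J.card := by
    rcases hσ with h | ⟨h, _⟩ <;> rw [h] at ht <;> omega
  obtain ⟨J', hJ'sub, hJ'card⟩ := Finset.exists_subset_card_eq htJ
  let sg' : ℝ := if 0 ≤ t then 1 else -1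
  have hnat : (t.natAbs : ℝ) = |(t : ℝ)| := by
    rw [Nat.cast_natAbs, Int.cast_abs]
  have hsg : sg' * (t.natAbs : ℝ) = (t : ℝ) := by
    rw [hnat]
    simp only [sg']
    split_ifs with h
    · rw [one_mul, abs_of_nonneg (by exact_mod_cast h)]
    · have h' : (t : ℝ) ≤ 0 := by
        have : t ≤ 0 := by omega
        exact_mod_cast this
      rw [abs_of_nonpos h']; ring
  have hsgc : sg' = -1 ∨ sg' = 1 := by simp only [sg']; split_ifs <;> simp
  let x : V → ℝ := ind X + (y + sg' • ind J')
  have hxval : ∀ v, x v = (if v ∈ X then 1 else 0) + (y v + sg' * (if v ∈ J' then 1 else 0)) := by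
    intro v; simp [x, ind_apply]
  have hPA : PA x := by
    intro v
    rw [hxval]
    by_cases h1 : v ∈ X
    · have h2 : v ∉ J' := fun h => Finset.disjoint_left.mp hXJ h1 (hJ'sub h)
      have h3 := hy0 v (Or.inl h1)
      simp [h1, h2, h3]
    · by_cases h2 : v ∈ J
      · have h3 := hy0 v (Or.inr h2)
        by_cases h4 : v ∈ J'
        · rw [if_neg h1, if_pos h4, h3]
          rcases hsgc with h | h <;> rw [h] <;> norm_num
        · simp [h1, h4, h3]
      · have h4 : v ∉ J' := fun h => h2 (hJ'sub h)
        rw [if_neg h1, if_neg h4]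
        rcases hyW v h1 h2 with h | h <;> rw [h] <;> norm_num
  have hysum : ∑ v, y v = ∑ v ∈ W, y v := by
    symm
    apply Finset.sum_subset (Finset.subset_univ _)
    intro v _ hv
    rw [hmemW] at hv
    apply hy0
    tauto
  have hxsum : ∑ v, x v = (σ : ℝ) := by
    simp only [hxval]
    rw [Finset.sum_add_distrib, Finset.sum_add_distrib, ← Finset.mul_sum, hysum, hp]
    have h1 : ∑ v : V, (if v ∈ X then (1 : ℝ) else 0) = X.card := by simp
    have h2 : ∑ v : V, (if v ∈ J' then (1 : ℝ) else 0) = J'.card := by simp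
    rw [h1, h2, hJ'card, hsg, ht]
    push_cast; ring
  have hle : -(B G x x) ≤ d := by
    rcases hσ with h | ⟨h, hodd⟩
    · apply sur_of_bal hbal x hPA
      rw [hxsum, h]; simp
    · apply odd_sur hbal hodd x hPA
      rw [hxsum, h]; simp
  -- expand
  have hXJ' : B G (ind X) (ind J') = (X.card : ℝ) * t.natAbs := by
    rw [B_ind_ind]
    have : ∀ u ∈ X, ∑ v ∈ J', A G u v = (t.natAbs : ℝ) := by
      intro u hu
      rw [Finset.sum_congr rfl (fun v hv => by
        have := (hJ v (hJ'sub hv) u).mpr hu
        simp [A, this] : ∀ v ∈ J', A G u v = 1)]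
      simp [hJ'card]
    rw [Finset.sum_congr rfl this]
    simp
  have hyJ' : B G y (ind J') = 0 := by
    unfold ind
    rw [map_sum]
    apply Finset.sum_eq_zero
    intro j hj
    rw [B_e_right]
    apply Finset.sum_eq_zero
    intro u _
    by_cases hu : u ∈ X
    · rw [hy0 u (Or.inl hu)]; ring
    · have : ¬ G.Adj u j := fun h => hu ((hJ j (hJ'sub hj) u).mp h)
      simp [A, this]
  have hJJ' : B G (ind J') (ind J') = 0 := by
    apply B_ind_self_of_indep
    intro u hu v hv h
    have h1 := (hJ v (hJ'sub hv) u).mp h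
    exact Finset.disjoint_left.mp hXJ h1 (hJ'sub hu)
  have hXy : B G (ind X) y = ∑ v ∈ W, y v * ∑ u ∈ X, A G u v := by
    unfold ind
    rw [map_sum, LinearMap.sum_apply]
    simp only [B_e_left]
    rw [Finset.sum_comm]
    have h1 : ∀ v, ∑ u ∈ X, A G u v * y v = y v * ∑ u ∈ X, A G u v := by
      intro v; rw [Finset.mul_sum]; exact Finset.sum_congr rfl fun u _ => by ring
    simp only [h1]
    symm
    apply Finset.sum_subset (Finset.subset_univ _)
    intro v _ hv
    rw [hmemW] at hv
    have : v ∈ X ∨ v ∈ J := by tauto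
    rw [hy0 v this, zero_mul]
  have hBx : B G x x = B G (ind X) (ind X) + 2 * (B G (ind X) y + sg' * B G (ind X) (ind J'))
      + (B G y y + 2 * (sg' * B G y (ind J')) + sg' * (sg' * B G (ind J') (ind J'))) := by
    simp only [x]
    rw [B_add_add, B_add_add]
    simp only [map_add, map_smul, LinearMap.smul_apply, smul_eq_mul]
  rw [hBx, hyJ', hJJ', hXJ', hXy, B_ind_ind] at hle
  have hW1 : ∑ v ∈ W, y v * ((X.card : ℝ) - ∑ u ∈ X, A G u v)
      = (X.card : ℝ) * ∑ v ∈ W, y v - ∑ v ∈ W, y v * ∑ u ∈ X, A G u v := by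
    rw [Finset.mul_sum, ← Finset.sum_sub_distrib]
    exact Finset.sum_congr rfl fun v _ => by ring
  rw [hW1, hp]
  have h5 : sg' * ((X.card : ℝ) * t.natAbs) = (X.card : ℝ) * (t : ℝ) := by
    rw [← hsg]; ring
  rw [h5] at hle
  have h6 : (t : ℝ) = (σ : ℝ) - X.card - ((W.card : ℝ) - 2 * p) := by
    rw [ht]; push_cast; ring
  rw [h6] at hle
  nlinarith [hle]

end Pool.Agent.Lib.MP_279640_co
end
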