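import Mathlib
import Pool.Agent.Lib.MP_279640_co.Structure
import Pool.Agent.Lib.MP_279640_co.Defs2
import Pool.Agent.Lib.MP_279640_co.Bridge

section

set_option autoImplicit false
set_option linter.unusedSectionVars false
open scoped Classical
open Finset

namespace Pool.Agent.Lib.MP_279640_co

lemma four_E (r : ℝ) : 4 * E r = 2 * r + (Real.sqrt (8 * r + 1) - 1) / 2 := by
  unfold E
  have h : r / 8 + 1 / 64 = (8 * r + 1) / 8 ^ 2 := by ring
  rw [h, Real.sqrt_div' _ (by norm_num), Real.sqrt_sq (by norm_num)]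
  ring

variable {V : Type} [Fintype V]

/-- Edwards' bound inside a vertex subset. -/
lemma edwards_on (G : SimpleGraph V) (W : Finset V) (m : ℝ)
    (hm : ∑ u ∈ W, ∑ v ∈ W, A G u v = 2 * m) :
    ∃ x : V → ℝ, (∀ v ∈ W, x v = -1 ∨ x v = 1) ∧ (∀ v, v ∉ W → x v = 0) ∧
      (Real.sqrt (8 * m + 1) - 1) / 2 ≤ -(B G x x) := by
  let G' : SimpleGraph V :=
    { Adj := fun u v => (u ∈ W ∧ v ∈ W) ∧ G.Adj u v
      symm := ⟨fun u v h => ⟨⟨h.1.2, h.1.1⟩, h.2.symm⟩⟩
      loopless := ⟨fun v h => G.loopless.irrefl v h.2⟩ }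
  have hA : ∀ u v, A G' u v = (if u ∈ W then 1 else 0) * (A G u v * (if v ∈ W then 1 else 0)) := by
    intro u v
    unfold A
    simp only [G']
    by_cases h1 : u ∈ W <;> by_cases h2 : v ∈ W <;> by_cases h3 : G.Adj u v <;>
      simp [h1, h2, h3]
  have hsum : ∑ u, ∑ v, A G' u v = 2 * m := by
    rw [← hm]
    simp only [hA]
    have h1 : ∀ u, ∑ v, (if u ∈ W then (1 : ℝ) else 0) * (A G u v * (if v ∈ W then 1 else 0))
        = if u ∈ W then ∑ v ∈ W, A G u v else 0 := by
      intro u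
      rw [← Finset.mul_sum]
      have : ∑ v, A G u v * (if v ∈ W then (1 : ℝ) else 0) = ∑ v ∈ W, A G u v := by
        simp [Finset.sum_ite_mem]
      rw [this]
      split_ifs <;> simp
    simp only [h1]
    simp [Finset.sum_ite_mem]
  obtain ⟨x, hx, hB⟩ := edwards G' m hsum
  let y : V → ℝ := fun v => if v ∈ W then x v else 0
  refine ⟨y, ?_, ?_, ?_⟩
  · intro v hv; simp only [y, if_pos hv]; exact hx v
  · intro v hv; simp [y, hv]
  · have : B G' x x = B G y y := by
      rw [B_apply, B_apply]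
      refine Finset.sum_congr rfl fun u _ => Finset.sum_congr rfl fun v _ => ?_
      rw [hA]
      simp only [y]
      by_cases h1 : u ∈ W <;> by_cases h2 : v ∈ W <;> simp [h1, h2]
    rw [← this]; exact hB

/-- Counting the edges in the hub structure. -/
lemma hub_count {G : SimpleGraph V} (X J : Finset V) (hXJ : Disjoint X J)
    (hJ : ∀ j ∈ J, ∀ u, (G.Adj u j ↔ u ∈ X)) :
    ∑ u, ∑ v, A G u v = ∑ u ∈ X, ∑ v ∈ X, A G u v + 2 * ((X.card : ℝ) * J.card)
      + 2 * ∑ v ∈ (X ∪ J)ᶜ, ∑ u ∈ X, A G u v + ∑ u ∈ (X ∪ J)ᶜ, ∑ v ∈ (X ∪ J)ᶜ, A G u v := by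
  set W : Finset V := (X ∪ J)ᶜ with hW
  have hmemW : ∀ v, v ∈ W ↔ v ∉ X ∧ v ∉ J := by
    intro v; rw [hW, Finset.mem_compl, Finset.mem_union]; tauto
  have hsplit : ∀ F : V → ℝ, ∑ v, F v = ∑ v ∈ X, F v + ∑ v ∈ J, F v + ∑ v ∈ W, F v := by
    intro F
    rw [← Finset.sum_union hXJ, hW, Finset.sum_add_sum_compl]
  have hAJ : ∀ j ∈ J, ∀ u, A G u j = if u ∈ X then 1 else 0 := by
    intro j hj u
    unfold A
    by_cases h : u ∈ X
    · rw [if_pos h, if_pos ((hJ j hj u).mpr h)]
    · rw [if_neg h, if_neg (fun h' => h ((hJ j hj u).mp h'))]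
  have hXJs : ∑ u ∈ X, ∑ v ∈ J, A G u v = (X.card : ℝ) * J.card := by
    have : ∀ u ∈ X, ∑ v ∈ J, A G u v = (J.card : ℝ) := by
      intro u hu
      rw [Finset.sum_congr rfl (fun v hv => by rw [hAJ v hv u, if_pos hu] :
        ∀ v ∈ J, A G u v = 1)]
      simp
    rw [Finset.sum_congr rfl this]; simp
  have hJXs : ∑ u ∈ J, ∑ v ∈ X, A G u v = (X.card : ℝ) * J.card := by
    rw [Finset.sum_comm, ← hXJs]
    refine Finset.sum_congr rfl fun u _ => Finset.sum_congr rfl fun v _ => A_comm G _ _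
  have hnotJ : ∀ u ∈ W, ∀ v ∈ J, A G u v = 0 := by
    intro u hu v hv
    rw [hAJ v hv u, if_neg ((hmemW u).mp hu).1]
  have hJJ : ∑ u ∈ J, ∑ v ∈ J, A G u v = 0 := by
    apply Finset.sum_eq_zero; intro u hu
    apply Finset.sum_eq_zero; intro v hv
    rw [hAJ v hv u, if_neg (Finset.disjoint_right.mp hXJ hu)]
  have hJW : ∑ u ∈ J, ∑ v ∈ W, A G u v = 0 := by
    apply Finset.sum_eq_zero; intro u hu
    apply Finset.sum_eq_zero; intro v hv
    rw [A_comm]; exact hnotJ v hv u hu
  have hWJ : ∑ u ∈ W, ∑ v ∈ J, A G u v = 0 := by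
    apply Finset.sum_eq_zero; intro u hu
    apply Finset.sum_eq_zero; intro v hv
    exact hnotJ u hu v hv
  have hWX : ∑ u ∈ W, ∑ v ∈ X, A G u v = ∑ v ∈ W, ∑ u ∈ X, A G u v := by
    refine Finset.sum_congr rfl fun u _ => Finset.sum_congr rfl fun v _ => A_comm G _ _
  have hXW : ∑ u ∈ X, ∑ v ∈ W, A G u v = ∑ v ∈ W, ∑ u ∈ X, A G u v := Finset.sum_comm
  have e1 : ∀ u, ∑ v, A G u v = ∑ v ∈ X, A G u v + ∑ v ∈ J, A G u v + ∑ v ∈ W, A G u v :=
    fun u => hsplit _
  simp only [e1]
  rw [hsplit]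
  simp only [Finset.sum_add_distrib]
  rw [hXJs, hJXs, hJJ, hJW, hWJ, hWX, hXW]
  ring

lemma ED_mono {r s : ℝ} (h : r ≤ s) :
    (Real.sqrt (8 * r + 1) - 1) / 2 ≤ (Real.sqrt (8 * s + 1) - 1) / 2 := by
  have := Real.sqrt_le_sqrt (show 8 * r + 1 ≤ 8 * s + 1 by linarith)
  linarith

/-- Lower bound from the hub structure. -/
lemma hub_lower {G : SimpleGraph V} {d : ℝ} (hbal : Bal G d) (m : ℕ)
    (hm : ∑ u, ∑ v, A G u v = 2 * (m : ℝ)) (X J : Finset V)
    (hXJ : Disjoint X J) (hJ : ∀ j ∈ J, ∀ u, (G.Adj u j ↔ u ∈ X))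
    (hbig : Fintype.card V + 1 ≤ 2 * J.card) :
    4 * ((X.card : ℝ) * (((Fintype.card V + 1) / 2 : ℕ) : ℝ) +
      E ((m - hubEdges (Fintype.card V) X.card : ℕ) : ℝ)) ≤ 2 * m + d := by
  set n := Fintype.card V with hn
  set a := X.card with ha
  set W : Finset V := (X ∪ J)ᶜ with hW
  have hmemW : ∀ v, v ∈ W ↔ v ∉ X ∧ v ∉ J := by
    intro v; rw [hW, Finset.mem_compl, Finset.mem_union]; tauto
  have hcards : a + J.card + W.card = n := by
    rw [hW, Finset.card_compl, Finset.card_union_of_disjoint hXJ]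
    have : X.card + J.card ≤ Fintype.card V := by
      rw [← Finset.card_union_of_disjoint hXJ]; exact Finset.card_le_univ _
    omega
  have han : a ≤ n := by omega
  have hcardsR : (a : ℝ) + J.card + W.card = n := by exact_mod_cast hcards
  -- the parity shift
  obtain ⟨σ, hσ, hσn⟩ : ∃ σ : ℤ, (σ = 0 ∨ (σ = -1 ∧ Odd n)) ∧
      2 * (((n + 1) / 2 : ℕ) : ℝ) = (n : ℝ) - σ := by
    rcases Nat.even_or_odd n with h | h
    · refine ⟨0, Or.inl rfl, ?_⟩
      obtain ⟨k, hk⟩ := h
      have : (n + 1) / 2 = k := by omega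
      rw [this, hk]; push_cast; ring
    · refine ⟨-1, Or.inr ⟨rfl, h⟩, ?_⟩
      obtain ⟨k, hk⟩ := h
      have : (n + 1) / 2 = k + 1 := by omega
      rw [this, hk]; push_cast; ring
  have hcount := hub_count X J hXJ hJ
  rw [hm] at hcount
  set XX := ∑ u ∈ X, ∑ v ∈ X, A G u v with hXX
  set WW := ∑ u ∈ W, ∑ v ∈ W, A G u v with hWW
  have hXXle : XX ≤ (a : ℝ) ^ 2 - a := by
    have h1 : ∀ u ∈ X, ∑ v ∈ X, A G u v ≤ (a : ℝ) - 1 := by
      intro u hu
      rw [← Finset.sum_erase_add X _ hu, A_self, add_zero]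
      calc ∑ v ∈ X.erase u, A G u v ≤ ∑ v ∈ X.erase u, (1 : ℝ) :=
            Finset.sum_le_sum fun v _ => A_le_one G u v
        _ = (a : ℝ) - 1 := by
            rw [Finset.sum_const, Finset.card_erase_of_mem hu, nsmul_eq_mul, mul_one,
              Nat.cast_sub (Finset.card_pos.mpr ⟨u, hu⟩)]
            simp [ha]
    calc XX ≤ ∑ u ∈ X, ((a : ℝ) - 1) := Finset.sum_le_sum h1
      _ = _ := by rw [Finset.sum_const, nsmul_eq_mul]; ring
  have hh : ∑ v ∈ W, ((a : ℝ) - ∑ u ∈ X, A G u v) = a * W.card - ∑ v ∈ W, ∑ u ∈ X, A G u v := by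
    rw [Finset.sum_sub_distrib, Finset.sum_const, nsmul_eq_mul]; ring
  have hh0 : ∀ v, 0 ≤ (a : ℝ) - ∑ u ∈ X, A G u v := by
    intro v
    have : ∑ u ∈ X, A G u v ≤ ∑ u ∈ X, (1 : ℝ) := Finset.sum_le_sum fun u _ => A_le_one G u v
    rw [Finset.sum_const, nsmul_eq_mul, mul_one] at this
    linarith
  have hHsum : 0 ≤ ∑ v ∈ W, ((a : ℝ) - ∑ u ∈ X, A G u v) := Finset.sum_nonneg fun v _ => hh0 v
  -- the number of hub edges
  have hM : ((hubEdges n a : ℕ) : ℝ) = a * (n - a) + a * (a - 1) / 2 := by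
    unfold hubEdges
    push_cast
    rw [Nat.cast_choose_two, Nat.cast_sub han]
  rcases Nat.lt_or_ge m (hubEdges n a) with hlt | hge
  · -- all ones on W
    have h0 : m - hubEdges n a = 0 := by omega
    rw [h0]
    have hs := struct_ineq hbal X J hXJ hJ σ hσ (by rw [← hn]; exact hbig) (ind W)
      (fun v h1 h2 => by
        right; rw [ind_apply, if_pos ((hmemW v).mpr ⟨h1, h2⟩)])
      (fun v h => by
        rw [ind_apply, if_neg]
        intro h'
        have := (hmemW v).mp h'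
        tauto)
    rw [← hW, B_ind_ind] at hs
    have hs1 : ∑ v ∈ W, ind W v * ((X.card : ℝ) - ∑ u ∈ X, A G u v)
        = ∑ v ∈ W, ((a : ℝ) - ∑ u ∈ X, A G u v) := by
      refine Finset.sum_congr rfl fun v hv => ?_
      rw [ind_apply, if_pos hv, one_mul]
    rw [hs1, hh] at hs
    have hE0 : 4 * E ((0 : ℕ) : ℝ) = 0 := by rw [four_E]; simp
    have : 4 * ((a : ℝ) * (((n + 1) / 2 : ℕ) : ℝ) + E ((0 : ℕ) : ℝ))
        = 2 * a * ((n : ℝ) - σ) := by
      rw [mul_add, hE0, ← hσn]; ring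
    rw [this]
    rw [← ha] at hs
    have hJr : (J.card : ℝ) = n - a - W.card := by linarith
    rw [hJr] at hcount
    nlinarith
  · -- Edwards' bound on W
    have hr : ((m - hubEdges n a : ℕ) : ℝ) = m - (a * (n - a) + a * (a - 1) / 2) := by
      rw [Nat.cast_sub hge, hM]
    obtain ⟨y, hy1, hy2, hy3⟩ := edwards_on G W (WW / 2) (by rw [← hWW]; ring)
    -- choose the sign
    obtain ⟨s, hs, hs'⟩ : ∃ s : ℝ, (s = -1 ∨ s = 1) ∧
        0 ≤ s * ∑ v ∈ W, y v * ((a : ℝ) - ∑ u ∈ X, A G u v) := by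
      rcases le_total 0 (∑ v ∈ W, y v * ((a : ℝ) - ∑ u ∈ X, A G u v)) with h | h
      · exact ⟨1, Or.inr rfl, by linarith⟩
      · exact ⟨-1, Or.inl rfl, by linarith⟩
    have hs2 := struct_ineq hbal X J hXJ hJ σ hσ (by rw [← hn]; exact hbig) (s • y)
      (fun v h1 h2 => by
        have := hy1 v ((hmemW v).mpr ⟨h1, h2⟩)
        rcases hs with h | h <;> rcases this with h' | h' <;> simp [h, h'])
      (fun v h => by
        have : v ∉ W := by
          intro h'
          have := (hmemW v).mp h'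
          tauto
        simp [hy2 v this])
    have hBs : B G (s • y) (s • y) = B G y y := by
      simp only [map_smul, LinearMap.smul_apply, smul_eq_mul]
      have : s * s = 1 := by rcases hs with h | h <;> rw [h] <;> norm_num
      rw [← mul_assoc, this, one_mul]
    have hsy : ∑ v ∈ W, (s • y) v * ((X.card : ℝ) - ∑ u ∈ X, A G u v)
        = s * ∑ v ∈ W, y v * ((a : ℝ) - ∑ u ∈ X, A G u v) := by
      rw [Finset.mul_sum]
      refine Finset.sum_congr rfl fun v _ => ?_
      simp only [Pi.smul_apply, smul_eq_mul]; ring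
    rw [← hW, hBs, hsy, ← ha] at hs2
    have hJr : (J.card : ℝ) = n - a - W.card := by linarith
    rw [hJr] at hcount
    have hWWr : (m : ℝ) - (a * (n - a) + a * (a - 1) / 2) ≤ WW / 2 := by
      nlinarith
    have hED := ED_mono hWWr
    rw [hr, mul_add, four_E]
    have : 4 * ((a : ℝ) * (((n + 1) / 2 : ℕ) : ℝ)) = 2 * a * ((n : ℝ) - σ) := by
      rw [← hσn]; ring
    rw [this]
    nlinarith

/-- The exact lower bound when `n ≥ 12 √m`. -/
theorem lower_exact {G : SimpleGraph V} {d : ℝ} (hbal : Bal G d) (m : ℕ)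
    (hm : ∑ u, ∑ v, A G u v = 2 * (m : ℝ)) (hm1 : 1 ≤ m)
    (hn : 12 * Real.sqrt m ≤ Fintype.card V) :
    ∃ a ≤ Fintype.card V, 4 * ((a : ℝ) * (((Fintype.card V + 1) / 2 : ℕ) : ℝ) +
      E ((m - hubEdges (Fintype.card V) a : ℕ) : ℝ)) ≤ 2 * m + d := by
  set n := Fintype.card V with hndef
  rcases le_or_gt ((Real.sqrt (8 * m + 1) - 1) / 2) d with hd | hd
  · refine ⟨0, Nat.zero_le _, ?_⟩
    have h0 : hubEdges n 0 = 0 := by simp [hubEdges]
    rw [h0, mul_add, four_E]
    simp only [Nat.cast_zero, zero_mul, mul_zero, zero_add, Nat.sub_zero]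
    linarith
  · -- structure
    have hm1' : (1 : ℝ) ≤ m := by exact_mod_cast hm1
    have hsm : 1 ≤ Real.sqrt (m : ℝ) := by rw [Real.one_le_sqrt]; exact hm1'
    have hsm2 : Real.sqrt (m : ℝ) ^ 2 = m := Real.sq_sqrt (by linarith)
    have hdlt : d < 1415 / 1000 * Real.sqrt m := by
      have h1 : Real.sqrt (8 * m + 1) ≤ 2830 / 1000 * Real.sqrt m + 1 := by
        rw [Real.sqrt_le_left (by positivity)]
        nlinarith
      linarith
    obtain ⟨S, hSd, hind⟩ := matching_bound (sur_of_bal hbal)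
    have hScard : (S.card : ℝ) < 1415 / 1000 * Real.sqrt m := by linarith
    set I : Finset V := Sᶜ with hI
    have hIcard : I.card + S.card = n := by
      rw [hI, Finset.card_compl]
      have : S.card ≤ n := Finset.card_le_univ _
      omega
    have hIind : ∀ u ∈ I, ∀ v ∈ I, ¬ G.Adj u v := by
      intro u hu v hv
      exact hind u (by simpa [hI] using hu) v (by simpa [hI] using hv)
    have hSn : 2 * S.card < n := by
      have : (2 : ℝ) * S.card < n := by linarith
      exact_mod_cast this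
    obtain ⟨I0, hI0sub, hI0card⟩ := Finset.exists_subset_card_eq
      (s := I) (n := S.card) (by omega)
    set I1 : Finset V := I \ I0 with hI1
    have hI1card : I1.card = n - 2 * S.card := by
      rw [hI1, Finset.card_sdiff_of_subset hI0sub, hI0card]; omega
    have hdSI : Disjoint S I := by rw [hI]; exact disjoint_compl_right
    have hI1sub : I1 ⊆ I := Finset.sdiff_subset
    obtain ⟨X, J, hXS, hJI, hXJ, hJcard⟩ := hub_exact (sur_of_bal hbal) S I0 I1
      (Finset.disjoint_of_subset_right hI0sub hdSI)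
      (Finset.disjoint_of_subset_right hI1sub hdSI)
      (by rw [hI1]; exact Finset.disjoint_sdiff) hI0card.symm (by omega)
      (fun u hu v hv => hIind u (hI1sub hu) v (hI1sub hv))
      (fun u hu v hv => hIind u (hI0sub hu) v (hI1sub hv))
    have hI1r : (I1.card : ℝ) = n - 2 * S.card := by
      rw [hI1card, Nat.cast_sub (by omega)]; push_cast; ring
    have hbig : n + 1 ≤ 2 * J.card := by
      have : (n : ℝ) + 1 ≤ 2 * J.card := by
        rw [hI1r] at hJcard
        nlinarith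
      exact_mod_cast this
    refine ⟨X.card, Finset.card_le_univ _, ?_⟩
    have hJ2 : ∀ j ∈ J, ∀ u, (G.Adj u j ↔ u ∈ X) := by
      intro j hj u
      by_cases hu : u ∈ S
      · exact hXJ j hj u hu
      · constructor
        · intro h
          exact absurd h (hind u hu j (by
            have := hI1sub (hJI hj)
            simpa [hI] using this))
        · intro h; exact absurd (hXS h) hu
    have hdisj : Disjoint X J :=
      Finset.disjoint_of_subset_left hXS
        (Finset.disjoint_of_subset_right (hJI.trans hI1sub) hdSI)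
    exact hub_lower hbal m hm X J hdisj hJ2 hbig

end Pool.Agent.Lib.MP_279640_co
end

section

section

set_option autoImplicit false
set_option linter.unusedSectionVars false
open scoped Classical
open Finset

namespace Pool.Agent.Lib.MP_279640_co

variable {V : Type} [Fintype V]

/-- `G` has a matching with `k` edges. -/
def HasMatch (G : SimpleGraph V) (k : ℕ) : Prop :=
  ∃ g h : Fin k → V, Function.Injective (Sum.elim g h) ∧ ∀ i, G.Adj (g i) (h i)

lemma hasMatch_of {G : SimpleGraph V} {ι : Type} [Fintype ι] (g h : ι → V)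
    (hinj : Function.Injective (Sum.elim g h)) (hadj : ∀ i, G.Adj (g i) (h i)) :
    HasMatch G (Fintype.card ι) := by
  let e := Fintype.equivFin ι
  refine ⟨g ∘ e.symm, h ∘ e.symm, ?_, fun i => hadj _⟩
  have : Sum.elim (g ∘ e.symm) (h ∘ e.symm) = Sum.elim g h ∘ (Sum.map e.symm e.symm) := by
    funext x; rcases x with x | x <;> rfl
  rw [this]
  exact hinj.comp (Function.Injective.sumMap e.symm.injective e.symm.injective)

lemma exists_max_match (G : SimpleGraph V) : ∃ ν, HasMatch G ν ∧ ¬ HasMatch G (ν + 1) := by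
  have h0 : HasMatch G 0 := ⟨Fin.elim0, Fin.elim0, fun x => by
    rcases x with x | x <;> exact x.elim0, fun i => i.elim0⟩
  have hex : ∃ k, ¬ HasMatch G k := by
    refine ⟨Fintype.card V + 1, ?_⟩
    rintro ⟨g, h, hinj, _⟩
    have h1 := Fintype.card_le_of_injective _ hinj
    rw [Fintype.card_sum, Fintype.card_fin] at h1
    omega
  have hk := Nat.find_spec hex
  have hkpos : Nat.find hex ≠ 0 := by
    intro h
    rw [h] at hk
    exact hk h0
  obtain ⟨ν, hν⟩ := Nat.exists_eq_succ_of_ne_zero hkpos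
  refine ⟨ν, ?_, ?_⟩
  · by_contra hcon
    have := Nat.find_min' hex hcon
    omega
  · rw [hν] at hk; exact hk

/-- A maximum matching, oriented, together with an enumeration of the uncovered vertices. -/
lemma exists_structure (G : SimpleGraph V) :
    ∃ (ν : ℕ) (g h : Fin ν → V),
      Function.Injective (Sum.elim g h) ∧ (∀ i, G.Adj (g i) (h i)) ∧
      (∀ u, u ∉ Set.range (Sum.elim g h) → ∀ v, v ∉ Set.range (Sum.elim g h) → ¬ G.Adj u v) ∧
      (∀ i, ∀ b, b ∉ Set.range (Sum.elim g h) → G.Adj (h i) b → G.Adj (g i) b) ∧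
      (∀ i, ∀ b, b ∉ Set.range (Sum.elim g h) → ∀ b', b' ∉ Set.range (Sum.elim g h) →
        G.Adj (h i) b → G.Adj (h i) b' → b = b') := by
  obtain ⟨ν, ⟨g, h, hinj, hadj⟩, hmax⟩ := exists_max_match G
  have hg : Function.Injective g := fun i j hij => by
    have := @hinj (Sum.inl i) (Sum.inl j) hij
    simpa using this
  have hh : Function.Injective h := fun i j hij => by
    have := @hinj (Sum.inr i) (Sum.inr j) hij
    simpa using this
  have hgh : ∀ i j, g i ≠ h j := fun i j hij => by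
    have := @hinj (Sum.inl i) (Sum.inr j) hij
    simp at this
  have hnr : ∀ v, v ∉ Set.range (Sum.elim g h) ↔ (∀ i, g i ≠ v) ∧ (∀ i, h i ≠ v) := by
    intro v
    simp only [Set.mem_range, Sum.exists, Sum.elim_inl, Sum.elim_inr, not_or, not_exists, ne_eq]
  -- independence of the uncovered set
  have hindep : ∀ u, u ∉ Set.range (Sum.elim g h) → ∀ v, v ∉ Set.range (Sum.elim g h) →
      ¬ G.Adj u v := by
    intro u hu v hv huv
    rw [hnr] at hu hv
    apply hmax
    have := hasMatch_of (G := G) (ι := Fin ν ⊕ Unit) (Sum.elim g (fun _ => u))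
      (Sum.elim h (fun _ => v)) ?_ ?_
    · simpa using this
    · apply Function.Injective.sumElim
      · apply Function.Injective.sumElim hg (fun _ _ _ => rfl)
        intro i _; exact hu.1 i
      · apply Function.Injective.sumElim hh (fun _ _ _ => rfl)
        intro i _; exact hv.2 i
      · intro x y
        rcases x with x | x <;> rcases y with y | y <;> simp only [Sum.elim_inl, Sum.elim_inr]
        · exact hgh x y
        · exact hv.1 x
        · exact (hu.2 y).symm
        · exact G.ne_of_adj huv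
    · intro x
      rcases x with x | x
      · exact hadj x
      · exact huv
  -- no augmentation of length three
  have haug : ∀ i, ∀ w, w ∉ Set.range (Sum.elim g h) → ∀ w', w' ∉ Set.range (Sum.elim g h) →
      w ≠ w' → G.Adj (g i) w → G.Adj (h i) w' → False := by
    intro i w hw w' hw' hne h1 h2
    rw [hnr] at hw hw'
    apply hmax
    have := hasMatch_of (G := G) (ι := Fin ν ⊕ Unit) (Sum.elim g (fun _ => w'))
      (Sum.elim (Function.update h i w) (fun _ => h i)) ?_ ?_
    · simpa using this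
    · apply Function.Injective.sumElim
      · apply Function.Injective.sumElim hg (fun _ _ _ => rfl)
        intro j _; exact hw'.1 j
      · apply Function.Injective.sumElim
        · intro j k hjk
          by_cases hj : j = i <;> by_cases hk : k = i
          · rw [hj, hk]
          · rw [hj, Function.update_self, Function.update_of_ne hk] at hjk
            exact absurd hjk.symm (hw.2 k)
          · rw [hk, Function.update_self, Function.update_of_ne hj] at hjk
            exact absurd hjk (hw.2 j)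
          · rw [Function.update_of_ne hj, Function.update_of_ne hk] at hjk
            exact hh hjk
        · exact fun _ _ _ => rfl
        · intro j _
          by_cases hj : j = i
          · rw [hj, Function.update_self]; exact (hw.2 i).symm
          · rw [Function.update_of_ne hj]; exact fun h' => hj (hh h')
      · intro x y
        rcases x with x | x <;> rcases y with y | y <;> simp only [Sum.elim_inl, Sum.elim_inr]
        · by_cases hj : y = i
          · rw [hj, Function.update_self]; exact hw.1 x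
          · rw [Function.update_of_ne hj]; exact hgh x y
        · exact hgh x i
        · by_cases hj : y = i
          · rw [hj, Function.update_self]; exact hne.symm
          · rw [Function.update_of_ne hj]; exact (hw'.2 y).symm
        · exact (hw'.2 i).symm
    · intro x
      rcases x with x | x
      · simp only [Sum.elim_inl]
        by_cases hj : x = i
        · rw [hj, Function.update_self]; exact h1
        · rw [Function.update_of_ne hj]; exact hadj x
      · exact h2.symm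
  -- orientation
  let sw : Fin ν → Prop := fun i =>
    (∃ b, b ∉ Set.range (Sum.elim g h) ∧ G.Adj (h i) b) ∧
      ¬ ∃ b, b ∉ Set.range (Sum.elim g h) ∧ G.Adj (g i) b
  let g' : Fin ν → V := fun i => if sw i then h i else g i
  let h' : Fin ν → V := fun i => if sw i then g i else h i
  let π : Fin ν ⊕ Fin ν → Fin ν ⊕ Fin ν := Sum.elim (fun i => if sw i then Sum.inr i else Sum.inl i)
    (fun i => if sw i then Sum.inl i else Sum.inr i)
  have hπ : Function.Involutive π := by
    intro x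
    rcases x with x | x <;> simp only [π, Sum.elim_inl, Sum.elim_inr] <;> by_cases hx : sw x <;>
      simp [hx]
  have hcomp : Sum.elim g' h' = Sum.elim g h ∘ π := by
    funext x
    rcases x with x | x <;> simp only [π, g', h', Function.comp, Sum.elim_inl, Sum.elim_inr] <;>
      by_cases hx : sw x <;> simp [hx]
  have hrange : Set.range (Sum.elim g' h') = Set.range (Sum.elim g h) := by
    rw [hcomp, hπ.surjective.range_comp]
  refine ⟨ν, g', h', ?_, ?_, ?_, ?_, ?_⟩
  · rw [hcomp]; exact hinj.comp hπ.injective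
  · intro i
    simp only [g', h']
    by_cases hi : sw i
    · rw [if_pos hi, if_pos hi]; exact (hadj i).symm
    · rw [if_neg hi, if_neg hi]; exact hadj i
  · rw [hrange]; exact hindep
  · intro i b hb hadjb
    rw [hrange] at hb
    simp only [g', h'] at hadjb ⊢
    by_cases hi : sw i
    · rw [if_pos hi] at hadjb
      exact absurd ⟨b, hb, hadjb⟩ hi.2
    · rw [if_neg hi] at hadjb ⊢
      have : ∃ b, b ∉ Set.range (Sum.elim g h) ∧ G.Adj (g i) b := by
        by_contra hcon
        exact hi ⟨⟨b, hb, hadjb⟩, hcon⟩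
      obtain ⟨b', hb', hadj'⟩ := this
      by_cases hbb : b' = b
      · rw [← hbb]; exact hadj'
      · exact (haug i b' hb' b hb hbb hadj' hadjb).elim
  · intro i b hb b' hb' hadjb hadjb'
    rw [hrange] at hb hb'
    simp only [h'] at hadjb hadjb'
    by_cases hi : sw i
    · rw [if_pos hi] at hadjb
      exact absurd ⟨b, hb, hadjb⟩ hi.2
    · rw [if_neg hi] at hadjb hadjb'
      have : ∃ b, b ∉ Set.range (Sum.elim g h) ∧ G.Adj (g i) b := by
        by_contra hcon
        exact hi ⟨⟨b, hb, hadjb⟩, hcon⟩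
      obtain ⟨c, hc, hadjc⟩ := this
      by_contra hne
      by_cases hcb : c = b
      · exact haug i c hc b' hb' (by rw [hcb]; exact hne) hadjc hadjb'
      · exact haug i c hc b hb hcb hadjc hadjb

end Pool.Agent.Lib.MP_279640_co
end

section

set_option autoImplicit false
set_option linter.unusedSectionVars false
open scoped Classical
open Finset

namespace Pool.Agent.Lib.MP_279640_co

variable {V : Type} [Fintype V]

/-- The difference of the adjacencies of the two ends of a matching edge to `f b`. -/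
noncomputable def pp {ι κ : Type} (G : SimpleGraph V) (g h : ι → V) (f : κ → V) (s : ι) (b : κ) : ℝ :=
  A G (g s) (f b) - A G (h s) (f b)

/-- Squared distance of the difference vectors. -/
noncomputable def gap2 {ι κ : Type} [Fintype ι] (G : SimpleGraph V) (g h : ι → V) (f : κ → V)
    (a b : κ) : ℝ := ∑ s, (pp G g h f s a - pp G g h f s b) ^ 2

lemma fine2 {G : SimpleGraph V} {d : ℝ} (hS : Sur G d) {ι κ : Type} [Fintype ι] [Fintype κ]
    (g h : ι → V) (f : κ → V) (hinj : Function.Injective (Sum.elim g (Sum.elim h f)))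
    (hadj : ∀ s, G.Adj (g s) (h s))
    (hind1 : ∀ a b, ¬ G.Adj (f a) (f b))
    (τ : κ → κ) (hτ : ∀ a, τ (τ a) = a) :
    (5 / 9 : ℝ) * ∑ a, Real.sqrt (gap2 G g h f a (τ a)) ≤ d - 2 * Fintype.card ι := by
  have hτb : Function.Bijective τ := (Function.Involutive.bijective hτ)
  let hv : ι → V → ℝ := fun s => e (g s) - e (h s)
  let z : Finset ι → V → ℝ := fun T => Z Finset.univ T hv
  let F : Finset ι → κ → ℝ := fun T a => B G (z T) (e (f a))
  -- the main inequality for each sign pattern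
  have main : ∀ T : Finset ι, -(B G (z T) (z T)) + ∑ a, |F T a - F T (τ a)| ≤ d := by
    intro T
    let ω : κ → ℝ := fun a => sgn (F T (τ a) - F T a)
    let w : V → ℝ := push f ω
    have hx : push (Sum.elim g (Sum.elim h f)) (Sum.elim (sg T) (Sum.elim (fun s => - sg T s) ω))
        = z T + w := by
      unfold push
      simp only [Fintype.sum_sum_type, Sum.elim_inl, Sum.elim_inr, z, Z, hv, w, push]
      rw [← add_assoc, ← Finset.sum_add_distrib]
      congr 1
      refine Finset.sum_congr rfl fun s _ => ?_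
      rw [neg_smul, smul_sub]; ring
    have hωτ : ∀ a, ω (τ a) = - ω a := by
      intro a
      simp only [ω]
      rw [hτ a, ← sgn_neg]
      congr 1; ring
    have hsumω : ∑ a, ω a = 0 := by
      have h1 : ∑ a, ω (τ a) = ∑ a, ω a := Function.Bijective.sum_comp hτb ω
      have h2 : ∑ a, ω (τ a) = - ∑ a, ω a := by
        rw [← Finset.sum_neg_distrib]
        exact Finset.sum_congr rfl fun a _ => hωτ a
      linarith
    have hPA : PA (z T + w) := by
      rw [← hx]
      apply push_PA hinj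
      intro j
      rcases j with s | s | a
      · rcases sg_cases T s with h' | h' <;> simp [h']
      · rcases sg_cases T s with h' | h' <;> simp [h']
      · simpa using sgn_cases _
    have hsum : ∑ v, (z T + w) v = 0 := by
      rw [← hx, push_sum]
      simp [Fintype.sum_sum_type, hsumω]
    have hle := hS _ hPA hsum
    rw [B_add_add] at hle
    have hww : B G w w = 0 := by
      simp only [w]
      rw [B_push_right]
      apply Finset.sum_eq_zero
      intro b _
      rw [B_push_left]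
      have : ∑ a, ω a * B G (e (f a)) (e (f b)) = 0 := by
        apply Finset.sum_eq_zero
        intro a _
        rw [B_e_e]
        simp [A, hind1 a b]
      rw [this, mul_zero]
    have hzw : B G (z T) w = -(1 / 2) * ∑ a, |F T a - F T (τ a)| := by
      simp only [w]
      rw [B_push_right]
      have h1 : ∑ a, ω a * B G (z T) (e (f a)) = ∑ a, ω a * F T a := rfl
      have h2 : ∑ a, ω a * F T a = ∑ a, -(ω a * F T (τ a)) := by
        rw [← Function.Bijective.sum_comp hτb (fun a => ω a * F T a)]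
        refine Finset.sum_congr rfl fun a _ => ?_
        rw [hωτ a]; ring
      have h3 : ∀ a, ω a * (F T a - F T (τ a)) = -|F T a - F T (τ a)| := by
        intro a
        simp only [ω]
        have h4 : F T (τ a) - F T a = -(F T a - F T (τ a)) := by ring
        rw [h4, sgn_neg]
        have h5 := sgn_mul_self (F T a - F T (τ a))
        linarith
      have h6 : 2 * ∑ a, ω a * F T a = -∑ a, |F T a - F T (τ a)| := by
        have : 2 * ∑ a, ω a * F T a = ∑ a, ω a * F T a + ∑ a, -(ω a * F T (τ a)) := by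
          rw [← h2]; ring
        rw [this, ← Finset.sum_add_distrib, ← Finset.sum_neg_distrib]
        refine Finset.sum_congr rfl fun a _ => ?_
        rw [← h3 a]; ring
      rw [h1]; linarith
    rw [hww, hzw] at hle
    linarith
  -- average
  have havg : ∑ T ∈ (Finset.univ : Finset ι).powerset,
      (-(B G (z T) (z T)) + ∑ a, |F T a - F T (τ a)|) ≤ 2 ^ (Fintype.card ι) * d := by
    calc _ ≤ ∑ T ∈ (Finset.univ : Finset ι).powerset, d :=
          Finset.sum_le_sum fun T _ => main T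
      _ = _ := by
          rw [Finset.sum_const, Finset.card_powerset, Finset.card_univ, nsmul_eq_mul]; push_cast; rfl
  rw [Finset.sum_add_distrib, Finset.sum_neg_distrib] at havg
  have hform : ∑ T ∈ (Finset.univ : Finset ι).powerset, B G (z T) (z T)
      = 2 ^ (Fintype.card ι) * (-(2 * (Fintype.card ι : ℝ))) := by
    simp only [z]
    rw [moment_form, Finset.card_univ]
    congr 1
    have : ∀ s : ι, B G (hv s) (hv s) = -2 := by
      intro s
      simp only [hv, map_sub, LinearMap.sub_apply, B_e_e, A_self]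
      have h1 : A G (g s) (h s) = 1 := by simp [A, hadj s]
      have h2 : A G (h s) (g s) = 1 := by rw [A_comm]; exact h1
      rw [h1, h2]; norm_num
    simp only [this]
    rw [Finset.sum_const, Finset.card_univ, nsmul_eq_mul]; ring
  have habs : ∀ a, (5 / 9 : ℝ) * 2 ^ (Fintype.card ι) * Real.sqrt (gap2 G g h f a (τ a)) ≤
      ∑ T ∈ (Finset.univ : Finset ι).powerset, |F T a - F T (τ a)| := by
    intro a
    have h1 : ∀ T, F T a - F T (τ a)
        = L Finset.univ T (fun s => pp G g h f s a - pp G g h f s (τ a)) := by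
      intro T
      simp only [F, z]
      rw [B_Z_left, B_Z_left]
      unfold L
      rw [← Finset.sum_sub_distrib]
      refine Finset.sum_congr rfl fun s _ => ?_
      simp only [hv, map_sub, LinearMap.sub_apply, B_e_e, pp]
      ring
    simp only [h1]
    have := khinchine (Finset.univ : Finset ι)
      (fun s => pp G g h f s a - pp G g h f s (τ a))
    rw [Finset.card_univ] at this
    exact this
  have hswap : ∑ T ∈ (Finset.univ : Finset ι).powerset, ∑ a, |F T a - F T (τ a)|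
      = ∑ a, ∑ T ∈ (Finset.univ : Finset ι).powerset, |F T a - F T (τ a)| := Finset.sum_comm
  rw [hswap, hform] at havg
  have h7 : ∑ a, (5 / 9 : ℝ) * 2 ^ (Fintype.card ι) * Real.sqrt (gap2 G g h f a (τ a)) ≤
      2 ^ (Fintype.card ι) * (d - 2 * Fintype.card ι) := by
    calc _ ≤ ∑ a, ∑ T ∈ (Finset.univ : Finset ι).powerset, |F T a - F T (τ a)| :=
          Finset.sum_le_sum fun a _ => habs a
      _ ≤ _ := by linarith
  rw [← Finset.mul_sum] at h7
  have hp : (0 : ℝ) < 2 ^ (Fintype.card ι) := by positivity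
  have h8 : 2 ^ (Fintype.card ι) * ((5 / 9 : ℝ) * ∑ a, Real.sqrt (gap2 G g h f a (τ a)))
      ≤ 2 ^ (Fintype.card ι) * (d - 2 * Fintype.card ι) := by
    calc _ = (5 / 9 : ℝ) * 2 ^ (Fintype.card ι) * ∑ a, Real.sqrt (gap2 G g h f a (τ a)) := by ring
      _ ≤ _ := h7
  exact le_of_mul_le_mul_left h8 hp

lemma hub2 {G : SimpleGraph V} {d : ℝ} (hS : Sur G d) {ι κ : Type} [Fintype ι] [Fintype κ]
    [AddCommGroup κ]
    (g h : ι → V) (f : κ → V) (hinj : Function.Injective (Sum.elim g (Sum.elim h f)))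
    (hadj : ∀ s, G.Adj (g s) (h s))
    (hind1 : ∀ a b, ¬ G.Adj (f a) (f b)) :
    ∃ a : κ, ∑ b, Real.sqrt (gap2 G g h f a b) ≤ 9 / 5 * (d - 2 * Fintype.card ι) := by
  by_contra hcon
  push Not at hcon
  have h1 : ∀ s : κ, ∑ a, Real.sqrt (gap2 G g h f a (s - a)) ≤
      9 / 5 * (d - 2 * Fintype.card ι) := by
    intro s
    have := fine2 hS g h f hinj hadj hind1 (fun a => s - a) (fun a => by abel)
    linarith
  have h2 : ∑ s : κ, ∑ a, Real.sqrt (gap2 G g h f a (s - a))
      = ∑ a, ∑ b, Real.sqrt (gap2 G g h f a b) := by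
    rw [Finset.sum_comm]
    refine Finset.sum_congr rfl fun a _ => ?_
    exact (Equiv.subRight a).sum_comp (fun b => Real.sqrt (gap2 G g h f a b))
  have h3 : ∑ s : κ, ∑ a, Real.sqrt (gap2 G g h f a (s - a)) ≤
      ∑ s : κ, 9 / 5 * (d - 2 * Fintype.card ι) :=
    Finset.sum_le_sum fun s _ => h1 s
  have h4 : ∑ s : κ, 9 / 5 * (d - 2 * Fintype.card ι)
      < ∑ a, ∑ b, Real.sqrt (gap2 G g h f a b) := by
    apply Finset.sum_lt_sum_of_nonempty Finset.univ_nonempty
    intro a _
    exact hcon a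
  rw [← h2] at h4
  exact absurd h3 (not_le.mpr h4)

/-- Signs for a family of disjoint edges, chosen one after the other. -/
lemma greedy_pairs (G : SimpleGraph V) {ι : Type} (g h : ι → V) (hadj : ∀ s, G.Adj (g s) (h s))
    (x : V → ℝ) (Q : Finset ι) : ∃ ε : ι → ℝ, (∀ i, ε i = -1 ∨ ε i = 1) ∧
      B G (x + ∑ i ∈ Q, ε i • (e (g i) - e (h i))) (x + ∑ i ∈ Q, ε i • (e (g i) - e (h i)))
        ≤ B G x x - 2 * Q.card := by
  induction Q using Finset.induction_on with
  | empty => exact ⟨fun _ => 1, fun _ => Or.inr rfl, by simp⟩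
  | insert i Q hi ih =>
    obtain ⟨ε, hε, hB⟩ := ih
    set y := x + ∑ i ∈ Q, ε i • (e (g i) - e (h i)) with hy
    obtain ⟨s, hs, hs'⟩ : ∃ s : ℝ, (s = -1 ∨ s = 1) ∧
        s * (B G y (e (g i)) - B G y (e (h i))) ≤ 0 := by
      rcases le_total 0 (B G y (e (g i)) - B G y (e (h i))) with h | h
      · exact ⟨-1, Or.inl rfl, by linarith⟩
      · exact ⟨1, Or.inr rfl, by linarith⟩
    refine ⟨Function.update ε i s, ?_, ?_⟩
    · intro j
      by_cases hj : j = i
      · rw [hj, Function.update_self]; exact hs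
      · rw [Function.update_of_ne hj]; exact hε j
    · have hsum : ∑ j ∈ insert i Q, Function.update ε i s j • (e (g j) - e (h j))
          = s • (e (g i) - e (h i)) + ∑ j ∈ Q, ε j • (e (g j) - e (h j)) := by
        rw [Finset.sum_insert hi, Function.update_self]
        congr 1
        refine Finset.sum_congr rfl fun j hj => ?_
        have hne : j ≠ i := fun h' => hi (by rw [← h']; exact hj)
        rw [Function.update_of_ne hne]
      have hx : x + ∑ j ∈ insert i Q, Function.update ε i s j • (e (g j) - e (h j))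
          = y + s • (e (g i) - e (h i)) := by
        rw [hsum, hy]; abel
      rw [hx, B_add_add]
      simp only [map_smul, LinearMap.smul_apply, smul_eq_mul, map_sub, LinearMap.sub_apply,
        B_e_e, A_self]
      have h1 : A G (g i) (h i) = 1 := by simp [A, hadj i]
      have h2 : A G (h i) (g i) = 1 := by rw [A_comm]; exact h1
      rw [h1, h2, Finset.card_insert_of_notMem hi]
      have hs2 : s * s = 1 := by rcases hs with hs | hs <;> rw [hs] <;> norm_num
      push_cast
      nlinarith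

end Pool.Agent.Lib.MP_279640_co
end

section

set_option autoImplicit false
set_option linter.unusedSectionVars false
open scoped Classical
open Finset

namespace Pool.Agent.Lib.MP_279640_co

variable {V : Type} [Fintype V]

lemma dense_arith {R d ν α ι β γ η xy D0 : ℝ} (hR : 240 ≤ R) (hd : d < R - 240)
    (hD0 : D0 = d - 2 * ν) (hD0n : 0 ≤ D0) (hν0 : 0 ≤ ν) (h1 : R ^ 2 ≤ 4 * ν ^ 2 + 2 * η)
    (h2 : η ≤ α * ι + γ + 2 * ν) (h3 : γ ≤ Real.sqrt ν * (9 / 5 * D0))
    (h4 : β ^ 2 * (α * ι - γ) ≤ α * ι * xy) (h5 : 2 * xy - β ^ 2 - 2 * β ≤ D0)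
    (hαν : α ≤ ν) (hι : ι ≤ 849 / 100 * R) (hβ : β = α ∨ β = ι) (hα0 : 0 ≤ α) (hι0 : 0 ≤ ι) :
    False := by
  have hR0 : 0 < R := by linarith
  have hνR : 2 * ν < R := by linarith
  have hsq : Real.sqrt ν * (9 / 5) ≤ 83 / 1000 * R := by
    have : Real.sqrt ν ≤ 83 / 1000 * R * (5 / 9) := by
      rw [Real.sqrt_le_iff]
      refine ⟨by positivity, ?_⟩
      nlinarith
    linarith
  have hγ : γ ≤ 83 / 1000 * R * D0 := by
    calc γ ≤ Real.sqrt ν * (9 / 5 * D0) := h3
      _ = (Real.sqrt ν * (9 / 5)) * D0 := by ring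
      _ ≤ _ := mul_le_mul_of_nonneg_right hsq hD0n
  set T := R - 2 * ν with hT
  have hT0 : 240 < T := by linarith
  have hDT : D0 + 240 < T := by linarith
  have hη : T * R / 2 ≤ η := by
    have : R ^ 2 - 4 * ν ^ 2 = T * (R + 2 * ν) := by rw [hT]; ring
    nlinarith
  have hRT : 240 * R ≤ T * R := by nlinarith
  have hRD : R * D0 ≤ T * R := by nlinarith
  have hαι : 412 / 1000 * (T * R) ≤ α * ι := by
    have : 83 / 1000 * R * D0 ≤ 83 / 1000 * (T * R) := by linarith
    nlinarith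
  have hTR0 : 0 < T * R := by positivity
  have hαι0 : 0 < α * ι := by linarith
  have hγ2 : γ ≤ 202 / 1000 * (α * ι) := by
    have : 83 / 1000 * R * D0 ≤ 83 / 1000 * (T * R) := by linarith
    linarith
  have hxy : 798 / 1000 * β ^ 2 ≤ xy := by
    have h6 : β ^ 2 * (798 / 1000 * (α * ι)) ≤ α * ι * xy := by
      refine le_trans (mul_le_mul_of_nonneg_left ?_ (sq_nonneg β)) h4
      linarith
    have h7 : α * ι * (798 / 1000 * β ^ 2) ≤ α * ι * xy := by
      calc α * ι * (798 / 1000 * β ^ 2) = β ^ 2 * (798 / 1000 * (α * ι)) := by ring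
        _ ≤ _ := h6
    exact le_of_mul_le_mul_left h7 hαι0
  have hD : 596 / 1000 * β ^ 2 - 2 * β ≤ D0 := by linarith
  rcases hβ with h | h
  · -- β = α
    have h8 : α * ι ≤ α * (849 / 100 * R) := mul_le_mul_of_nonneg_left hι hα0
    have h9 : R * (412 / 1000 * T) ≤ R * (849 / 100 * α) := by
      calc R * (412 / 1000 * T) = 412 / 1000 * (T * R) := by ring
        _ ≤ α * (849 / 100 * R) := le_trans hαι h8
        _ = _ := by ring
    have h10 : 412 / 1000 * T ≤ 849 / 100 * α := le_of_mul_le_mul_left h9 hR0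
    rw [h] at hD
    nlinarith [sq_nonneg (α - 19)]
  · -- β = ι
    have h8 : α * ι ≤ (R / 2) * ι := mul_le_mul_of_nonneg_right (by linarith) hι0
    have h9 : R * (412 / 1000 * T) ≤ R * (ι / 2) := by
      calc R * (412 / 1000 * T) = 412 / 1000 * (T * R) := by ring
        _ ≤ (R / 2) * ι := le_trans hαι h8
        _ = _ := by ring
    have h10 : 412 / 1000 * T ≤ ι / 2 := le_of_mul_le_mul_left h9 hR0
    rw [h] at hD
    have h11 : 100 ≤ ι := by linarith
    have h12 : 100 * ι ≤ ι ^ 2 := by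
      rw [sq]; exact mul_le_mul_of_nonneg_right h11 hι0
    linarith

/-- The form of the difference of two sums of unit vectors. -/
lemma B_diff (G : SimpleGraph V) {ι κ : Type} (g : ι → V) (f : κ → V) (P : Finset ι)
    (Y : Finset κ) :
    B G ((∑ s ∈ P, e (g s)) - ∑ b ∈ Y, e (f b)) ((∑ s ∈ P, e (g s)) - ∑ b ∈ Y, e (f b))
      = ∑ s ∈ P, ∑ t ∈ P, A G (g s) (g t) - 2 * ∑ b ∈ Y, ∑ s ∈ P, A G (g s) (f b)
        + ∑ b ∈ Y, ∑ c ∈ Y, A G (f b) (f c) := by
  simp only [map_sub, LinearMap.sub_apply, map_sum, LinearMap.sum_apply, B_e_e,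
    Finset.sum_sub_distrib]
  have e2 : ∑ s ∈ P, ∑ b ∈ Y, A G (f b) (g s) = ∑ b ∈ Y, ∑ s ∈ P, A G (g s) (f b) := by
    rw [Finset.sum_comm]
    refine Finset.sum_congr rfl fun u _ => Finset.sum_congr rfl fun v _ => A_comm G _ _
  have e3 : ∑ x ∈ P, ∑ y ∈ P, A G (g y) (g x) = ∑ s ∈ P, ∑ t ∈ P, A G (g s) (g t) :=
    Finset.sum_comm
  have e4 : ∑ x ∈ Y, ∑ y ∈ Y, A G (f y) (f x) = ∑ b ∈ Y, ∑ c ∈ Y, A G (f b) (f c) :=
    Finset.sum_comm
  have e5 : ∑ b ∈ Y, ∑ s ∈ P, A G (g s) (f b) = ∑ b ∈ Y, ∑ s ∈ P, A G (g s) (f b) := rfl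
  rw [e2, e3, e4]; ring

/-- The test vector as a push-forward. -/
lemma test_push {ι κ : Type} [Fintype ι] [Fintype κ] (g h : ι → V) (f : κ → V) (P : Finset ι)
    (Y : Finset κ) (ε : ι → ℝ) (Q : Finset ι) (hQ : Q = Pᶜ) :
    push (Sum.elim g (Sum.elim h f))
      (Sum.elim (fun s => if s ∈ P then 1 else ε s)
        (Sum.elim (fun s => if s ∈ P then 0 else -ε s) (fun b => if b ∈ Y then -1 else 0)))
      = ((∑ s ∈ P, e (g s)) - ∑ b ∈ Y, e (f b)) + ∑ i ∈ Q, ε i • (e (g i) - e (h i)) := by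
  rw [hQ]
  unfold push
  simp only [Fintype.sum_sum_type, Sum.elim_inl, Sum.elim_inr]
  have e1 : ∑ s, (if s ∈ P then (1 : ℝ) else ε s) • (e (g s) : V → ℝ)
      = ∑ s ∈ P, e (g s) + ∑ s ∈ Pᶜ, ε s • e (g s) := by
    rw [← Finset.sum_add_sum_compl P]
    congr 1
    · exact Finset.sum_congr rfl fun s hs => by rw [if_pos hs, one_smul]
    · exact Finset.sum_congr rfl fun s hs => by rw [if_neg (Finset.mem_compl.mp hs)]
  have e2 : ∑ s, (if s ∈ P then (0 : ℝ) else -ε s) • (e (h s) : V → ℝ)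
      = -∑ s ∈ Pᶜ, ε s • e (h s) := by
    rw [← Finset.sum_add_sum_compl P, ← Finset.sum_neg_distrib]
    have : ∑ s ∈ P, (if s ∈ P then (0 : ℝ) else -ε s) • (e (h s) : V → ℝ) = 0 :=
      Finset.sum_eq_zero fun s hs => by rw [if_pos hs, zero_smul]
    rw [this, zero_add]
    exact Finset.sum_congr rfl fun s hs => by rw [if_neg (Finset.mem_compl.mp hs), neg_smul]
  have e3 : ∑ b, (if b ∈ Y then (-1 : ℝ) else 0) • (e (f b) : V → ℝ) = -∑ b ∈ Y, e (f b) := by
    rw [← Finset.sum_add_sum_compl Y, ← Finset.sum_neg_distrib]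
    have : ∑ b ∈ Yᶜ, (if b ∈ Y then (-1 : ℝ) else 0) • (e (f b) : V → ℝ) = 0 :=
      Finset.sum_eq_zero fun s hs => by rw [if_neg (Finset.mem_compl.mp hs), zero_smul]
    rw [this, add_zero]
    exact Finset.sum_congr rfl fun s hs => by rw [if_pos hs, neg_smul, one_smul]
  rw [e1, e2, e3]
  simp only [smul_sub, Finset.sum_sub_distrib]
  abel

lemma test_sum {ι κ : Type} [Fintype ι] [Fintype κ] (P : Finset ι)
    (Y : Finset κ) (ε : ι → ℝ) (hc : P.card = Y.card) :
    ∑ j, (Sum.elim (fun s => if s ∈ P then (1 : ℝ) else ε s)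
        (Sum.elim (fun s => if s ∈ P then 0 else -ε s) (fun b => if b ∈ Y then -1 else 0)) j) = 0 := by
  simp only [Fintype.sum_sum_type, Sum.elim_inl, Sum.elim_inr]
  rw [← add_assoc, ← Finset.sum_add_distrib]
  have e1 : ∀ s, ((if s ∈ P then (1 : ℝ) else ε s) + if s ∈ P then 0 else -ε s)
      = if s ∈ P then 1 else 0 := by
    intro s; split_ifs <;> ring
  simp only [e1]
  have e2 : ∑ b, (if b ∈ Y then (-1 : ℝ) else 0) = -(Y.card : ℝ) := by
    rw [← Finset.sum_add_sum_compl Y]
    have : ∑ b ∈ Yᶜ, (if b ∈ Y then (-1 : ℝ) else 0) = 0 :=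
      Finset.sum_eq_zero fun s hs => by rw [if_neg (Finset.mem_compl.mp hs)]
    rw [this, Finset.sum_congr rfl (fun s hs => if_pos hs :
      ∀ s ∈ Y, (if s ∈ Y then (-1 : ℝ) else 0) = -1)]
    simp
  rw [e2, Finset.sum_boole, Finset.filter_univ_mem, hc]
  ring

lemma test_vals {ι κ : Type} (P : Finset ι) (Y : Finset κ) (ε : ι → ℝ)
    (hε : ∀ i, ε i = -1 ∨ ε i = 1) (j : ι ⊕ (ι ⊕ κ)) :
    (Sum.elim (fun s => if s ∈ P then (1 : ℝ) else ε s)
        (Sum.elim (fun s => if s ∈ P then 0 else -ε s) (fun b => if b ∈ Y then -1 else 0)) j) = -1 ∨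
    (Sum.elim (fun s => if s ∈ P then (1 : ℝ) else ε s)
        (Sum.elim (fun s => if s ∈ P then 0 else -ε s) (fun b => if b ∈ Y then -1 else 0)) j) = 0 ∨
    (Sum.elim (fun s => if s ∈ P then (1 : ℝ) else ε s)
        (Sum.elim (fun s => if s ∈ P then 0 else -ε s) (fun b => if b ∈ Y then -1 else 0)) j) = 1 := by
  rcases j with j | j | j
  · simp only [Sum.elim_inl]
    split_ifs
    · simp
    · rcases hε j with h' | h' <;> simp [h']
  · simp only [Sum.elim_inr, Sum.elim_inl]
    split_ifs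
    · simp
    · rcases hε j with h' | h' <;> simp [h']
  · simp only [Sum.elim_inr]
    split_ifs <;> simp

lemma A_sq' (G : SimpleGraph V) (u v : V) : A G u v ^ 2 = A G u v := by
  rcases A_cases G u v with h | h <;> rw [h] <;> norm_num

/-- The lower bound in the dense range. -/
theorem lower_dense {G : SimpleGraph V} {d : ℝ} (hS : Sur G d) (m : ℝ) (hm0 : 0 ≤ m)
    (hm : ∑ u, ∑ v, A G u v = 2 * m) (hn : (Fintype.card V : ℝ) ≤ 12 * Real.sqrt m) :
    Real.sqrt (2 * m) - 240 ≤ d := by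
  have hd0 : 0 ≤ d := by
    have := hS 0 (fun v => Or.inr (Or.inl rfl)) (by simp)
    simpa using this
  by_contra hcon
  push Not at hcon
  set R := Real.sqrt (2 * m) with hR
  have hR240 : 240 ≤ R := by linarith
  have hR2 : R ^ 2 = 2 * m := Real.sq_sqrt (by linarith)
  obtain ⟨ν, g, h, hinj0, hadj, hindep, hA1, hA2⟩ := exists_structure G
  set I : Finset V := Finset.univ.filter (fun v => v ∉ Set.range (Sum.elim g h)) with hI
  have hmemI : ∀ v, v ∈ I ↔ v ∉ Set.range (Sum.elim g h) := by intro v; simp [hI]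
  rcases Nat.eq_zero_or_pos I.card with hI0 | hIpos
  · -- no uncovered vertex
    have hsurj : Function.Surjective (Sum.elim g h) := by
      intro v
      by_contra hv
      have : v ∈ I := (hmemI v).mpr (by rintro ⟨x, hx⟩; exact hv ⟨x, hx⟩)
      rw [Finset.card_eq_zero.mp hI0] at this
      simp at this
    have hcard : Fintype.card V = 2 * ν := by
      have := Fintype.card_of_bijective (⟨hinj0, hsurj⟩ : Function.Bijective (Sum.elim g h))
      rw [Fintype.card_sum, Fintype.card_fin] at this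
      omega
    obtain ⟨ε, hε, hB⟩ := greedy_pairs G g h hadj 0 Finset.univ
    have hx : push (Sum.elim g h) (Sum.elim ε (fun i => -ε i))
        = 0 + ∑ i ∈ Finset.univ, ε i • (e (g i) - e (h i)) := by
      unfold push
      simp only [Fintype.sum_sum_type, Sum.elim_inl, Sum.elim_inr]
      rw [zero_add, ← Finset.sum_add_distrib]
      refine Finset.sum_congr rfl fun s _ => ?_
      rw [neg_smul, smul_sub]; ring
    rw [← hx] at hB
    have hle := hS _ (push_PA hinj0 (c := Sum.elim ε (fun i => -ε i)) (by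
      intro j
      rcases j with j | j <;> rcases hε j with h' | h' <;> simp [h'])) (by
      rw [push_sum]; simp [Fintype.sum_sum_type])
    have hνd : 2 * (ν : ℝ) ≤ d := by
      have h0 : B G (0 : V → ℝ) (0 : V → ℝ) = 0 := by simp
      rw [h0, Finset.card_univ, Fintype.card_fin] at hB
      linarith
    have h2m : 2 * m ≤ (2 * (ν : ℝ)) ^ 2 := by
      rw [← hm]
      have := sum_A_le G (Finset.univ : Finset V) Finset.univ
      rw [Finset.card_univ, hcard] at this
      push_cast at this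
      calc _ ≤ _ := this
        _ = _ := by ring
    have : R ≤ 2 * ν := by
      rw [hR, Real.sqrt_le_left (by positivity)]; exact h2m
    linarith
  -- enumeration of the uncovered vertices
  have : NeZero I.card := ⟨hIpos.ne'⟩
  have hck : Fintype.card I = Fintype.card (ZMod I.card) := by
    rw [ZMod.card, Fintype.card_coe]
  let eK : I ≃ ZMod I.card := Fintype.equivOfCardEq hck
  let f : ZMod I.card → V := fun i => (eK.symm i).1
  have hf : ∀ i, f i ∈ I := fun i => (eK.symm i).2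
  have hfr : ∀ i, f i ∉ Set.range (Sum.elim g h) := fun i => (hmemI _).mp (hf i)
  have hfinj : Function.Injective f := fun i j hij => eK.symm.injective (Subtype.ext hij)
  have hg : Function.Injective g := fun i j hij => by
    have := @hinj0 (Sum.inl i) (Sum.inl j) hij
    simpa using this
  have hh : Function.Injective h := fun i j hij => by
    have := @hinj0 (Sum.inr i) (Sum.inr j) hij
    simpa using this
  have hgh : ∀ i j, g i ≠ h j := fun i j hij => by
    have := @hinj0 (Sum.inl i) (Sum.inr j) hij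
    simp at this
  have hinj : Function.Injective (Sum.elim g (Sum.elim h f)) := by
    apply Function.Injective.sumElim hg
    · apply Function.Injective.sumElim hh hfinj
      intro i b hib
      exact hfr b ⟨Sum.inr i, hib⟩
    · intro i x
      rcases x with x | x
      · exact hgh i x
      · intro hib
        exact hfr x ⟨Sum.inl i, hib⟩
  have hsurj : Function.Surjective (Sum.elim g (Sum.elim h f)) := by
    intro v
    by_cases hv : v ∈ Set.range (Sum.elim g h)
    · obtain ⟨x, hx⟩ := hv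
      rcases x with x | x
      · exact ⟨Sum.inl x, hx⟩
      · exact ⟨Sum.inr (Sum.inl x), hx⟩
    · refine ⟨Sum.inr (Sum.inr (eK ⟨v, (hmemI v).mpr hv⟩)), ?_⟩
      simp [f]
  have hsum : ∀ F : V → ℝ, ∑ v, F v = ∑ i, F (g i) + ∑ i, F (h i) + ∑ b, F (f b) := by
    intro F
    rw [← Function.Bijective.sum_comp ⟨hinj, hsurj⟩ F]
    simp only [Fintype.sum_sum_type, Sum.elim_inl, Sum.elim_inr]
    ring
  have hind1 : ∀ a b, ¬ G.Adj (f a) (f b) := fun a b => hindep _ (hfr a) _ (hfr b)
  have hff : ∀ a b, A G (f a) (f b) = 0 := by intro a b; simp [A, hind1 a b]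
  -- the difference vectors
  have hp01 : ∀ s b, pp G g h f s b = 0 ∨ pp G g h f s b = 1 := by
    intro s b
    unfold pp A
    by_cases h1 : G.Adj (h s) (f b)
    · rw [if_pos h1, if_pos (hA1 s _ (hfr b) h1)]; left; norm_num
    · rw [if_neg h1]; split_ifs
      · right; norm_num
      · left; norm_num
  have hple : ∀ s b, pp G g h f s b ≤ A G (g s) (f b) := by
    intro s b; unfold pp; linarith [A_nonneg G (h s) (f b)]
  -- the base point
  obtain ⟨a, ha⟩ := hub2 hS g h f hinj hadj hind1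
  rw [Fintype.card_fin] at ha
  set D0 := d - 2 * (ν : ℝ) with hD0
  have hD0n : 0 ≤ D0 := by
    have h1 : 0 ≤ ∑ b, Real.sqrt (gap2 G g h f a b) := Finset.sum_nonneg fun b _ => Real.sqrt_nonneg _
    linarith
  have hgap0 : ∀ b, 0 ≤ gap2 G g h f a b := fun b => Finset.sum_nonneg fun s _ => sq_nonneg _
  have hterm : ∀ s b, (pp G g h f s a - pp G g h f s b) ^ 2 = |pp G g h f s a - pp G g h f s b| := by
    intro s b
    rcases hp01 s a with h1 | h1 <;> rcases hp01 s b with h2 | h2 <;> rw [h1, h2] <;> norm_num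
  have hgapν : ∀ b, gap2 G g h f a b ≤ ν := by
    intro b
    unfold gap2
    calc ∑ s, (pp G g h f s a - pp G g h f s b) ^ 2 ≤ ∑ s : Fin ν, (1 : ℝ) := by
          apply Finset.sum_le_sum
          intro s _
          rcases hp01 s a with h1 | h1 <;> rcases hp01 s b with h2 | h2 <;> rw [h1, h2] <;> norm_num
      _ = ν := by simp
  set γ := ∑ b, gap2 G g h f a b with hγ
  have hγle : γ ≤ Real.sqrt ν * (9 / 5 * D0) := by
    calc γ = ∑ b, Real.sqrt (gap2 G g h f a b) * Real.sqrt (gap2 G g h f a b) := by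
          refine Finset.sum_congr rfl fun b _ => ?_
          rw [Real.mul_self_sqrt (hgap0 b)]
      _ ≤ ∑ b, Real.sqrt ν * Real.sqrt (gap2 G g h f a b) := by
          apply Finset.sum_le_sum
          intro b _
          exact mul_le_mul_of_nonneg_right (Real.sqrt_le_sqrt (hgapν b)) (Real.sqrt_nonneg _)
      _ = Real.sqrt ν * ∑ b, Real.sqrt (gap2 G g h f a b) := by rw [Finset.mul_sum]
      _ ≤ _ := mul_le_mul_of_nonneg_left ha (Real.sqrt_nonneg _)
  -- the hubs
  set P : Finset (Fin ν) := Finset.univ.filter (fun s => pp G g h f s a = 1) with hP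
  have hPsum : ∑ s, pp G g h f s a = P.card := by
    have : ∀ s, pp G g h f s a = if pp G g h f s a = 1 then 1 else 0 := by
      intro s
      rcases hp01 s a with h1 | h1 <;> rw [h1] <;> simp
    rw [Finset.sum_congr rfl (fun s _ => this s), Finset.sum_boole]
  have hup : ∀ b, ∑ s, pp G g h f s b ≤ P.card + gap2 G g h f a b := by
    intro b
    rw [← hPsum]
    unfold gap2
    rw [← Finset.sum_add_distrib]
    apply Finset.sum_le_sum
    intro s _
    rw [hterm]
    have := neg_abs_le (pp G g h f s a - pp G g h f s b)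
    linarith
  have hlow : ∀ b, (P.card : ℝ) - gap2 G g h f a b ≤ ∑ s ∈ P, pp G g h f s b := by
    intro b
    have h1 : ∑ s ∈ P, (pp G g h f s a - pp G g h f s b) ^ 2 ≤ gap2 G g h f a b :=
      Finset.sum_le_sum_of_subset_of_nonneg (Finset.subset_univ _) (fun s _ _ => sq_nonneg _)
    have h2 : (P.card : ℝ) = ∑ s ∈ P, pp G g h f s a := by
      rw [Finset.sum_congr rfl (fun s hs => (Finset.mem_filter.mp hs).2 :
        ∀ s ∈ P, pp G g h f s a = 1)]
      simp
    rw [h2]
    have h3 : ∑ s ∈ P, pp G g h f s a - ∑ s ∈ P, pp G g h f s b ≤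
        ∑ s ∈ P, (pp G g h f s a - pp G g h f s b) ^ 2 := by
      rw [← Finset.sum_sub_distrib]
      apply Finset.sum_le_sum
      intro s _
      rw [hterm]
      exact le_abs_self _
    linarith
  have hcardκ : (Finset.univ : Finset (ZMod I.card)).card = I.card := by
    rw [Finset.card_univ, ZMod.card]
  -- the number of edges between the matching and the uncovered vertices
  set η := ∑ x : Fin ν ⊕ Fin ν, ∑ b, A G (Sum.elim g h x) (f b) with hη
  have hη1 : η = ∑ b, ∑ s, pp G g h f s b + 2 * ∑ s, ∑ b, A G (h s) (f b) := by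
    rw [hη, Fintype.sum_sum_type]
    simp only [Sum.elim_inl, Sum.elim_inr]
    rw [Finset.sum_comm (f := fun b s => pp G g h f s b)]
    simp only [pp, Finset.sum_sub_distrib]
    ring
  have hhsum : ∀ s, ∑ b, A G (h s) (f b) ≤ 1 := by
    intro s
    by_cases hex : ∃ b, G.Adj (h s) (f b)
    · obtain ⟨b, hb⟩ := hex
      rw [Finset.sum_eq_single b]
      · exact A_le_one G _ _
      · intro b' _ hne
        have : ¬ G.Adj (h s) (f b') := fun h' =>
          hne (hfinj (hA2 s _ (hfr b') _ (hfr b) h' hb))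
        simp [A, this]
      · simp
    · push Not at hex
      have : ∑ b, A G (h s) (f b) = 0 := Finset.sum_eq_zero fun b _ => by simp [A, hex b]
      rw [this]; norm_num
  have hη2 : η ≤ (P.card : ℝ) * I.card + γ + 2 * ν := by
    have h1 : ∑ b, ∑ s, pp G g h f s b ≤ (P.card : ℝ) * I.card + γ := by
      calc ∑ b, ∑ s, pp G g h f s b ≤ ∑ b, ((P.card : ℝ) + gap2 G g h f a b) :=
            Finset.sum_le_sum fun b _ => hup b
        _ = _ := by
            rw [Finset.sum_add_distrib, Finset.sum_const, hcardκ, nsmul_eq_mul]; ring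
    have h2 : ∑ s, ∑ b, A G (h s) (f b) ≤ ν := by
      calc ∑ s, ∑ b, A G (h s) (f b) ≤ ∑ s : Fin ν, (1 : ℝ) :=
            Finset.sum_le_sum fun s _ => hhsum s
        _ = ν := by simp
    rw [hη1]; linarith
  have hcount : R ^ 2 ≤ 4 * (ν : ℝ) ^ 2 + 2 * η := by
    rw [hR2, ← hm]
    have hsum' : ∀ F : V → ℝ, ∑ v, F v = ∑ x : Fin ν ⊕ Fin ν, F (Sum.elim g h x) + ∑ b, F (f b) := by
      intro F
      rw [hsum F, Fintype.sum_sum_type]
      simp only [Sum.elim_inl, Sum.elim_inr]
    have h1 : ∀ u, ∑ v, A G u v = ∑ x : Fin ν ⊕ Fin ν, A G u (Sum.elim g h x) + ∑ b, A G u (f b) :=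
      fun u => hsum' _
    simp only [h1]
    rw [hsum']
    simp only [Finset.sum_add_distrib, hff, Finset.sum_const_zero, add_zero]
    have h2 : ∑ b, ∑ x : Fin ν ⊕ Fin ν, A G (f b) (Sum.elim g h x) = η := by
      rw [hη, Finset.sum_comm]
      refine Finset.sum_congr rfl fun x _ => Finset.sum_congr rfl fun b _ => A_comm G _ _
    rw [h2]
    have h3 : ∑ x : Fin ν ⊕ Fin ν, ∑ y : Fin ν ⊕ Fin ν, A G (Sum.elim g h x) (Sum.elim g h y)
        ≤ 4 * (ν : ℝ) ^ 2 := by
      calc _ ≤ ∑ x : Fin ν ⊕ Fin ν, ∑ y : Fin ν ⊕ Fin ν, (1 : ℝ) :=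
            Finset.sum_le_sum fun x _ => Finset.sum_le_sum fun y _ => A_le_one G _ _
        _ = _ := by
            simp only [Finset.sum_const, Finset.card_univ, Fintype.card_sum, Fintype.card_fin,
              nsmul_eq_mul, mul_one]
            push_cast; ring
    linarith
  -- choose the hubs and the leaves
  set β := min P.card I.card with hβ
  obtain ⟨P', hP'sub, hP'card, hP'sum⟩ :=
    exists_sub (fun s => ∑ b, A G (g s) (f b)) _ P rfl β (min_le_left _ _)
  obtain ⟨Y, hYsub, hYcard, hYsum⟩ :=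
    exists_sub (fun b => ∑ s ∈ P', A G (g s) (f b)) _ (Finset.univ : Finset (ZMod I.card)) rfl β
      (by rw [hcardκ]; exact min_le_right _ _)
  rw [hcardκ] at hYsum
  set xy := ∑ b ∈ Y, ∑ s ∈ P', A G (g s) (f b) with hxy
  have hPtot : (P.card : ℝ) * I.card - γ ≤ ∑ s ∈ P, ∑ b, A G (g s) (f b) := by
    calc (P.card : ℝ) * I.card - γ = ∑ b, ((P.card : ℝ) - gap2 G g h f a b) := by
          rw [Finset.sum_sub_distrib, Finset.sum_const, hcardκ, nsmul_eq_mul]; ring
      _ ≤ ∑ b, ∑ s ∈ P, pp G g h f s b := Finset.sum_le_sum fun b _ => hlow b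
      _ ≤ ∑ b, ∑ s ∈ P, A G (g s) (f b) :=
          Finset.sum_le_sum fun b _ => Finset.sum_le_sum fun s _ => hple s b
      _ = _ := Finset.sum_comm
  have h4 : (β : ℝ) ^ 2 * ((P.card : ℝ) * I.card - γ) ≤ (P.card : ℝ) * I.card * xy := by
    have hYsum' : (β : ℝ) * ∑ s ∈ P', ∑ b, A G (g s) (f b) ≤ (I.card : ℝ) * xy := by
      rw [Finset.sum_comm]; exact hYsum
    have hβ0 : (0 : ℝ) ≤ β := by positivity
    have hPc0 : (0 : ℝ) ≤ P.card := by positivity
    calc (β : ℝ) ^ 2 * ((P.card : ℝ) * I.card - γ)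
        ≤ (β : ℝ) ^ 2 * ∑ s ∈ P, ∑ b, A G (g s) (f b) :=
          mul_le_mul_of_nonneg_left hPtot (sq_nonneg _)
      _ = β * (β * ∑ s ∈ P, ∑ b, A G (g s) (f b)) := by ring
      _ ≤ β * ((P.card : ℝ) * ∑ s ∈ P', ∑ b, A G (g s) (f b)) :=
          mul_le_mul_of_nonneg_left hP'sum hβ0
      _ = (P.card : ℝ) * (β * ∑ s ∈ P', ∑ b, A G (g s) (f b)) := by ring
      _ ≤ (P.card : ℝ) * ((I.card : ℝ) * xy) := mul_le_mul_of_nonneg_left hYsum' hPc0
      _ = _ := by ring
  -- the test vector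
  have hBx0 : B G ((∑ s ∈ P', e (g s)) - ∑ b ∈ Y, e (f b))
      ((∑ s ∈ P', e (g s)) - ∑ b ∈ Y, e (f b)) ≤ (β : ℝ) ^ 2 - 2 * xy := by
    rw [B_diff]
    have hYY : ∑ b ∈ Y, ∑ c ∈ Y, A G (f b) (f c) = 0 :=
      Finset.sum_eq_zero fun b _ => Finset.sum_eq_zero fun c _ => hff b c
    have hXX : ∑ s ∈ P', ∑ t ∈ P', A G (g s) (g t) ≤ (β : ℝ) ^ 2 := by
      calc _ ≤ ∑ s ∈ P', ∑ t ∈ P', (1 : ℝ) :=
            Finset.sum_le_sum fun x _ => Finset.sum_le_sum fun y _ => A_le_one G _ _
        _ = _ := by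
            simp only [Finset.sum_const, nsmul_eq_mul, mul_one, hP'card]
            ring
    rw [hYY]; linarith
  obtain ⟨ε, hε, hBε⟩ := greedy_pairs G g h hadj ((∑ s ∈ P', e (g s)) - ∑ b ∈ Y, e (f b)) P'ᶜ
  have hle := hS _ (push_PA hinj (test_vals P' Y ε hε))
    (by rw [push_sum]; exact test_sum P' Y ε (by rw [hP'card, hYcard]))
  rw [test_push g h f P' Y ε P'ᶜ (by ext s; simp)] at hle
  have hcompl : (P'ᶜ.card : ℝ) = ν - β := by
    rw [Finset.card_compl, Fintype.card_fin, hP'card, Nat.cast_sub]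
    have h1 : P.card ≤ ν := by
      have := Finset.card_le_univ P
      rwa [Fintype.card_fin] at this
    exact le_trans (min_le_left _ _) h1
  rw [hcompl] at hBε
  have h5 : 2 * xy - (β : ℝ) ^ 2 - 2 * β ≤ D0 := by
    rw [hD0]; linarith
  have hαν : (P.card : ℝ) ≤ ν := by
    have := Finset.card_le_univ P
    rw [Fintype.card_fin] at this
    exact_mod_cast this
  have hιR : (I.card : ℝ) ≤ 849 / 100 * R := by
    have h1 : (I.card : ℝ) ≤ Fintype.card V := by exact_mod_cast Finset.card_le_univ I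
    have h2 : 12 * Real.sqrt m ≤ 849 / 100 * R := by
      have h3 : Real.sqrt m ≤ 849 / 1200 * R := by
        rw [Real.sqrt_le_left (by positivity)]
        nlinarith
      linarith
    linarith
  exact dense_arith hR240 hcon hD0 hD0n (by positivity) hcount hη2 hγle h4 h5 hαν hιR
    (by
      rcases min_choice P.card I.card with h' | h'
      · left; rw [hβ, h']
      · right; rw [hβ, h']) (by positivity) (by positivity)

end Pool.Agent.Lib.MP_279640_co
end

section

set_option autoImplicit false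
set_option linter.unusedSectionVars false
open scoped Classical
open Finset

namespace Pool.Agent.Lib.MP_279640_co

section gen
variable {V : Type} [Fintype V]

lemma ar_k {k r s : ℝ} (hk : 1 ≤ k) (h : k * (k - 1) / 2 ≤ r) (hs0 : 0 ≤ s)
    (hs : s ^ 2 = 2 * r) : k - 1 ≤ s := by
  have h1 : (k - 1) ^ 2 ≤ s ^ 2 := by
    rw [hs]
    have : (k - 1) ^ 2 = k * (k - 1) - (k - 1) := by ring
    rw [this]; linarith
  exact le_of_pow_le_pow_left₀ (by norm_num) hs0 h1

lemma ar_l {l k ρ s : ℝ} (hl : 1 ≤ l) (h : l * (l - 1) / 2 ≤ k - 1) (hk : k - 1 ≤ s)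
    (hs : s ≤ 14143 / 10000 * ρ ^ 2) (hρ : 0 ≤ ρ) : l - 1 ≤ 1682 / 1000 * ρ := by
  have h1 : (l - 1) ^ 2 ≤ (1682 / 1000 * ρ) ^ 2 := by
    have e1 : (l - 1) ^ 2 = l * (l - 1) - (l - 1) := by ring
    have e2 : (1682 / 1000 * ρ) ^ 2 = 2829124 / 1000000 * ρ ^ 2 := by ring
    rw [e1, e2]
    have : 0 ≤ ρ ^ 2 := by positivity
    linarith
  exact le_of_pow_le_pow_left₀ (by norm_num) (by positivity) h1

lemma ar_L {S q n m : ℝ} (hn : S + 7 * q ≤ n) (h1 : 1414 / 1000 * q ^ 2 ≤ S)
    (h2 : S ≤ 14143 / 10000 * q ^ 2) (hS : S ^ 2 = 2 * m) (hq : 1 ≤ q) :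
    19796 / 1000 * q ^ 3 + 4058 / 100 * q ^ 2 ≤ n ^ 2 - n - 2 * m := by
  have hS0 : 0 ≤ S := le_trans (by positivity) h1
  have e1 : 0 ≤ (n - (S + 7 * q)) * (n + (S + 7 * q) - 1) :=
    mul_nonneg (by linarith) (by linarith)
  have e2 : 0 ≤ (S - 1414 / 1000 * q ^ 2) * q := mul_nonneg (by linarith) (by linarith)
  have e3 : 0 ≤ (q - 1) * q := mul_nonneg (by linarith) (by linarith)
  have e4 : (n - (S + 7 * q)) * (n + (S + 7 * q) - 1)
      = n ^ 2 - n - (S ^ 2 + 14 * (S * q) + 49 * q ^ 2 - S - 7 * q) := by ring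
  have e5 : (S - 1414 / 1000 * q ^ 2) * q = S * q - 1414 / 1000 * q ^ 3 := by ring
  have e6 : (q - 1) * q = q ^ 2 - q := by ring
  rw [e4, hS] at e1
  rw [e5] at e2
  rw [e6] at e3
  have e7 : 0 ≤ q ^ 2 := by positivity
  linarith

lemma ar_U {N s ρ r : ℝ} (hN0 : 0 ≤ N) (hN : N < s + 6364 / 1000 * ρ) (hs0 : 0 ≤ s)
    (hs : s ≤ 14143 / 10000 * ρ ^ 2) (hs2 : s ^ 2 = 2 * r) (hρ : 1 ≤ ρ) :
    N ^ 2 - N - 2 * r < 18002 / 1000 * ρ ^ 3 + 40501 / 1000 * ρ ^ 2 := by
  have h3 : 0 < ρ ^ 3 := by positivity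
  have h4 : 0 < ρ ^ 2 := by positivity
  have hr : 0 ≤ r := by
    have : 0 ≤ s ^ 2 := by positivity
    linarith
  rcases le_or_gt N 1 with h | h
  · have e1 : 0 ≤ N * (1 - N) := mul_nonneg hN0 (by linarith)
    have e2 : N * (1 - N) = N - N ^ 2 := by ring
    rw [e2] at e1
    linarith
  · have e1 : 0 ≤ ((s + 6364 / 1000 * ρ) - N) * ((s + 6364 / 1000 * ρ) + N - 1) :=
      mul_nonneg (by linarith) (by linarith)
    have e2 : ((s + 6364 / 1000 * ρ) - N) * ((s + 6364 / 1000 * ρ) + N - 1)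
        = s ^ 2 + 12728 / 1000 * (s * ρ) + 40500496 / 1000000 * ρ ^ 2 - s - 6364 / 1000 * ρ
          - (N ^ 2 - N) := by ring
    have e3 : 0 ≤ (14143 / 10000 * ρ ^ 2 - s) * ρ := mul_nonneg (by linarith) (by linarith)
    have e4 : (14143 / 10000 * ρ ^ 2 - s) * ρ = 14143 / 10000 * ρ ^ 3 - s * ρ := by ring
    rw [e2, hs2] at e1
    rw [e4] at e3
    linarith

lemma A_sup {G1 G2 : SimpleGraph V} (h : ∀ u v, G1.Adj u v → ¬ G2.Adj u v) (u v : V) :
    A (G1 ⊔ G2) u v = A G1 u v + A G2 u v := by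
  unfold A
  rw [SimpleGraph.sup_adj]
  by_cases h1 : G1.Adj u v
  · simp [h1, h u v h1]
  · simp [h1]

lemma B_sup {G1 G2 : SimpleGraph V} (h : ∀ u v, G1.Adj u v → ¬ G2.Adj u v) (x : V → ℝ) :
    B (G1 ⊔ G2) x x = B G1 x x + B G2 x x := by
  rw [B_apply, B_apply, B_apply, ← Finset.sum_add_distrib]
  refine Finset.sum_congr rfl fun u _ => ?_
  rw [← Finset.sum_add_distrib]
  refine Finset.sum_congr rfl fun v _ => ?_
  rw [A_sup h]; ring

/-- The complete graph on `T`. -/
def clqOn (T : Finset V) : SimpleGraph V where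
  Adj u v := u ≠ v ∧ u ∈ T ∧ v ∈ T
  symm := ⟨fun _ _ h => ⟨h.1.symm, h.2.2, h.2.1⟩⟩
  loopless := ⟨fun _ h => h.1 rfl⟩

/-- All pairs meeting `X`. -/
def hubOn (X : Finset V) : SimpleGraph V where
  Adj u v := u ≠ v ∧ (u ∈ X ∨ v ∈ X)
  symm := ⟨fun _ _ h => ⟨h.1.symm, h.2.symm⟩⟩
  loopless := ⟨fun _ h => h.1 rfl⟩

lemma B_clqOn (T : Finset V) (y : V → ℝ) :
    B (clqOn T) y y = (∑ v ∈ T, y v) ^ 2 - ∑ v ∈ T, y v ^ 2 := by
  rw [B_apply]
  have h1 : ∀ u, ∑ v, y u * A (clqOn T) u v * y v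
      = if u ∈ T then y u * ∑ v ∈ T, y v - y u ^ 2 else 0 := by
    intro u
    by_cases hu : u ∈ T
    · rw [if_pos hu]
      have h2 : ∀ v, y u * A (clqOn T) u v * y v
          = (if v ∈ T then y u * y v else 0) - (if v = u then y u ^ 2 else 0) := by
        intro v
        unfold A
        simp only [clqOn]
        by_cases hv : v ∈ T
        · by_cases hvu : v = u
          · subst hvu; simp [hv]; ring
          · have : u ≠ v := fun h => hvu h.symm
            simp [hv, hvu, hu, this]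
        · have hvu : v ≠ u := fun h => hv (h ▸ hu)
          simp [hv, hvu]
      rw [Finset.sum_congr rfl (fun v _ => h2 v), Finset.sum_sub_distrib]
      simp [Finset.sum_ite_mem, Finset.mul_sum]
    · rw [if_neg hu]
      apply Finset.sum_eq_zero
      intro v _
      have : A (clqOn T) u v = 0 := by simp [A, clqOn, hu]
      rw [this]; ring
  rw [Finset.sum_congr rfl (fun u _ => h1 u)]
  rw [Finset.sum_ite_mem, Finset.univ_inter, Finset.sum_sub_distrib, ← Finset.sum_mul]
  ring

lemma hub_clq [DecidableEq V] (X : Finset V) (y : V → ℝ) :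
    B (clqOn (Finset.univ : Finset V)) y y = B (hubOn X) y y + B (clqOn Xᶜ) y y := by
  have h : clqOn (Finset.univ : Finset V) = hubOn X ⊔ clqOn Xᶜ := by
    ext u v
    simp only [clqOn, hubOn, SimpleGraph.sup_adj, Finset.mem_univ, Finset.mem_compl]
    tauto
  rw [h]
  apply B_sup
  intro u v h1 h2
  simp only [clqOn, hubOn, Finset.mem_compl] at h1 h2
  tauto

lemma B_hubOn [DecidableEq V] (X : Finset V) (y : V → ℝ) :
    B (hubOn X) y y = (∑ v, y v) ^ 2 - ∑ v, y v ^ 2 - (∑ v ∈ Xᶜ, y v) ^ 2 + ∑ v ∈ Xᶜ, y v ^ 2 := by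
  have := hub_clq X y
  rw [B_clqOn, B_clqOn] at this
  linarith

lemma neg_B_le (G : SimpleGraph V) (y : V → ℝ) (hy : ∀ v, y v = -1 ∨ y v = 1) :
    -(B G y y) ≤ ∑ u, ∑ v, A G u v := by
  rw [B_apply, ← Finset.sum_neg_distrib]
  apply Finset.sum_le_sum
  intro u _
  rw [← Finset.sum_neg_distrib]
  apply Finset.sum_le_sum
  intro v _
  have := A_nonneg G u v
  rcases hy u with h | h <;> rcases hy v with h' | h' <;> rw [h, h'] <;> linarith

end gen

variable {n : ℕ}

lemma exists_sub_graph (G : SimpleGraph (Fin n)) (k : ℕ) (hk : k ≤ G.edgeSet.ncard) :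
    ∃ H ≤ G, H.edgeSet.ncard = k := by
  obtain ⟨T, hT, hTc⟩ := Set.exists_subset_card_eq hk
  refine ⟨SimpleGraph.fromEdgeSet T, ?_, ?_⟩
  · intro u v huv
    rw [SimpleGraph.fromEdgeSet_adj] at huv
    exact hT huv.1
  · rw [SimpleGraph.edgeSet_fromEdgeSet]
    have : T \ Sym2.diagSet = T := by
      ext x
      simp only [Set.mem_sdiff, and_iff_left_iff_imp]
      intro hx
      exact SimpleGraph.not_isDiag_of_mem_edgeSet _ (hT hx)
    rw [this, hTc]

lemma cutSize_mono {H G : SimpleGraph (Fin n)} (h : H ≤ G) (S : Finset (Fin n)) :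
    cutSize H S ≤ cutSize G S := by
  unfold cutSize
  apply Set.ncard_le_ncard _ (Set.toFinite _)
  intro p hp
  exact ⟨hp.1, hp.2.1, h hp.2.2⟩

lemma maxBis_mono {H G : SimpleGraph (Fin n)} (h : H ≤ G) : maxBis H ≤ maxBis G := by
  apply maxBis_le
  intro S h1 h2
  exact le_trans (cutSize_mono h S) (le_maxBis G S h1 h2)

lemma B_one (G : SimpleGraph (Fin n)) :
    B G (fun _ => 1) (fun _ => 1) = 2 * (G.edgeSet.ncard : ℝ) := by
  rw [B_apply, ← sum_A_eq]
  simp

/-- Bounding `b(G)` through the adjacency form. -/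
lemma maxBis_le_form (G : SimpleGraph (Fin n)) (C : ℝ)
    (h : ∀ y : Fin n → ℝ, (∀ v, y v = -1 ∨ y v = 1) → (∑ v, y v = 0 ∨ (∑ v, y v = -1 ∧ Odd n)) →
      2 * (G.edgeSet.ncard : ℝ) - B G y y ≤ 4 * C) : (maxBis G : ℝ) ≤ C := by
  have key : ∀ S : Finset (Fin n), S.card ≤ Sᶜ.card → Sᶜ.card ≤ S.card + 1 →
      (cutSize G S : ℝ) ≤ C := by
    intro S h1 h2
    have hcard : S.card + Sᶜ.card = n := by
      rw [Finset.card_compl, Fintype.card_fin]
      have := Finset.card_le_univ S
      rw [Fintype.card_fin] at this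
      omega
    let y : Fin n → ℝ := fun v => if v ∈ S then 1 else -1
    have hy : ∀ v, y v = -1 ∨ y v = 1 := by intro v; simp only [y]; split_ifs <;> simp
    have hsum : ∑ v, y v = (S.card : ℝ) - Sᶜ.card := by
      rw [← Finset.sum_add_sum_compl S]
      have e1 : ∑ v ∈ S, y v = S.card := by
        rw [Finset.sum_congr rfl (fun v hv => by simp [y, hv] : ∀ v ∈ S, y v = 1)]; simp
      have e2 : ∑ v ∈ Sᶜ, y v = -(Sᶜ.card : ℝ) := by
        rw [Finset.sum_congr rfl (fun v hv => by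
          simp only [y, if_neg (Finset.mem_compl.mp hv)] : ∀ v ∈ Sᶜ, y v = -1)]; simp
      rw [e1, e2]; ring
    have hc := four_cut G y S 1 (by norm_num) (fun v => rfl)
    have hb := h y hy (by
      rw [hsum]
      rcases Nat.eq_or_lt_of_le h1 with h' | h'
      · left; rw [h']; ring
      · right
        have : Sᶜ.card = S.card + 1 := by omega
        refine ⟨by rw [this]; push_cast; ring, ⟨S.card, by omega⟩⟩)
    linarith
  -- the supremum is attained
  obtain ⟨S0, h01, h02⟩ := exists_bisection n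
  have hne : {k | ∃ S : Finset (Fin n), S.card ≤ Sᶜ.card ∧ Sᶜ.card ≤ S.card + 1 ∧
      k = cutSize G S}.Nonempty := ⟨cutSize G S0, S0, h01, h02, rfl⟩
  obtain ⟨S, h1, h2, h3⟩ := Nat.sSup_mem hne (bddAbove_cuts G)
  unfold maxBis
  rw [h3]
  exact key S h1 h2

lemma hubOn_edges (X : Finset (Fin n)) :
    (hubOn X).edgeSet.ncard = hubEdges n X.card := by
  have h1 := B_one (hubOn X)
  rw [B_hubOn] at h1
  have hle : X.card ≤ n := by
    have := Finset.card_le_univ X
    rwa [Fintype.card_fin] at this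
  have h2 : (Xᶜ.card : ℝ) = (n : ℝ) - X.card := by
    rw [Finset.card_compl, Fintype.card_fin, Nat.cast_sub hle]
  simp only [one_pow, Finset.sum_const, Finset.card_univ, Fintype.card_fin, nsmul_eq_mul, mul_one,
    h2] at h1
  have h3 : ((hubEdges n X.card : ℕ) : ℝ) = X.card * (n - X.card) + X.card * (X.card - 1) / 2 := by
    unfold hubEdges
    push_cast
    rw [Nat.cast_choose_two, Nat.cast_sub hle]
  have h4 : ((hubOn X).edgeSet.ncard : ℝ) = ((hubEdges n X.card : ℕ) : ℝ) := by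
    rw [h3]; linarith
  exact_mod_cast h4

lemma clqOn_edges (T : Finset (Fin n)) :
    (clqOn T).edgeSet.ncard = T.card.choose 2 := by
  have h1 := B_one (clqOn T)
  rw [B_clqOn] at h1
  simp only [one_pow, Finset.sum_const, nsmul_eq_mul, mul_one] at h1
  have h4 : ((clqOn T).edgeSet.ncard : ℝ) = ((T.card.choose 2 : ℕ) : ℝ) := by
    rw [Nat.cast_choose_two]; linarith
  exact_mod_cast h4

/-- `2 ⌈n/2⌉`. -/
lemma two_ceil (n : ℕ) (s : ℝ) (hs : s = 0 ∨ (s = -1 ∧ Odd n)) :
    (n : ℝ) + |s| ≤ 2 * (((n + 1) / 2 : ℕ) : ℝ) := by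
  rcases hs with h | ⟨h, hodd⟩
  · rw [h, abs_zero, add_zero]
    have : n ≤ 2 * ((n + 1) / 2) := by omega
    exact_mod_cast this
  · rw [h]
    obtain ⟨k, hk⟩ := hodd
    have : (n + 1) / 2 = k + 1 := by omega
    rw [this, hk, abs_neg, abs_one]; push_cast; linarith

/-- The hub part of the form. -/
lemma hub_form (X : Finset (Fin n)) (y : Fin n → ℝ) (hy : ∀ v, y v = -1 ∨ y v = 1)
    (hs : ∑ v, y v = 0 ∨ (∑ v, y v = -1 ∧ Odd n)) :
    2 * ((hubOn X).edgeSet.ncard : ℝ) - B (hubOn X) y y ≤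
      4 * ((X.card : ℝ) * (((n + 1) / 2 : ℕ) : ℝ)) := by
  have hle : X.card ≤ n := by
    have := Finset.card_le_univ X
    rwa [Fintype.card_fin] at this
  have hyy : ∀ v, y v ^ 2 = 1 := by intro v; rcases hy v with h | h <;> rw [h] <;> norm_num
  have h2 : (Xᶜ.card : ℝ) = (n : ℝ) - X.card := by
    rw [Finset.card_compl, Fintype.card_fin, Nat.cast_sub hle]
  have h1 := B_one (hubOn X)
  rw [B_hubOn] at h1
  simp only [one_pow, Finset.sum_const, Finset.card_univ, Fintype.card_fin, nsmul_eq_mul, mul_one,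
    h2] at h1
  rw [← h1, B_hubOn]
  simp only [hyy, Finset.sum_const, Finset.card_univ, Fintype.card_fin, nsmul_eq_mul, mul_one, h2]
  set s := ∑ v, y v with hsdef
  have h3 : ∑ v ∈ Xᶜ, y v = s - ∑ v ∈ X, y v := by
    rw [hsdef, ← Finset.sum_add_sum_compl X]; ring
  rw [h3]
  set t := ∑ v ∈ X, y v with ht
  have htle : |t| ≤ X.card := by
    rw [ht]
    calc |∑ v ∈ X, y v| ≤ ∑ v ∈ X, |y v| := Finset.abs_sum_le_sum_abs _ _
      _ = ∑ v ∈ X, (1 : ℝ) := by
          refine Finset.sum_congr rfl fun v _ => ?_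
          rcases hy v with h | h <;> rw [h] <;> norm_num
      _ = _ := by simp
  have hc := two_ceil n s hs
  have ht2 : t ^ 2 ≤ (X.card : ℝ) ^ 2 := by
    rw [← sq_abs t]; exact pow_le_pow_left₀ (abs_nonneg _) htle 2
  have hst : -(s * t) ≤ |s| * X.card := by
    calc -(s * t) ≤ |s * t| := neg_le_abs _
      _ = |s| * |t| := abs_mul _ _
      _ ≤ _ := mul_le_mul_of_nonneg_left htle (abs_nonneg _)
  have hX0 : (0 : ℝ) ≤ X.card := by positivity
  have h5 : (X.card : ℝ) * ((n : ℝ) + |s|) ≤ X.card * (2 * (((n + 1) / 2 : ℕ) : ℝ)) :=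
    mul_le_mul_of_nonneg_left hc hX0
  nlinarith

/-- Upper bound from an arbitrary subgraph of the hub graph. -/
lemma bis_hub_le (m n a : ℕ) (ha : a ≤ n) (hm : m ≤ hubEdges n a) :
    (bis m n : ℝ) ≤ (a : ℝ) * (((n + 1) / 2 : ℕ) : ℝ) := by
  obtain ⟨X, _, hX⟩ := Finset.exists_subset_card_eq
    (s := (Finset.univ : Finset (Fin n))) (n := a) (by simpa using ha)
  have hE := hubOn_edges X
  rw [hX] at hE
  obtain ⟨H, hH, hHm⟩ := exists_sub_graph (hubOn X) m (by rw [hE]; exact hm)
  have h1 := bis_le H hHm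
  have h2 := maxBis_mono hH
  have h3 : (maxBis (hubOn X) : ℝ) ≤ (a : ℝ) * (((n + 1) / 2 : ℕ) : ℝ) := by
    apply maxBis_le_form
    intro y hy hs
    have := hub_form X y hy hs
    rw [hX] at this
    exact this
  have h4 : (bis m n : ℝ) ≤ maxBis (hubOn X) := by exact_mod_cast le_trans h1 h2
  linarith

/-- Upper bound from hubs, two cliques and a few further edges. -/
lemma bis_clqs_le (m n a k l r : ℕ) (hn : a + k + 2 * l ≤ n) (hr : r ≤ l.choose 2)
    (hm : m = hubEdges n a + k.choose 2 + l.choose 2 + r) :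
    4 * (bis m n : ℝ) ≤ 4 * ((a : ℝ) * (((n + 1) / 2 : ℕ) : ℝ))
      + 2 * ((k.choose 2 + l.choose 2 + r : ℕ) : ℝ) + k + l + 2 * r := by
  obtain ⟨X, _, hX⟩ := Finset.exists_subset_card_eq
    (s := (Finset.univ : Finset (Fin n))) (n := a) (by simp; omega)
  obtain ⟨T1, hT1s, hT1⟩ := Finset.exists_subset_card_eq (s := Xᶜ) (n := k)
    (by rw [Finset.card_compl, Fintype.card_fin, hX]; omega)
  obtain ⟨T2, hT2s, hT2⟩ := Finset.exists_subset_card_eq (s := Xᶜ \ T1) (n := l)
    (by rw [Finset.card_sdiff_of_subset hT1s, Finset.card_compl, Fintype.card_fin, hX, hT1]; omega)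
  obtain ⟨T3, hT3s, hT3⟩ := Finset.exists_subset_card_eq (s := (Xᶜ \ T1) \ T2) (n := l)
    (by rw [Finset.card_sdiff_of_subset hT2s, Finset.card_sdiff_of_subset hT1s,
          Finset.card_compl, Fintype.card_fin, hX, hT1, hT2]; omega)
  have hXm1 : ∀ v ∈ T1, v ∉ X := fun v hv => Finset.mem_compl.mp (hT1s hv)
  have hXm2 : ∀ v ∈ T2, v ∉ X ∧ v ∉ T1 := fun v hv => by
    have := Finset.mem_sdiff.mp (hT2s hv)
    exact ⟨Finset.mem_compl.mp this.1, this.2⟩
  have hXm3 : ∀ v ∈ T3, v ∉ X ∧ v ∉ T1 ∧ v ∉ T2 := fun v hv => by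
    have h1 := Finset.mem_sdiff.mp (hT3s hv)
    have h2 := Finset.mem_sdiff.mp h1.1
    exact ⟨Finset.mem_compl.mp h2.1, h2.2, h1.2⟩
  obtain ⟨H, hH, hHr⟩ := exists_sub_graph (clqOn T3) r (by rw [clqOn_edges, hT3]; exact hr)
  let G1 := hubOn X
  let G2 := G1 ⊔ clqOn T1
  let G3 := G2 ⊔ clqOn T2
  let G4 := G3 ⊔ H
  have hd1 : ∀ u v, G1.Adj u v → ¬ (clqOn T1).Adj u v := by
    intro u v h1 h2
    simp only [G1, hubOn, clqOn] at h1 h2
    rcases h1.2 with h | h
    · exact hXm1 u h2.2.1 h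
    · exact hXm1 v h2.2.2 h
  have hd2 : ∀ u v, G2.Adj u v → ¬ (clqOn T2).Adj u v := by
    intro u v h1 h2
    simp only [G2, G1, SimpleGraph.sup_adj, hubOn, clqOn] at h1 h2
    rcases h1 with h1 | h1
    · rcases h1.2 with h | h
      · exact (hXm2 u h2.2.1).1 h
      · exact (hXm2 v h2.2.2).1 h
    · exact (hXm2 u h2.2.1).2 h1.2.1
  have hd3 : ∀ u v, G3.Adj u v → ¬ H.Adj u v := by
    intro u v h1 h2
    have h3 := hH h2
    simp only [G3, G2, G1, SimpleGraph.sup_adj, hubOn, clqOn] at h1 h3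
    rcases h1 with (h1 | h1) | h1
    · rcases h1.2 with h | h
      · exact (hXm3 u h3.2.1).1 h
      · exact (hXm3 v h3.2.2).1 h
    · exact (hXm3 u h3.2.1).2.1 h1.2.1
    · exact (hXm3 u h3.2.1).2.2 h1.2.1
  have hB4 : ∀ y : Fin n → ℝ, B G4 y y = B (hubOn X) y y + B (clqOn T1) y y + B (clqOn T2) y y
      + B H y y := by
    intro y
    simp only [G4]
    rw [B_sup hd3]
    simp only [G3]
    rw [B_sup hd2]
    simp only [G2]
    rw [B_sup hd1]
  have hedges : G4.edgeSet.ncard = m := by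
    have h1 := B_one G4
    rw [hB4, B_one, B_one, B_one, B_one, hubOn_edges, clqOn_edges, clqOn_edges, hHr, hX, hT1,
      hT2] at h1
    have h2 : (G4.edgeSet.ncard : ℝ) = (m : ℝ) := by
      rw [hm]; push_cast; push_cast at h1; linarith
    exact_mod_cast h2
  have hb := bis_le G4 hedges
  have hbR : (bis m n : ℝ) ≤ maxBis G4 := by exact_mod_cast hb
  have hmain : (maxBis G4 : ℝ) ≤ (4 * ((a : ℝ) * (((n + 1) / 2 : ℕ) : ℝ))
      + 2 * ((k.choose 2 + l.choose 2 + r : ℕ) : ℝ) + k + l + 2 * r) / 4 := by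
    apply maxBis_le_form
    intro y hy hs
    have h1 := hub_form X y hy hs
    rw [hX, hubOn_edges, hX] at h1
    have hyy : ∀ v, y v ^ 2 = 1 := by intro v; rcases hy v with h | h <;> rw [h] <;> norm_num
    have h2 := neg_B_le H y hy
    rw [sum_A_eq, hHr] at h2
    rw [hB4, hedges, hm, B_clqOn, B_clqOn]
    simp only [hyy, Finset.sum_const, nsmul_eq_mul, mul_one, hT1, hT2]
    push_cast
    nlinarith [sq_nonneg (∑ v ∈ T1, y v), sq_nonneg (∑ v ∈ T2, y v)]
  linarith

/-- The largest clique with at most `r` edges. -/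
lemma exists_clq (r : ℕ) : ∃ k : ℕ, 1 ≤ k ∧ k.choose 2 ≤ r ∧ r ≤ k.choose 2 + (k - 1) := by
  have hex : ∃ k : ℕ, r < k.choose 2 := by
    refine ⟨r + 2, ?_⟩
    have : (r + 2).choose 2 = (r + 1) + (r + 1).choose 2 := by
      rw [show r + 2 = (r + 1) + 1 by ring, Nat.choose_succ_succ' (r + 1) 1, Nat.choose_one_right]
    omega
  have hk := Nat.find_spec hex
  have hk2 : 2 ≤ Nat.find hex := by
    by_contra hcon
    have : Nat.find hex = 0 ∨ Nat.find hex = 1 := by omega
    rcases this with h | h <;> rw [h] at hk <;> simp at hk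
  obtain ⟨k, hkk⟩ : ∃ k, Nat.find hex = k + 1 := ⟨Nat.find hex - 1, by omega⟩
  have h1 : k.choose 2 ≤ r := by
    by_contra hcon
    have := Nat.find_min' hex (not_le.mp hcon)
    omega
  refine ⟨k, by omega, h1, ?_⟩
  have h2 : (k + 1).choose 2 = k + k.choose 2 := by
    rw [Nat.choose_succ_succ' k 1, Nat.choose_one_right]
  rw [hkk, h2] at hk
  omega

/-- The upper bound. -/
theorem upper (m n a : ℕ) (hm : 1 ≤ m) (ha : a ≤ n)
    (hn : Real.sqrt (2 * m) + 7 * Real.sqrt (Real.sqrt m) ≤ n) :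
    (bis m n : ℝ) ≤ (a : ℝ) * (((n + 1) / 2 : ℕ) : ℝ) + E ((m - hubEdges n a : ℕ) : ℝ)
      + 2 * Real.sqrt (Real.sqrt m) := by
  set q := Real.sqrt (Real.sqrt m) with hq
  have hm1 : (1 : ℝ) ≤ m := by exact_mod_cast hm
  have hs0 : 0 ≤ Real.sqrt (m : ℝ) := Real.sqrt_nonneg _
  have hq0 : 0 ≤ q := Real.sqrt_nonneg _
  have hq2 : q ^ 2 = Real.sqrt (m : ℝ) := Real.sq_sqrt hs0
  have hq4 : q ^ 4 = m := by
    calc q ^ 4 = (q ^ 2) ^ 2 := by ring
      _ = _ := by rw [hq2, Real.sq_sqrt (by linarith)]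
  have hq1 : 1 ≤ q := by
    rw [hq, Real.one_le_sqrt, Real.one_le_sqrt]; exact hm1
  have hE0 : ∀ x : ℝ, 0 ≤ x → 0 ≤ E x := by
    intro x hx
    have h1 := four_E x
    have h2 : 1 ≤ Real.sqrt (8 * x + 1) := by rw [Real.one_le_sqrt]; linarith
    linarith
  rcases Nat.lt_or_ge (hubEdges n a) m with hlt | hge
  · -- r ≥ 1
    set r := m - hubEdges n a with hr
    have hr1 : 1 ≤ r := by omega
    have hrm : r ≤ m := by omega
    obtain ⟨k, hk1, hk2, hk3⟩ := exists_clq r
    obtain ⟨l, hl1, hl2, hl3⟩ := exists_clq (r - k.choose 2)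
    have hrem : r - k.choose 2 - l.choose 2 ≤ l.choose 2 := by
      have : l - 1 ≤ l.choose 2 := by
        rcases Nat.lt_or_ge l 2 with h | h
        · have : l = 1 := by omega
          rw [this]; simp
        · obtain ⟨j, rfl⟩ : ∃ j, l = j + 1 := ⟨l - 1, by omega⟩
          rw [Nat.choose_succ_succ' j 1, Nat.choose_one_right]; omega
      omega
    set r2 := r - k.choose 2 - l.choose 2 with hr2
    have hr2l : r2 ≤ l - 1 := by omega
    -- real versions
    set ρ := Real.sqrt (Real.sqrt r) with hρ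
    have hrr : (1 : ℝ) ≤ r := by exact_mod_cast hr1
    have hρ0 : 0 ≤ ρ := Real.sqrt_nonneg _
    have hρ2 : ρ ^ 2 = Real.sqrt (r : ℝ) := Real.sq_sqrt (Real.sqrt_nonneg _)
    have hρ4 : ρ ^ 4 = r := by
      calc ρ ^ 4 = (ρ ^ 2) ^ 2 := by ring
        _ = _ := by rw [hρ2, Real.sq_sqrt (by linarith)]
    have hρ1 : 1 ≤ ρ := by
      rw [hρ, Real.one_le_sqrt, Real.one_le_sqrt]; exact hrr
    have hρq : ρ ≤ q := by
      rw [hρ, hq]
      apply Real.sqrt_le_sqrt
      apply Real.sqrt_le_sqrt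
      exact_mod_cast hrm
    set s := Real.sqrt (2 * r) with hs
    have hsn : 0 ≤ s := Real.sqrt_nonneg _
    have hs2 : s ^ 2 = 2 * r := Real.sq_sqrt (by linarith)
    have hsρ : s ≤ 14143 / 10000 * ρ ^ 2 := by
      rw [hs, Real.sqrt_le_left (by positivity), ← hρ4]
      have h0 : 0 ≤ ρ ^ 4 := by positivity
      have e1 : (14143 / 10000 * ρ ^ 2) ^ 2 = (14143 / 10000) ^ 2 * ρ ^ 4 := by ring
      rw [e1]
      exact mul_le_mul_of_nonneg_right (by norm_num) h0
    have hkr : ((k : ℝ) - 1) ≤ s := by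
      have h1 : ((k.choose 2 : ℕ) : ℝ) ≤ r := by exact_mod_cast hk2
      rw [Nat.cast_choose_two] at h1
      have hk1r : (1 : ℝ) ≤ k := by exact_mod_cast hk1
      exact ar_k hk1r h1 hsn hs2
    have hlr : ((l : ℝ) - 1) ≤ 1682 / 1000 * ρ := by
      have h1 : l.choose 2 ≤ k - 1 := by omega
      have h2 : ((l.choose 2 : ℕ) : ℝ) ≤ (k : ℝ) - 1 := by
        have h3 : ((k - 1 : ℕ) : ℝ) = (k : ℝ) - 1 := by
          rw [Nat.cast_sub hk1]; simp
        rw [← h3]; exact_mod_cast h1
      rw [Nat.cast_choose_two] at h2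
      have hl1r : (1 : ℝ) ≤ l := by exact_mod_cast hl1
      exact ar_l hl1r h2 hkr hsρ hρ0
    -- enough room
    have hroom : a + k + 2 * l ≤ n := by
      by_contra hcon
      push Not at hcon
      set N : ℝ := (n : ℝ) - a with hN
      have haR : (a : ℝ) ≤ n := by exact_mod_cast ha
      have hN0 : 0 ≤ N := by rw [hN]; linarith
      have hlt' : N < s + 6364 / 1000 * ρ := by
        have : (n : ℝ) < a + k + 2 * l := by exact_mod_cast hcon
        rw [hN]; linarith
      have hM : ((hubEdges n a : ℕ) : ℝ) = a * (n - a) + a * (a - 1) / 2 := by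
        unfold hubEdges
        push_cast
        rw [Nat.cast_choose_two, Nat.cast_sub ha]
      have hrM : (r : ℝ) = m - (a * (n - a) + a * (a - 1) / 2) := by
        rw [hr, Nat.cast_sub hlt.le, hM]
      have hid : N ^ 2 - N - 2 * r = (n : ℝ) ^ 2 - n - 2 * m := by
        rw [hrM, hN]; ring
      set S := Real.sqrt (2 * m) with hS
      have hS0 : 0 ≤ S := Real.sqrt_nonneg _
      have hS2 : S ^ 2 = 2 * m := Real.sq_sqrt (by linarith)
      have hSl : 1414 / 1000 * q ^ 2 ≤ S := by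
        rw [hS]
        apply Real.le_sqrt_of_sq_le
        rw [← hq4]
        have h0 : 0 ≤ q ^ 4 := by positivity
        have e1 : (1414 / 1000 * q ^ 2) ^ 2 = (1414 / 1000) ^ 2 * q ^ 4 := by ring
        rw [e1]
        exact mul_le_mul_of_nonneg_right (by norm_num) h0
      have hSu : S ≤ 14143 / 10000 * q ^ 2 := by
        rw [hS, Real.sqrt_le_left (by positivity), ← hq4]
        have h0 : 0 ≤ q ^ 4 := by positivity
        have e1 : (14143 / 10000 * q ^ 2) ^ 2 = (14143 / 10000) ^ 2 * q ^ 4 := by ring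
        rw [e1]
        exact mul_le_mul_of_nonneg_right (by norm_num) h0
      have hL : 19796 / 1000 * q ^ 3 + 4058 / 100 * q ^ 2 ≤ (n : ℝ) ^ 2 - n - 2 * m :=
        ar_L hn hSl hSu hS2 hq1
      have hU : N ^ 2 - N - 2 * r < 18002 / 1000 * ρ ^ 3 + 40501 / 1000 * ρ ^ 2 :=
        ar_U hN0 hlt' hsn hsρ hs2 hρ1
      have h3 : ρ ^ 3 ≤ q ^ 3 := pow_le_pow_left₀ hρ0 hρq 3
      have h4 : ρ ^ 2 ≤ q ^ 2 := pow_le_pow_left₀ hρ0 hρq 2
      have h5 : 0 ≤ q ^ 3 := by positivity
      have h6 : 0 ≤ q ^ 2 := by positivity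
      linarith
    have hmdec : m = hubEdges n a + k.choose 2 + l.choose 2 + r2 := by omega
    have hb := bis_clqs_le m n a k l r2 hroom hrem hmdec
    have hrdec : k.choose 2 + l.choose 2 + r2 = r := by omega
    rw [hrdec] at hb
    have hED : (k : ℝ) - 1 ≤ (Real.sqrt (8 * r + 1) - 1) / 2 := by
      have h1 : ((k.choose 2 : ℕ) : ℝ) ≤ r := by exact_mod_cast hk2
      rw [Nat.cast_choose_two] at h1
      have : 2 * (k : ℝ) - 1 ≤ Real.sqrt (8 * r + 1) := by
        apply Real.le_sqrt_of_sq_le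
        have e1 : (2 * (k : ℝ) - 1) ^ 2 = 8 * (k * (k - 1) / 2) + 1 := by ring
        rw [e1]; linarith
      linarith
    have hr2R : (r2 : ℝ) ≤ (l : ℝ) - 1 := by
      have : ((l - 1 : ℕ) : ℝ) = (l : ℝ) - 1 := by rw [Nat.cast_sub hl1]; simp
      rw [← this]; exact_mod_cast hr2l
    have h4E := four_E (r : ℝ)
    linarith
  · have h1 := bis_hub_le m n a ha hge
    have h2 : m - hubEdges n a = 0 := by omega
    rw [h2, Nat.cast_zero]
    have := hE0 0 le_rfl
    linarith

end Pool.Agent.Lib.MP_279640_co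
end
end
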